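import Mathlib
import Pool.Agent.MP_f2742c_an.Haar

-- part MP_f2742c_an.Scalar
section

/-! Scalar solutions of the sine functional equation. -/

open Real MeasureTheory Set

namespace Pool.Agent.MP_f2742c_an

theorem ode_of_funeq (z : ℝ → ℝ) (Z : ℝ → ℝ) (hZ : ∀ t, HasDerivAt Z (z t) t)
    (hf : ∀ a t, z a * z t = Z (t + a) - Z (t - a)) (a₀ : ℝ) (ha₀ : z a₀ ≠ 0) :
    ∃ (z₁ : ℝ → ℝ) (κ : ℝ), (∀ t, HasDerivAt z (z₁ t) t) ∧ (∀ t, HasDerivAt z₁ (κ * z t) t) ∧
      z₁ 0 = 2 := by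
  set z₁ : ℝ → ℝ := fun t => (z (t + a₀) - z (t - a₀)) / z a₀ with hz₁
  have e0 : z = fun t => (Z (t + a₀) - Z (t - a₀)) / z a₀ := by
    funext t
    rw [← hf a₀ t]
    field_simp
  have d1 : ∀ t, HasDerivAt z (z₁ t) t := by
    intro t
    have h := (((hZ (t + a₀)).comp_add_const t a₀).sub ((hZ (t - a₀)).comp_sub_const t a₀)).div_const
      (z a₀)
    rw [e0]
    rw [hz₁]
    exact h
  set z₂ : ℝ → ℝ := fun t => (z₁ (t + a₀) - z₁ (t - a₀)) / z a₀ with hz₂
  have d2 : ∀ t, HasDerivAt z₁ (z₂ t) t := by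
    intro t
    exact (((d1 (t + a₀)).comp_add_const t a₀).sub ((d1 (t - a₀)).comp_sub_const t a₀)).div_const
      (z a₀)
  have e1 : ∀ a t, z₁ a * z t = z (t + a) + z (t - a) := by
    intro a t
    have h1 : HasDerivAt (fun a => z a * z t) (z₁ a * z t) a := (d1 a).mul_const _
    have h2 : HasDerivAt (fun a => Z (t + a) - Z (t - a)) (z (t + a) - -z (t - a)) a :=
      ((hZ (t + a)).comp_const_add t a).sub ((hZ (t - a)).comp_const_sub t a)
    have h3 : (fun a => z a * z t) = fun a => Z (t + a) - Z (t - a) := funext fun a => hf a t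
    rw [h3] at h1
    have := h1.unique h2
    linarith
  have e2 : ∀ a t, z₂ a * z t = z₁ (t + a) - z₁ (t - a) := by
    intro a t
    have h1 : HasDerivAt (fun a => z₁ a * z t) (z₂ a * z t) a := (d2 a).mul_const _
    have h2 : HasDerivAt (fun a => z (t + a) + z (t - a)) (z₁ (t + a) + -z₁ (t - a)) a :=
      ((d1 (t + a)).comp_const_add t a).add ((d1 (t - a)).comp_const_sub t a)
    have h3 : (fun a => z₁ a * z t) = fun a => z (t + a) + z (t - a) := funext fun a => e1 a t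
    rw [h3] at h1
    have := h1.unique h2
    linarith
  refine ⟨z₁, z₂ a₀ / z a₀, d1, fun t => ?_, ?_⟩
  · have h : z₂ t = z₂ a₀ / z a₀ * z t := by
      have := e2 a₀ t
      rw [div_mul_eq_mul_div, this]
    rw [← h]
    exact d2 t
  · have := e1 0 a₀
    simp only [add_zero, sub_zero] at this
    have h : (z₁ 0 - 2) * z a₀ = 0 := by linarith
    rcases mul_eq_zero.mp h with h | h
    · linarith
    · exact absurd h ha₀

theorem const_of_deriv_zero {f : ℝ → ℝ} (h : ∀ t, HasDerivAt f 0 t) (t : ℝ) : f t = f 0 :=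
  is_const_of_deriv_eq_zero (fun t => (h t).differentiableAt) (fun t => (h t).deriv) t 0

theorem ode_small {z z₁ : ℝ → ℝ} {κ : ℝ} (d1 : ∀ t, HasDerivAt z (z₁ t) t)
    (d2 : ∀ t, HasDerivAt z₁ (κ * z t) t) (h0 : z 0 = 0) (h1 : z₁ 0 = 2) (hκ : κ ≤ 1 / 16)
    (t : ℝ) (ht : 0 ≤ t) : |z t| ≤ 8 * (exp (t / 4) - 1) := by
  have hE : ∀ s, z₁ s ^ 2 - κ * z s ^ 2 = 4 := by
    intro s
    have := const_of_deriv_zero (f := fun s => z₁ s ^ 2 - κ * z s ^ 2) (fun s => by
      have h := ((d2 s).pow 2).sub (((d1 s).pow 2).const_mul κ)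
      exact h.congr_deriv (by simp; ring)) s
    simp only [h0, h1] at this
    rw [this]
    norm_num
  have hb : ∀ s, ‖z₁ s‖ ≤ 1 / 4 * ‖z s‖ + 2 := by
    intro s
    rw [Real.norm_eq_abs, Real.norm_eq_abs]
    apply abs_le_of_sq_le_sq' _ (by positivity) |> fun h => abs_le.mpr h
    have h2 := hE s
    have h3 : z s ^ 2 = |z s| ^ 2 := (sq_abs _).symm
    have h4 := abs_nonneg (z s)
    nlinarith [sq_nonneg (z s)]
  have := norm_le_gronwallBound_of_norm_deriv_right_le (f := z) (f' := z₁) (δ := 0) (K := 1 / 4)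
    (ε := 2) (a := 0) (b := t) (fun s _ => (d1 s).continuousAt.continuousWithinAt)
    (fun s _ => (d1 s).hasDerivWithinAt) (by simp [h0]) (fun s _ => hb s) t ⟨ht, le_rfl⟩
  rw [gronwallBound_of_K_ne_0 (by norm_num)] at this
  simp only [zero_mul, zero_add, sub_zero, Real.norm_eq_abs] at this
  convert this using 2
  · norm_num
  · congr 2
    ring

theorem ode_large {z z₁ : ℝ → ℝ} {μ : ℝ} (d1 : ∀ t, HasDerivAt z (z₁ t) t)
    (d2 : ∀ t, HasDerivAt z₁ (μ ^ 2 * z t) t) (h0 : z 0 = 0) (h1 : z₁ 0 = 2) (hμ : 0 < μ)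
    (t : ℝ) : z t = (exp (μ * t) - exp (-(μ * t))) / μ := by
  have a1 := const_of_deriv_zero (f := fun s => (z₁ s - μ * z s) * exp (μ * s)) (fun s => by
    have h := ((d2 s).sub ((d1 s).const_mul μ)).mul ((hasDerivAt_id s).const_mul μ).exp
    exact h.congr_deriv (by simp; ring)) t
  have a2 := const_of_deriv_zero (f := fun s => (z₁ s + μ * z s) * exp (-(μ * s))) (fun s => by
    have h := ((d2 s).add ((d1 s).const_mul μ)).mul ((hasDerivAt_id s).const_mul μ).neg.exp
    exact h.congr_deriv (by simp; ring)) t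
  simp only [h0, h1, mul_zero, sub_zero, add_zero, exp_zero, mul_one, neg_zero] at a1 a2
  have e : exp (μ * t) * exp (-(μ * t)) = 1 := by rw [← exp_add]; simp
  have b1 : z₁ t - μ * z t = 2 * exp (-(μ * t)) := by
    calc z₁ t - μ * z t = (z₁ t - μ * z t) * (exp (μ * t) * exp (-(μ * t))) := by rw [e, mul_one]
      _ = 2 * exp (-(μ * t)) := by rw [← mul_assoc, a1]
  have b2 : z₁ t + μ * z t = 2 * exp (μ * t) := by
    calc z₁ t + μ * z t = (z₁ t + μ * z t) * (exp (-(μ * t)) * exp (μ * t)) := by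
          rw [mul_comm (exp _), e, mul_one]
      _ = 2 * exp (μ * t) := by rw [← mul_assoc, a2]
  field_simp
  linarith

theorem sinh_half (t : ℝ) : 4 * sinh (t / 2) = 2 * (exp (t / 2) - exp (-(t / 2))) := by
  rw [sinh_eq]; ring

theorem scalar_cases (y : ℝ → ℝ) (hc : Continuous y)
    (hf : ∀ a t, 0 ≤ a → a ≤ t → y a * y t = ∫ u in (t - a)..(t + a), y u)
    (hb : ∀ t, 0 ≤ t → |y t| ≤ 4 * sinh (t / 2)) :
    (∃ ε, 0 ≤ ε ∧ ε ≤ 1 / 4 ∧ ∀ t, 0 < t → exp (-(ε * t)) ≤ y t / (4 * sinh (t / 2)) ∧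
      y t / (4 * sinh (t / 2)) ≤ exp (-(ε * t)) / (1 - 2 * ε)) ∨
    (∀ t, 0 ≤ t → |y t| ≤ 8 * (exp (t / 4) - 1)) := by
  have y0 : y 0 = 0 := by
    have := hb 0 le_rfl
    simpa using this
  set z : ℝ → ℝ := fun t => if 0 ≤ t then y t else -y (-t) with hz
  have zc : Continuous z := by
    refine Continuous.if_le hc (hc.comp continuous_neg).neg continuous_const continuous_id ?_
    intro x hx
    simp [← hx, y0]
  have zpos : ∀ t, 0 ≤ t → z t = y t := fun t ht => if_pos ht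
  have zodd : ∀ t, z (-t) = -z t := by
    intro t
    rcases lt_trichotomy t 0 with h | h | h
    · simp only [hz, if_pos (by linarith : 0 ≤ -t), if_neg (by linarith : ¬ 0 ≤ t), neg_neg]
    · simp [h, zpos 0 le_rfl, y0]
    · simp only [hz, if_neg (by linarith : ¬ 0 ≤ -t), if_pos h.le, neg_neg]
  set Z : ℝ → ℝ := fun t => ∫ u in (0 : ℝ)..t, z u with hZdef
  have hZ : ∀ t, HasDerivAt Z (z t) t := fun t => (zc.integral_hasStrictDerivAt 0 t).hasDerivAt
  have Zeven : ∀ t, Z (-t) = Z t := by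
    intro t
    have := const_of_deriv_zero (f := fun t => Z (-t) - Z t) (fun t => by
      have h := ((hZ (-t)).comp t (hasDerivAt_neg t)).sub (hZ t)
      exact h.congr_deriv (by rw [zodd]; ring)) t
    simp only [neg_zero, sub_self] at this
    linarith
  have f1 : ∀ a t, 0 ≤ a → a ≤ t → z a * z t = Z (t + a) - Z (t - a) := by
    intro a t ha hat
    rw [zpos a ha, zpos t (ha.trans hat), hf a t ha hat]
    simp only [hZdef]
    rw [intervalIntegral.integral_interval_sub_left (zc.intervalIntegrable _ _)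
      (zc.intervalIntegrable _ _)]
    apply intervalIntegral.integral_congr
    intro u hu
    rw [uIcc_of_le (by linarith)] at hu
    exact (zpos u (by linarith [hu.1])).symm
  have f2 : ∀ a t, 0 ≤ a → 0 ≤ t → z a * z t = Z (t + a) - Z (t - a) := by
    intro a t ha ht
    rcases le_total a t with h | h
    · exact f1 a t ha h
    · rw [mul_comm, f1 t a ht h, add_comm, ← Zeven (a - t), neg_sub]
  have f3 : ∀ a t, 0 ≤ t → z a * z t = Z (t + a) - Z (t - a) := by
    intro a t ht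
    rcases le_total 0 a with h | h
    · exact f2 a t h ht
    · have := f2 (-a) t (by linarith) ht
      rw [zodd, sub_neg_eq_add, ← sub_eq_add_neg] at this
      linarith
  have f4 : ∀ a t, z a * z t = Z (t + a) - Z (t - a) := by
    intro a t
    rcases le_total 0 t with h | h
    · exact f3 a t h
    · have := f3 a (-t) (by linarith)
      rw [zodd, ← Zeven (-t + a), ← Zeven (-t - a), show -(-t + a) = t - a by ring,
        show -(-t - a) = t + a by ring] at this
      linarith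
  by_cases hz0 : ∀ a, z a = 0
  · right
    intro t ht
    rw [← zpos t ht, hz0, abs_zero]
    have := one_le_exp (by linarith : 0 ≤ t / 4)
    linarith
  push Not at hz0
  obtain ⟨a₀, ha₀⟩ := hz0
  obtain ⟨z₁, κ, d1, d2, h1⟩ := ode_of_funeq z Z hZ f4 a₀ ha₀
  have z0 : z 0 = 0 := by rw [zpos 0 le_rfl, y0]
  by_cases hκ : κ ≤ 1 / 16
  · right
    intro t ht
    rw [← zpos t ht]
    exact ode_small d1 d2 z0 h1 hκ t ht
  left
  push Not at hκ
  set μ := √κ with hμ
  have hμ2 : μ ^ 2 = κ := sq_sqrt (by linarith)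
  have hμ4 : 1 / 4 ≤ μ := by
    apply le_sqrt_of_sq_le
    linarith
  have hform : ∀ t, 0 ≤ t → y t = (exp (μ * t) - exp (-(μ * t))) / μ := by
    intro t ht
    rw [← zpos t ht]
    exact ode_large d1 (by rw [hμ2]; exact d2) z0 h1 (by linarith) t
  have hμ1 : μ ≤ 1 / 2 := by
    by_contra hcon
    push Not at hcon
    set t := (2 * μ + 1) / (μ - 1 / 2) with ht
    have htpos : 0 ≤ t := div_nonneg (by linarith) (by linarith)
    have h2 := (le_abs_self _).trans (hb t htpos)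
    rw [hform t htpos, sinh_half, div_le_iff₀ (by linarith)] at h2
    have h3 : exp (μ * t) = exp (t / 2) * exp (2 * μ + 1) := by
      rw [← exp_add]
      congr 1
      have : (μ - 1 / 2) * t = 2 * μ + 1 := by
        rw [ht]
        exact mul_div_cancel₀ _ (by linarith : μ - 1 / 2 ≠ 0)
      linarith
    have h4 := add_one_le_exp (2 * μ + 1)
    have h5 : exp (-(μ * t)) ≤ 1 := exp_le_one_iff.mpr (by nlinarith)
    have h6 := one_le_exp (by linarith : 0 ≤ t / 2)
    have h7 := exp_pos (-(t / 2))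
    rw [h3] at h2
    nlinarith
  refine ⟨1 / 2 - μ, by linarith, by linarith, fun t ht => ?_⟩
  have hs : 0 < 4 * sinh (t / 2) := by
    have := sinh_pos_iff.mpr (by linarith : 0 < t / 2)
    linarith
  have hμ0 : 0 < μ := by linarith
  have e1 : exp (-((1 / 2 - μ) * t)) * exp (t / 2) = exp (μ * t) := by
    rw [← exp_add]; congr 1; ring
  have e2 : exp (-((1 / 2 - μ) * t)) * exp (-(t / 2)) = exp (μ * t) * exp (-t) := by
    rw [← exp_add, ← exp_add]; congr 1; ring
  have e3 : exp (-(μ * t)) = exp (μ * t) * exp (-(2 * μ * t)) := by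
    rw [← exp_add]; congr 1; ring
  constructor
  · rw [le_div_iff₀ hs, hform t ht.le, sinh_half, le_div_iff₀ hμ0]
    have hconv := convexOn_exp.2 (mem_univ (-t)) (mem_univ 0)
      (by linarith : 0 ≤ 2 * μ) (by linarith : 0 ≤ 1 - 2 * μ) (by ring)
    simp only [smul_eq_mul, mul_zero, add_zero, exp_zero, mul_one] at hconv
    rw [show 2 * μ * -t = -(2 * μ * t) by ring] at hconv
    have hp := exp_pos (μ * t)
    calc exp (-((1 / 2 - μ) * t)) * (2 * (exp (t / 2) - exp (-(t / 2)))) * μ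
        = 2 * μ * (exp (-((1 / 2 - μ) * t)) * exp (t / 2) -
            exp (-((1 / 2 - μ) * t)) * exp (-(t / 2))) := by ring
      _ = exp (μ * t) * (2 * μ * (1 - exp (-t))) := by rw [e1, e2]; ring
      _ ≤ exp (μ * t) * (1 - exp (-(2 * μ * t))) := by
          apply mul_le_mul_of_nonneg_left _ hp.le
          linarith
      _ = exp (μ * t) - exp (-(μ * t)) := by rw [e3]; ring
  · rw [div_le_div_iff₀ hs (by linarith), hform t ht.le, sinh_half]
    have h2 : exp (μ * t) * exp (-t) ≤ exp (-(μ * t)) := by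
      rw [← exp_add]
      apply exp_le_exp.mpr
      nlinarith
    calc (exp (μ * t) - exp (-(μ * t))) / μ * (1 - 2 * (1 / 2 - μ))
        = 2 * (exp (μ * t) - exp (-(μ * t))) := by field_simp; ring
      _ ≤ 2 * (exp (μ * t) - exp (μ * t) * exp (-t)) := by linarith
      _ = exp (-((1 / 2 - μ) * t)) * (2 * (exp (t / 2) - exp (-(t / 2)))) := by
          rw [← e2, ← e1]; ring

theorem small_ratio {v t : ℝ} (ht : 0 < t) (h : |v| ≤ 8 * (exp (t / 4) - 1)) :
    |v / (4 * sinh (t / 2))| ≤ 4 / (exp (t / 4) + 1) := by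
  have hs : 0 < 4 * sinh (t / 2) := by
    have := sinh_pos_iff.mpr (by linarith : 0 < t / 2)
    linarith
  have hx : 1 ≤ exp (t / 4) := one_le_exp (by linarith)
  rw [abs_div, abs_of_pos hs, div_le_div_iff₀ hs (by linarith), sinh_half]
  have e1 : exp (t / 2) = exp (t / 4) * exp (t / 4) := by rw [← exp_add]; congr 1; ring
  have e2 : exp (-(t / 2)) ≤ 1 := exp_le_one_iff.mpr (by linarith)
  have : |v| * (exp (t / 4) + 1) ≤ 8 * (exp (t / 4) - 1) * (exp (t / 4) + 1) :=
    mul_le_mul_of_nonneg_right h (by linarith)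
  rw [e1]
  nlinarith

theorem scalar_ineq (y : ℝ → ℝ) (hc : Continuous y)
    (hf : ∀ a t, 0 ≤ a → a ≤ t → y a * y t = ∫ u in (t - a)..(t + a), y u)
    (hb : ∀ t, 0 ≤ t → |y t| ≤ 4 * sinh (t / 2)) (a : ℝ) (ha : 24 ≤ a) (t : ℝ) (ht : 0 < t) :
    (∀ k : ℕ, k * a ≤ t → (y t / (4 * sinh (t / 2))) ^ 2 ≤
      4 * ((1 + y a / (4 * sinh (a / 2))) / 2) ^ (2 * k) + 16 * exp (-(t / 2))) ∧
    1 - y t / (4 * sinh (t / 2)) ≤ (4 + t) * (1 - y a / (4 * sinh (a / 2))) := by
  have ha0 : 0 < a := by linarith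
  have hs : ∀ t, 0 < t → 0 < 4 * sinh (t / 2) := fun t ht => by
    have := sinh_pos_iff.mpr (by linarith : 0 < t / 2)
    linarith
  have hle : ∀ t, 0 < t → |y t / (4 * sinh (t / 2))| ≤ 1 := fun t ht => by
    rw [abs_div, abs_of_pos (hs t ht), div_le_one (hs t ht)]
    exact hb t ht.le
  rcases scalar_cases y hc hf hb with ⟨ε, h0, h1, h⟩ | h
  · obtain ⟨l1, u1⟩ := h t ht
    obtain ⟨l2, u2⟩ := h a ha0
    set ρ := y t / (4 * sinh (t / 2))
    set p := y a / (4 * sinh (a / 2))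
    have hp1 : p ≤ 1 := (le_abs_self _).trans (hle a ha0)
    constructor
    · intro k hk
      have b1 : ρ ≤ 2 * exp (-(ε * t)) := by
        refine u1.trans ?_
        rw [div_le_iff₀ (by linarith)]
        nlinarith [exp_pos (-(ε * t))]
      have b0 : 0 ≤ ρ := (exp_pos _).le.trans l1
      have b2 : exp (-(ε * t)) ≤ ((1 + p) / 2) ^ k := by
        calc exp (-(ε * t)) ≤ exp (k * -(ε * a)) := exp_le_exp.mpr (by nlinarith)
          _ = exp (-(ε * a)) ^ k := exp_nat_mul _ _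
          _ ≤ ((1 + p) / 2) ^ k := pow_le_pow_left₀ (exp_pos _).le (by linarith) k
      have b3 : ρ ^ 2 ≤ (2 * ((1 + p) / 2) ^ k) ^ 2 := pow_le_pow_left₀ b0 (by linarith) 2
      have b4 : (2 * ((1 + p) / 2) ^ k) ^ 2 = 4 * ((1 + p) / 2) ^ (2 * k) := by
        rw [mul_pow, ← pow_mul, mul_comm k 2]; norm_num
      have := exp_pos (-(t / 2))
      linarith
    · have c1 : 1 - ρ ≤ ε * t := by
        have := add_one_le_exp (-(ε * t))
        linarith
      have c2 : p ≤ 1 - ε := by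
        refine u2.trans ?_
        rw [div_le_iff₀ (by linarith)]
        have d1 : exp (-(ε * a)) * (1 + 8 * ε) ≤ 1 := by
          have d2 := add_one_le_exp (ε * a)
          have d3 : exp (-(ε * a)) * exp (ε * a) = 1 := by rw [← exp_add]; simp
          have d4 : 1 + 8 * ε ≤ exp (ε * a) := by nlinarith
          nlinarith [exp_pos (-(ε * a))]
        have d5 : 1 ≤ (1 - ε) * (1 - 2 * ε) * (1 + 8 * ε) := by
          nlinarith [mul_nonneg h0 (by linarith : 0 ≤ 1 / 4 - ε), mul_nonneg h0 (mul_nonneg h0 h0)]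
        by_contra hcon
        push Not at hcon
        nlinarith
      nlinarith
  · have r1 := small_ratio ht (h t ht.le)
    have r2 := small_ratio ha0 (h a ha0.le)
    set ρ := y t / (4 * sinh (t / 2))
    set p := y a / (4 * sinh (a / 2))
    constructor
    · intro k _
      have b1 : |ρ| ≤ 4 * exp (-(t / 4)) := by
        refine r1.trans ?_
        have := exp_pos (t / 4)
        rw [exp_neg, ← div_eq_mul_inv]
        exact div_le_div_of_nonneg_left (by norm_num) this (by linarith)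
      have b2 : ρ ^ 2 ≤ (4 * exp (-(t / 4))) ^ 2 := by
        rw [← sq_abs]
        exact pow_le_pow_left₀ (abs_nonneg _) b1 2
      have b3 : (4 * exp (-(t / 4))) ^ 2 = 16 * exp (-(t / 2)) := by
        rw [mul_pow, ← exp_nat_mul]
        norm_num
        ring_nf
      have b4 : 0 ≤ ((1 + p) / 2) ^ (2 * k) := by rw [pow_mul]; positivity
      linarith
    · have c1 : p ≤ 1 / 2 := by
        refine (le_abs_self _).trans (r2.trans ?_)
        have := add_one_le_exp (a / 4)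
        rw [div_le_iff₀ (by linarith)]
        linarith
      have c2 := neg_abs_le ρ
      have c3 := hle t ht
      nlinarith

end Pool.Agent.MP_f2742c_an

end

-- part MP_f2742c_an.Spectral
section

/-! Operator inequalities for a family satisfying the sine functional equation. -/

open Real MeasureTheory Set WeakDual
open scoped InnerProductSpace

namespace Pool.Agent.MP_f2742c_an

/-- normalised element -/
noncomputable def nrm {A : Type*} [AddCommGroup A] [Module ℂ A] (w : ℝ → A) (t : ℝ) : A :=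
  (((4 * sinh (t / 2))⁻¹ : ℝ) : ℂ) • w t

/-- lazy version -/
noncomputable def lazy {A : Type*} [Ring A] [Module ℂ A] (w : ℝ → A) (a : ℝ) : A :=
  (((2 : ℝ)⁻¹ : ℝ) : ℂ) • (1 + nrm w a)

noncomputable def X1 {A : Type*} [Ring A] [Module ℂ A] (w : ℝ → A) (a t : ℝ) (k : ℕ) : A :=
  ((4 : ℝ) : ℂ) • (lazy w a) ^ (2 * k) + ((16 * exp (-(t / 2)) : ℝ) : ℂ) • (1 : A) - (nrm w t) ^ 2

noncomputable def X2 {A : Type*} [Ring A] [Module ℂ A] (w : ℝ → A) (a t : ℝ) : A :=
  ((4 + t : ℝ) : ℂ) • (1 - nrm w a) - (1 - nrm w t)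

theorem spectrum_comm {S : Type*} [CommCStarAlgebra S] (w : ℝ → S) (hc : Continuous w)
    (hsa : ∀ t, IsSelfAdjoint (w t))
    (hf : ∀ a t, 0 ≤ a → a ≤ t → w a * w t = ∫ u in (t - a)..(t + a), w u)
    (hb : ∀ t, 0 ≤ t → ‖w t‖ ≤ 4 * sinh (t / 2)) (a : ℝ) (ha : 24 ≤ a) (t : ℝ) (ht : 0 < t) :
    (∀ k : ℕ, k * a ≤ t → ∀ z ∈ spectrum ℂ (X1 w a t k), 0 ≤ z.re) ∧
      ∀ z ∈ spectrum ℂ (X2 w a t), 0 ≤ z.re := by
  have key : ∀ χ : characterSpace ℂ S,
      (∀ k : ℕ, k * a ≤ t → 0 ≤ (χ (X1 w a t k)).re) ∧ 0 ≤ (χ (X2 w a t)).re := by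
    intro χ
    have : Nontrivial S := by
      by_contra hS
      rw [not_nontrivial_iff_subsingleton] at hS
      exact (CharacterSpace.instIsEmpty (𝕜 := ℂ) (A := S)).false χ
    set y : ℝ → ℝ := fun t => (χ (w t)).re with hy
    have hre : ∀ t, χ (w t) = (y t : ℂ) := by
      intro t
      have : IsSelfAdjoint (χ (w t)) := (hsa t).map χ
      exact (Complex.conj_eq_iff_re.mp this).symm
    have yc : Continuous y := Complex.continuous_re.comp ((map_continuous χ).comp hc)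
    have yf : ∀ a t, 0 ≤ a → a ≤ t → y a * y t = ∫ u in (t - a)..(t + a), y u := by
      intro a t ha hat
      have h1 := congrArg χ (hf a t ha hat)
      rw [map_mul, hre, hre] at h1
      have h2 : χ (∫ u in (t - a)..(t + a), w u) = ∫ u in (t - a)..(t + a), χ (w u) :=
        ((CharacterSpace.toCLM χ).intervalIntegral_comp_comm (hc.intervalIntegrable _ _)).symm
      rw [h2] at h1
      simp only [hre] at h1
      rw [intervalIntegral.integral_ofReal] at h1
      exact_mod_cast h1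
    have yb : ∀ t, 0 ≤ t → |y t| ≤ 4 * sinh (t / 2) := by
      intro t ht
      refine le_trans ?_ (hb t ht)
      have := AlgHom.norm_apply_le_self χ (w t)
      rwa [hre, Complex.norm_real, Real.norm_eq_abs] at this
    obtain ⟨h1, h2⟩ := scalar_ineq y yc yf yb a ha t ht
    have hn : ∀ t, χ (nrm w t) = ((y t / (4 * sinh (t / 2)) : ℝ) : ℂ) := by
      intro t
      rw [nrm, map_smul, hre, smul_eq_mul, ← Complex.ofReal_mul, inv_mul_eq_div]
    constructor
    · intro k hk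
      have : χ (X1 w a t k) = ((4 * ((1 + y a / (4 * sinh (a / 2))) / 2) ^ (2 * k) +
          16 * exp (-(t / 2)) - (y t / (4 * sinh (t / 2))) ^ 2 : ℝ) : ℂ) := by
        simp only [X1, lazy, map_sub, map_add, map_smul, map_pow, map_one, hn, smul_eq_mul]
        push_cast
        ring
      rw [this, Complex.ofReal_re]
      linarith [h1 k hk]
    · have : χ (X2 w a t) = (((4 + t) * (1 - y a / (4 * sinh (a / 2))) -
          (1 - y t / (4 * sinh (t / 2))) : ℝ) : ℂ) := by
        simp only [X2, map_sub, map_smul, map_one, hn, smul_eq_mul]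
        push_cast
        ring
      rw [this, Complex.ofReal_re]
      linarith
  constructor
  · intro k hk z hz
    obtain ⟨χ, rfl⟩ := CharacterSpace.mem_spectrum_iff_exists.mp hz
    exact (key χ).1 k hk
  · intro z hz
    obtain ⟨χ, rfl⟩ := CharacterSpace.mem_spectrum_iff_exists.mp hz
    exact (key χ).2

theorem isSelfAdjoint_real_smul {A : Type*} [AddCommGroup A] [Module ℂ A] [Star A]
    [StarModule ℂ A] (c : ℝ) {x : A} (hx : IsSelfAdjoint x) : IsSelfAdjoint ((c : ℂ) • x) :=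
  IsSelfAdjoint.smul (Complex.conj_ofReal c) hx

open StarAlgebra StarSubalgebra in
open scoped IsMulCommutative in
theorem spectrum_noncomm {A : Type*} [CStarAlgebra A] (w : ℝ → A) (hc : Continuous w)
    (hsa : ∀ t, IsSelfAdjoint (w t)) (hcomm : ∀ s t, w s * w t = w t * w s)
    (hf : ∀ a t, 0 ≤ a → a ≤ t → w a * w t = ∫ u in (t - a)..(t + a), w u)
    (hb : ∀ t, 0 ≤ t → ‖w t‖ ≤ 4 * sinh (t / 2)) (a : ℝ) (ha : 24 ≤ a) (t : ℝ) (ht : 0 < t) :
    (∀ k : ℕ, k * a ≤ t → ∀ z ∈ spectrum ℂ (X1 w a t k), 0 ≤ z.re) ∧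
      ∀ z ∈ spectrum ℂ (X2 w a t), 0 ≤ z.re := by
  let S : StarSubalgebra ℂ A := (adjoin ℂ (range w)).topologicalClosure
  have hS : IsClosed (S : Set A) := (adjoin ℂ (range w)).isClosed_topologicalClosure
  have : IsMulCommutative (adjoin ℂ (range w)) :=
    isMulCommutative_adjoin ℂ (by rintro _ ⟨s, rfl⟩ _ ⟨t, rfl⟩; exact hcomm s t)
      (by rintro _ ⟨s, rfl⟩ _ ⟨t, rfl⟩; rw [(hsa t).star_eq]; exact hcomm s t)
  let _ : CommRing S := (adjoin ℂ (range w)).commRingTopologicalClosure mul_comm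
  let _ : CommCStarAlgebra S := { }
  have hm : ∀ t, w t ∈ S := fun t =>
    le_topologicalClosure _ (subset_adjoin ℂ (range w) ⟨t, rfl⟩)
  let v : ℝ → S := fun t => ⟨w t, hm t⟩
  have vc : Continuous v := hc.subtype_mk _
  have h := spectrum_comm v vc (fun t => Subtype.ext (hsa t)) (fun a t ha hat => by
    apply Subtype.ext
    have h2 : ((∫ u in (t - a)..(t + a), v u : S) : A) = ∫ u in (t - a)..(t + a), w u :=
      ((S.toSubalgebra.toSubmodule.subtypeL).intervalIntegral_comp_comm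
        (vc.intervalIntegrable _ _)).symm
    rw [h2]
    exact hf a t ha hat) hb a ha t ht
  constructor
  · intro k hk z hz
    refine h.1 k hk z ?_
    rw [StarSubalgebra.spectrum_eq (hS := hS)]
    exact hz
  · intro z hz
    refine h.2 z ?_
    rw [StarSubalgebra.spectrum_eq (hS := hS)]
    exact hz

variable {H : Type*} [NormedAddCommGroup H] [InnerProductSpace ℂ H] [CompleteSpace H]

theorem re_inner_nonneg_of_spectrum {X : H →L[ℂ] H} (hX : IsSelfAdjoint X)
    (h : ∀ z ∈ spectrum ℂ X, 0 ≤ z.re) (f : H) : 0 ≤ (⟪X f, f⟫_ℂ).re := by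
  have h0 : 0 ≤ X := by
    rw [StarOrderedRing.nonneg_iff_spectrum_nonneg (R := ℝ) X hX]
    intro x hx
    have := h (algebraMap ℝ ℂ x) ((spectrum.algebraMap_mem_iff ℂ).mpr hx)
    simpa using this
  exact ((ContinuousLinearMap.nonneg_iff_isPositive X).mp h0).re_inner_nonneg_left f

theorem inner_sq_selfAdjoint {X : H →L[ℂ] H} (hX : IsSelfAdjoint X) (f : H) :
    (⟪(X ^ 2) f, f⟫_ℂ).re = ‖X f‖ ^ 2 := by
  have := hX.isSymmetric (X f) f
  rw [pow_two, mul_apply_eq_comp]
  simp only [ContinuousLinearMap.coe_coe] at this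
  rw [this]
  exact inner_self_eq_norm_sq (𝕜 := ℂ) (X f)

theorem operator_ineq (w : ℝ → H →L[ℂ] H) (hc : Continuous w)
    (hsa : ∀ t, IsSelfAdjoint (w t)) (hcomm : ∀ s t, w s * w t = w t * w s)
    (hf : ∀ a t, 0 ≤ a → a ≤ t → w a * w t = ∫ u in (t - a)..(t + a), w u)
    (hb : ∀ t, 0 ≤ t → ‖w t‖ ≤ 4 * sinh (t / 2)) (a : ℝ) (ha : 24 ≤ a) (t : ℝ) (ht : 0 < t)
    (f : H) :
    (∀ k : ℕ, k * a ≤ t → ‖nrm w t f‖ ^ 2 ≤
      4 * ‖((lazy w a) ^ k) f‖ ^ 2 + 16 * exp (-(t / 2)) * ‖f‖ ^ 2) ∧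
    ‖f‖ ^ 2 - (⟪nrm w t f, f⟫_ℂ).re ≤ (4 + t) * (‖f‖ ^ 2 - (⟪nrm w a f, f⟫_ℂ).re) := by
  obtain ⟨h1, h2⟩ := spectrum_noncomm w hc hsa hcomm hf hb a ha t ht
  have hn : ∀ t, IsSelfAdjoint (nrm w t) := fun t => isSelfAdjoint_real_smul _ (hsa t)
  have hl : IsSelfAdjoint (lazy w a) :=
    isSelfAdjoint_real_smul _ ((IsSelfAdjoint.one _).add (hn a))
  have hff : (⟪f, f⟫_ℂ).re = ‖f‖ ^ 2 := inner_self_eq_norm_sq (𝕜 := ℂ) f
  constructor
  · intro k hk
    have hX : IsSelfAdjoint (X1 w a t k) :=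
      ((isSelfAdjoint_real_smul _ (hl.pow _)).add
        (isSelfAdjoint_real_smul _ (IsSelfAdjoint.one _))).sub ((hn t).pow _)
    have := re_inner_nonneg_of_spectrum hX (h1 k hk) f
    simp only [X1, sub_apply, add_apply,
      smul_apply, one_apply_eq_self, inner_sub_left,
      inner_add_left, inner_smul_left, Complex.conj_ofReal, Complex.sub_re, Complex.add_re,
      Complex.re_ofReal_mul] at this
    rw [inner_sq_selfAdjoint (hn t), mul_comm 2 k, pow_mul, inner_sq_selfAdjoint (hl.pow k),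
      hff] at this
    linarith
  · have hX : IsSelfAdjoint (X2 w a t) :=
      (isSelfAdjoint_real_smul _ ((IsSelfAdjoint.one _).sub (hn a))).sub
        ((IsSelfAdjoint.one _).sub (hn t))
    have := re_inner_nonneg_of_spectrum hX h2 f
    simp only [X2, sub_apply,
      smul_apply, one_apply_eq_self, inner_sub_left,
      inner_smul_left, Complex.conj_ofReal, Complex.sub_re,
      Complex.re_ofReal_mul] at this
    rw [hff] at this
    linarith

end Pool.Agent.MP_f2742c_an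

end

-- part MP_f2742c_an.Oper
section

/-! Averaging operators on `L²` of a measure preserving action. -/

open Real MeasureTheory Set
open scoped ENNReal NNReal MatrixGroups InnerProductSpace

namespace Pool.Agent.MP_f2742c_an.Pf

scoped instance factTwoNeTop : Fact ((2 : ℝ≥0∞) ≠ ∞) := ⟨by simp⟩

theorem lint_sq' {Z : Type*} [MeasurableSpace Z] {m : Measure Z} (f : Z → ℂ) :
    ∫⁻ x, ‖f x‖ₑ ^ 2 ∂m = eLpNorm f 2 m ^ 2 := by
  have := eLpNorm_nnreal_pow_eq_lintegral (μ := m) (f := f) (p := 2) two_ne_zero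
  simpa using this.symm

theorem lint_sq {Z : Type*} [MeasurableSpace Z] {m : Measure Z} (f : Lp ℂ 2 m) :
    ∫⁻ x, ‖f x‖ₑ ^ 2 ∂m = ENNReal.ofReal (‖f‖ ^ 2) := by
  rw [lint_sq', ← Lp.enorm_def, ENNReal.ofReal_pow (norm_nonneg _), ofReal_norm]

variable {Z : Type*} [MeasurableSpace Z] [MulAction G Z] [MeasurableSMul₂ G Z] (m : Measure Z)
  [SMulInvariantMeasure G Z m]

/-- The Koopman (anti-)representation. -/
noncomputable def koop (g : G) : Lp ℂ 2 m →ₗᵢ[ℂ] Lp ℂ 2 m :=
  Lp.compMeasurePreservingₗᵢ ℂ (g • ·) (measurePreserving_smul g m)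

variable {m}

theorem koop_coe (g : G) (f : Lp ℂ 2 m) : koop m g f =ᵐ[m] fun x => f (g • x) :=
  Lp.coeFn_compMeasurePreserving f (measurePreserving_smul g m)

theorem koop_koop (g h : G) (f : Lp ℂ 2 m) : koop m g (koop m h f) = koop m (h * g) f := by
  apply Lp.ext
  have h1 := (measurePreserving_smul g m).quasiMeasurePreserving.ae_eq_comp (koop_coe h f)
  filter_upwards [koop_coe g (koop m h f), koop_coe (h * g) f, h1] with x a b c
  rw [a, b, mul_smul]
  exact c

theorem koop_one (f : Lp ℂ 2 m) : koop m 1 f = f := by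
  apply Lp.ext
  filter_upwards [koop_coe 1 f] with x a
  rw [a, one_smul]

theorem inner_koop (g : G) (f h : Lp ℂ 2 m) : ⟪koop m g f, h⟫_ℂ = ⟪f, koop m g⁻¹ h⟫_ℂ := by
  rw [← (koop m g).inner_map_map f, koop_koop, inv_mul_cancel, koop_one]

omit [SMulInvariantMeasure G Z m] in
theorem measurable_act (f : Lp ℂ 2 m) : Measurable (fun p : G × Z => f (p.1 • p.2)) :=
  (Lp.stronglyMeasurable f).measurable.comp measurable_smul

theorem lint_koop_sub (g : G) (f h : Lp ℂ 2 m) :
    ENNReal.ofReal (‖koop m g f - h‖ ^ 2) = ∫⁻ x, ‖f (g • x) - h x‖ₑ ^ 2 ∂m := by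
  rw [← lint_sq]
  apply lintegral_congr_ae
  filter_upwards [Lp.coeFn_sub (koop m g f) h, koop_coe g f] with x a b
  rw [a, Pi.sub_apply, b]

variable [SigmaFinite m] [MeasurableSpace.CountablyGenerated Z]

theorem stronglyMeasurable_koop (f : Lp ℂ 2 m) : StronglyMeasurable (fun g => koop m g f) := by
  borelize ↥(Lp ℂ 2 m)
  apply Measurable.stronglyMeasurable
  have hb : TopologicalSpace.IsTopologicalBasis
      {s : Set (Lp ℂ 2 m) | ∃ h r, s = Metric.ball h r} := by
    apply TopologicalSpace.isTopologicalBasis_of_isOpen_of_nhds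
    · rintro _ ⟨h, r, rfl⟩
      exact Metric.isOpen_ball
    · intro a u ha hu
      obtain ⟨r, hr, h⟩ := Metric.isOpen_iff.mp hu a ha
      exact ⟨_, ⟨a, r, rfl⟩, Metric.mem_ball_self hr, h⟩
  change @Measurable _ _ _ (borel ↥(Lp ℂ 2 m)) _
  rw [hb.borel_eq_generateFrom]
  apply measurable_generateFrom
  rintro _ ⟨h, r, rfl⟩
  have h1 : Measurable (fun g : G => ‖koop m g f - h‖) := by
    have : (fun g : G => ‖koop m g f - h‖) =
        fun g => √((∫⁻ x, ‖f (g • x) - h x‖ₑ ^ 2 ∂m).toReal) := by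
      funext g
      rw [← lint_koop_sub, ENNReal.toReal_ofReal (by positivity), sqrt_sq (norm_nonneg _)]
    rw [this]
    apply Measurable.sqrt
    apply Measurable.ennreal_toReal
    apply Measurable.lintegral_prod_right (f := fun g x => ‖f (g • x) - h x‖ₑ ^ 2)
    exact (((measurable_act f).sub
      ((Lp.stronglyMeasurable h).measurable.comp measurable_snd)).enorm).pow_const 2
  have : (fun g => koop m g f) ⁻¹' Metric.ball h r = {g | ‖koop m g f - h‖ < r} := by
    ext g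
    simp [dist_eq_norm]
  rw [this]
  exact measurableSet_lt h1 measurable_const

theorem integrable_koop {α : Type*} [MeasurableSpace α] {φ : α → G} (hφ : Measurable φ)
    (ω : Measure α) [IsFiniteMeasure ω] (f : Lp ℂ 2 m) :
    Integrable (fun a => koop m (φ a) f) ω :=
  Integrable.of_bound ((stronglyMeasurable_koop f).comp_measurable hφ).aestronglyMeasurable ‖f‖
    (Filter.Eventually.of_forall fun a => ((koop m (φ a)).norm_map f).le)

theorem integrable_koop' (ω : Measure G) [IsFiniteMeasure ω] (f : Lp ℂ 2 m) :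
    Integrable (fun g => koop m g f) ω := integrable_koop measurable_id ω f

variable (m) in
/-- The averaging operator of a finite measure on the group. -/
noncomputable def TT (ω : Measure G) [IsFiniteMeasure ω] : Lp ℂ 2 m →L[ℂ] Lp ℂ 2 m :=
  LinearMap.mkContinuous
    { toFun := fun f => ∫ g, koop m g f ∂ω
      map_add' := fun f h => by
        simp only [map_add]
        exact integral_add (integrable_koop' ω f) (integrable_koop' ω h)
      map_smul' := fun c f => by
        simp only [map_smul, RingHom.id_apply]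
        exact integral_smul c _ }
    (ω.real univ) (fun f => by
      simp only [LinearMap.coe_mk, AddHom.coe_mk]
      rw [mul_comm]
      exact norm_integral_le_of_norm_le_const
        (Filter.Eventually.of_forall fun g => ((koop m g).norm_map f).le))

theorem TT_apply (ω : Measure G) [IsFiniteMeasure ω] (f : Lp ℂ 2 m) :
    TT m ω f = ∫ g, koop m g f ∂ω := rfl

theorem norm_TT_le (ω : Measure G) [IsFiniteMeasure ω] : ‖TT m ω‖ ≤ ω.real univ :=
  LinearMap.mkContinuous_norm_le _ measureReal_nonneg _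

theorem TT_congr {ω ω' : Measure G} [IsFiniteMeasure ω] [IsFiniteMeasure ω'] (h : ω = ω') :
    TT m ω = TT m ω' := by
  subst h
  rfl

theorem TT_mul (ω ω' : Measure G) [IsFiniteMeasure ω] [IsFiniteMeasure ω'] :
    TT m ω * TT m ω' = TT m (ω' ∗ₘ ω) := by
  ext1 f
  rw [mul_apply_eq_comp, TT_apply (ω' ∗ₘ ω), integral_mconv (integrable_koop' _ f),
    integral_integral_swap (integrable_koop (φ := fun p : G × G => p.1 * p.2) measurable_mul _ f),
    TT_apply, TT_apply]
  congr 1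
  funext g
  rw [← (koop m g).integral_comp_comm]
  simp only [koop_koop]

theorem inner_TT (ω : Measure G) [IsFiniteMeasure ω] (f h : Lp ℂ 2 m) :
    ⟪h, TT m ω f⟫_ℂ = ∫ g, ⟪h, koop m g f⟫_ℂ ∂ω :=
  (integral_inner (integrable_koop' ω f) h).symm

theorem TT_selfAdjoint (ω : Measure G) [IsFiniteMeasure ω] [ω.IsInvInvariant] :
    IsSelfAdjoint (TT m ω) := by
  rw [ContinuousLinearMap.isSelfAdjoint_iff_isSymmetric]
  intro f h
  simp only [ContinuousLinearMap.coe_coe]
  rw [← inner_conj_symm, inner_TT, inner_TT, ← integral_conj,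
    ← integral_inv_eq_self (fun g => ⟪f, koop m g h⟫_ℂ)]
  simp only [inner_conj_symm, inner_koop]

theorem TT_ae_eq (ω : Measure G) [IsFiniteMeasure ω] (f : Lp ℂ 2 m) :
    TT m ω f =ᵐ[m] fun x => ∫ g, f (g • x) ∂ω := by
  have hint : ∀ s, MeasurableSet s → m s < ∞ →
      Integrable (Function.uncurry fun (g : G) (x : Z) => f (g • x)) (ω.prod (m.restrict s)) := by
    intro s _ hs
    refine ⟨(measurable_act f).aestronglyMeasurable, ?_⟩
    rw [hasFiniteIntegral_iff_enorm]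
    refine (lintegral_prod _ (measurable_act f).enorm.aemeasurable).trans_lt ?_
    have : ∀ g : G, ∫⁻ x in s, ‖f (g • x)‖ₑ ∂m ≤ m s + ENNReal.ofReal (‖f‖ ^ 2) := by
      intro g
      calc ∫⁻ x in s, ‖f (g • x)‖ₑ ∂m ≤ ∫⁻ x in s, (1 + ‖f (g • x)‖ₑ ^ 2) ∂m := by
            apply lintegral_mono
            intro x
            dsimp only
            rcases le_total ‖f (g • x)‖ₑ 1 with h | h
            · exact h.trans le_self_add
            · exact (le_self_pow₀ h two_ne_zero).trans le_add_self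
        _ = m s + ∫⁻ x in s, ‖f (g • x)‖ₑ ^ 2 ∂m := by
            rw [lintegral_add_left measurable_const, setLIntegral_one]
        _ ≤ m s + ∫⁻ x, ‖f (g • x)‖ₑ ^ 2 ∂m := by
            gcongr
            exact Measure.restrict_le_self
        _ = m s + ENNReal.ofReal (‖f‖ ^ 2) := by
            rw [← lint_sq, (measurePreserving_smul g m).lintegral_comp
              (f := fun x => ‖f x‖ₑ ^ 2) ((Lp.stronglyMeasurable f).measurable.enorm.pow_const 2)]
    refine (lintegral_mono this).trans_lt ?_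
    rw [lintegral_const]
    exact ENNReal.mul_lt_top (ENNReal.add_lt_top.mpr ⟨hs, ENNReal.ofReal_lt_top⟩)
      (measure_lt_top _ _)
  apply ae_eq_of_forall_setIntegral_eq_of_sigmaFinite
  · intro s _ hs
    exact integrableOn_Lp_of_measure_ne_top _ (by norm_num) hs.ne
  · intro s hsm hs
    exact (hint s hsm hs).integral_prod_right
  · intro s hsm hs
    rw [← L2.inner_indicatorConstLp_one hsm hs.ne, inner_TT,
      ← integral_integral_swap (hint s hsm hs)]
    congr 1
    funext g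
    rw [L2.inner_indicatorConstLp_one]
    exact integral_congr_ae (ae_restrict_of_ae (koop_coe g f))

theorem lint_TT_le (ω : Measure G) [IsFiniteMeasure ω] (f : Lp ℂ 2 m) :
    ∫⁻ x, ‖TT m ω f x‖ₑ ∂m ≤ ω univ * ∫⁻ x, ‖f x‖ₑ ∂m := by
  calc ∫⁻ x, ‖TT m ω f x‖ₑ ∂m ≤ ∫⁻ x, ∫⁻ g, ‖f (g • x)‖ₑ ∂ω ∂m := by
        apply lintegral_mono_ae
        filter_upwards [TT_ae_eq ω f] with x hx
        rw [hx]
        exact enorm_integral_le_lintegral_enorm _
    _ = ∫⁻ g, ∫⁻ x, ‖f (g • x)‖ₑ ∂m ∂ω :=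
        (lintegral_lintegral_swap (measurable_act f).enorm.aemeasurable).symm
    _ = ω univ * ∫⁻ x, ‖f x‖ₑ ∂m := by
        have : ∀ g : G, ∫⁻ x, ‖f (g • x)‖ₑ ∂m = ∫⁻ x, ‖f x‖ₑ ∂m := fun g =>
          (measurePreserving_smul g m).lintegral_comp (Lp.stronglyMeasurable f).measurable.enorm
        simp only [this]
        rw [lintegral_const, mul_comm]

theorem dirichlet (ω : Measure G) [IsFiniteMeasure ω] (f : Lp ℂ 2 m) :
    ENNReal.ofReal (2 * (ω.real univ * ‖f‖ ^ 2 - (⟪TT m ω f, f⟫_ℂ).re)) =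
      ∫⁻ g, ∫⁻ x, ‖f (g • x) - f x‖ₑ ^ 2 ∂m ∂ω := by
  simp only [← lint_koop_sub]
  have hi := (integrable_koop' ω f).const_inner (𝕜 := ℂ) f
  have h1 : ∀ g, ‖koop m g f - f‖ ^ 2 = 2 * (‖f‖ ^ 2 - (⟪f, koop m g f⟫_ℂ).re) := by
    intro g
    rw [norm_sub_sq (𝕜 := ℂ), (koop m g).norm_map, inner_re_symm]
    simp only [RCLike.re_to_complex]
    ring
  have h2 : Integrable (fun g => 2 * (‖f‖ ^ 2 - (⟪f, koop m g f⟫_ℂ).re)) ω :=
    ((integrable_const _).sub hi.re).const_mul 2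
  simp only [h1]
  have hi' : Integrable (fun g => (⟪f, koop m g f⟫_ℂ).re) ω := hi.re
  rw [← ofReal_integral_eq_lintegral_ofReal h2 (Filter.Eventually.of_forall fun g =>
    le_of_le_of_eq (sq_nonneg _) (h1 g)), integral_const_mul, integral_sub (integrable_const _)
    hi', integral_const, smul_eq_mul]
  congr 3
  have := integral_re hi
  simp only [RCLike.re_to_complex] at this
  rw [this, ← inner_TT]
  exact inner_re_symm (𝕜 := ℂ) _ _

theorem TT_withDensity (κ : G → ℝ≥0∞) (hκ : Measurable κ) (hfin : ∫⁻ g, κ g ∂lam ≠ ∞)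
    [IsFiniteMeasure (lam.withDensity κ)] (f : Lp ℂ 2 m) :
    TT m (lam.withDensity κ) f = ∫ g, (κ g).toReal • koop m g f ∂lam :=
  integral_withDensity_eq_integral_toReal_smul hκ (ae_lt_top hκ hfin) _

theorem TT_mix (η : Measure ℝ) [SFinite η] (κ : ℝ → G → ℝ≥0∞)
    (hκ : Measurable (Function.uncurry κ)) (hfin : ∫⁻ g, ∫⁻ u, κ u g ∂η ∂lam ≠ ∞)
    [IsFiniteMeasure (lam.withDensity fun g => ∫⁻ u, κ u g ∂η)] (f : Lp ℂ 2 m) :
    TT m (lam.withDensity fun g => ∫⁻ u, κ u g ∂η) f =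
      ∫ u, ∫ g, (κ u g).toReal • koop m g f ∂lam ∂η := by
  have hm : Measurable fun g => ∫⁻ u, κ u g ∂η := hκ.lintegral_prod_left
  have hfin' : ∫⁻ p, Function.uncurry κ p ∂(η.prod lam) ≠ ∞ := by
    rwa [lintegral_prod_symm _ hκ.aemeasurable]
  have : IsFiniteMeasure ((η.prod lam).withDensity (Function.uncurry κ)) :=
    isFiniteMeasure_withDensity hfin'
  have hi : Integrable (Function.uncurry fun u g => (κ u g).toReal • koop m g f) (η.prod lam) :=
    (integrable_withDensity_iff_integrable_smul' hκ (ae_lt_top hκ hfin')).mp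
      (integrable_koop measurable_snd _ f)
  rw [TT_withDensity _ hm hfin, integral_integral_swap hi]
  apply integral_congr_ae
  filter_upwards [ae_lt_top hm hfin] with g hg
  have hg' : Measurable fun u => κ u g := hκ.comp measurable_prodMk_right
  rw [integral_smul_const, integral_toReal hg'.aemeasurable (ae_lt_top hg' hg.ne)]

end Pool.Agent.MP_f2742c_an.Pf

end

-- part MP_f2742c_an.Wave
section

/-! The wave operators and ball averages. -/

open Real MeasureTheory Set Filter Topology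
open scoped ENNReal NNReal MatrixGroups InnerProductSpace

namespace Pool.Agent.MP_f2742c_an.Pf

theorem lint_wG_ne_top (t : ℝ) : ∫⁻ g, wG t g ∂lam ≠ ∞ := by
  rw [lint_wG']
  exact ENNReal.ofReal_ne_top

/-- the wave measure -/
noncomputable def om (t : ℝ) : Measure G := lam.withDensity (wG t)

instance (t : ℝ) : IsFiniteMeasure (om t) := isFiniteMeasure_withDensity (lint_wG_ne_top t)

theorem isInvInvariant_withDensity {κ : G → ℝ≥0∞} (h : ∀ g, κ g⁻¹ = κ g) :
    (lam.withDensity κ).IsInvInvariant := by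
  constructor
  ext s hs
  rw [Measure.inv_apply, withDensity_apply _ hs, withDensity_apply _ hs.inv,
    ← lintegral_indicator hs, ← lintegral_indicator hs.inv, ← lintegral_inv_eq_self]
  apply lintegral_congr
  intro g
  by_cases hg : g ∈ s
  · rw [indicator_of_mem hg, indicator_of_mem (by simpa using hg), h]
  · rw [indicator_of_notMem hg, indicator_of_notMem (by simpa using hg)]

instance (t : ℝ) : (om t).IsInvInvariant := isInvInvariant_withDensity (wG_inv t)

theorem om_univ {t : ℝ} (ht : 0 ≤ t) :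
    om t univ = ENNReal.ofReal (√2 * π * (4 * sinh (t / 2))) := by
  rw [om, withDensity_apply _ MeasurableSet.univ, Measure.restrict_univ, lint_wG ht]

theorem om_real_univ {t : ℝ} (ht : 0 ≤ t) :
    (om t).real univ = √2 * π * (4 * sinh (t / 2)) := by
  have := sinh_nonneg_iff.mpr (by linarith : 0 ≤ t / 2)
  rw [Measure.real, om_univ ht, ENNReal.toReal_ofReal (by positivity)]

theorem wk_anti {s t x : ℝ} (hx : x < cosh s) (h : cosh s ≤ cosh t) : wk t x ≤ wk s x := by
  apply ENNReal.ofReal_le_ofReal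
  apply inv_anti₀ (sqrt_pos.mpr (by linarith))
  exact sqrt_le_sqrt (by linarith)

theorem lint_wG_sub {s t : ℝ} (h : cosh s ≤ cosh t) :
    ∫ g, |(wG t g).toReal - (wG s g).toReal| ∂lam ≤ 8 * π * √(cosh t - cosh s) := by
  have it := integrable_toReal_of_lintegral_ne_top (μ := lam) (f := wG t) (by fun_prop)
    (lint_wG_ne_top t)
  have is := integrable_toReal_of_lintegral_ne_top (μ := lam) (f := wG s) (by fun_prop)
    (lint_wG_ne_top s)
  set κ : ℝ → ℝ≥0∞ := (Ici (cosh s)).indicator (wk t) with hκ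
  have hκm : Measurable κ := Measurable.indicator (by fun_prop) measurableSet_Ici
  have h1 : ∫⁻ g, κ (cosh (len g)) ∂lam =
      ENNReal.ofReal (2 * π * (2 * √(cosh t - cosh s))) := by
    rw [lint_len κ hκm, hκ, lintegral_indicator measurableSet_Ici,
      Measure.restrict_restrict measurableSet_Ici,
      setLIntegral_congr (t := Ioi (cosh s)), lint_wk, ← ENNReal.ofReal_mul (by positivity)]
    have h2 : Ioi (cosh s) = Ioi (cosh s) ∩ Ioi 1 :=
      (inter_eq_left.mpr (Ioi_subset_Ioi (one_le_cosh s))).symm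
    rw [h2]
    exact (Ioi_ae_eq_Ici.symm).inter (ae_eq_refl _)
  have ik := integrable_toReal_of_lintegral_ne_top (μ := lam) (f := fun g => κ (cosh (len g)))
    (by fun_prop) (by rw [h1]; exact ENNReal.ofReal_ne_top)
  have h2 : ∫ g, |(wG t g).toReal - (wG s g).toReal| ∂lam ≤
      ∫ g, ((wG s g).toReal - (wG t g).toReal + 2 * (κ (cosh (len g))).toReal) ∂lam := by
    apply integral_mono (it.sub is).abs ((is.sub it).add (ik.const_mul 2))
    intro g
    simp only [Pi.sub_apply, Pi.add_apply]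
    by_cases hg : cosh (len g) < cosh s
    · have : (wG t g).toReal ≤ (wG s g).toReal :=
        ENNReal.toReal_mono (wk_ne_top _ _) (wk_anti hg h)
      rw [hκ, indicator_of_notMem (by simpa using hg), abs_of_nonpos (sub_nonpos.mpr this)]
      simp
    · rw [hκ, indicator_of_mem (by simpa using hg), wG, wG, wk_eq_zero (not_lt.mp hg)]
      simp only [ENNReal.toReal_zero, sub_zero, zero_sub, abs_of_nonneg ENNReal.toReal_nonneg]
      linarith
  have ist : Integrable (fun g => (wG s g).toReal - (wG t g).toReal) lam := is.sub it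
  rw [integral_add ist (ik.const_mul 2), integral_sub is it, integral_const_mul,
    integral_toReal (by fun_prop) (ae_of_all _ fun g => (wG_ne_top _ _).lt_top),
    integral_toReal (by fun_prop) (ae_of_all _ fun g => (wG_ne_top _ _).lt_top),
    integral_toReal (by fun_prop) (ae_lt_top (by fun_prop)
      (by rw [h1]; exact ENNReal.ofReal_ne_top)), h1, lint_wG', lint_wG',
    ENNReal.toReal_ofReal (by positivity), ENNReal.toReal_ofReal (by positivity),
    ENNReal.toReal_ofReal (by positivity)] at h2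
  have h3 : √(cosh s - 1) ≤ √(cosh t - 1) := sqrt_le_sqrt (by linarith)
  nlinarith [pi_pos]

variable {Z : Type*} [MeasurableSpace Z] [MulAction G Z] [MeasurableSMul₂ G Z] (m : Measure Z)
  [SMulInvariantMeasure G Z m] [SigmaFinite m] [MeasurableSpace.CountablyGenerated Z]

theorem TT_om_apply (t : ℝ) (f : Lp ℂ 2 m) :
    TT m (om t) f = ∫ g, (wG t g).toReal • koop m g f ∂lam :=
  integral_withDensity_eq_integral_toReal_smul (by fun_prop)
    (ae_of_all _ fun g => (wG_ne_top _ _).lt_top) _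

theorem integrable_om (t : ℝ) (f : Lp ℂ 2 m) :
    Integrable (fun g => (wG t g).toReal • koop m g f) lam :=
  (integrable_withDensity_iff_integrable_smul' (by fun_prop)
    (ae_of_all _ fun g => (wG_ne_top _ _).lt_top)).mp (integrable_koop' (om t) f)

theorem norm_TT_om_sub {s t : ℝ} (h : cosh s ≤ cosh t) :
    ‖TT m (om t) - TT m (om s)‖ ≤ 8 * π * √(cosh t - cosh s) := by
  apply ContinuousLinearMap.opNorm_le_bound _ (by positivity)
  intro f
  rw [sub_apply, TT_om_apply, TT_om_apply, ← integral_sub (integrable_om m t f)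
    (integrable_om m s f)]
  refine (norm_integral_le_integral_norm _).trans ?_
  simp only [← sub_smul, norm_smul, LinearIsometry.norm_map, Real.norm_eq_abs]
  rw [integral_mul_const]
  exact mul_le_mul_of_nonneg_right (lint_wG_sub h) (norm_nonneg _)

theorem continuous_TT_om : Continuous (fun t => TT m (om t)) := by
  rw [continuous_iff_continuousAt]
  intro s
  rw [ContinuousAt, tendsto_iff_norm_sub_tendsto_zero]
  have hc : Continuous (fun t => 8 * π * √|cosh t - cosh s|) := by fun_prop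
  have := hc.tendsto s
  simp only [sub_self, abs_zero, sqrt_zero, mul_zero] at this
  refine squeeze_zero (fun t => norm_nonneg _) (fun t => ?_) this
  rcases le_total (cosh s) (cosh t) with h | h
  · rw [abs_of_nonneg (sub_nonneg.mpr h)]
    exact norm_TT_om_sub m h
  · rw [abs_of_nonpos (sub_nonpos.mpr h), norm_sub_rev, neg_sub]
    exact norm_TT_om_sub m h

theorem TT_om_mul {a t : ℝ} (ha : 0 ≤ a) (hat : a ≤ t) :
    TT m (om t) * TT m (om a) = ((√2 * π : ℝ) : ℂ) • ∫ u in (t - a)..(t + a), TT m (om u) ∧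
      IsSelfAdjoint (TT m (om t) * TT m (om a)) := by
  have hfin : ∫⁻ g, mx a t (cosh (len g)) ∂lam ≠ ∞ := by
    rw [lint_len _ (measurable_mx a t)]
    exact ENNReal.mul_ne_top ENNReal.ofReal_ne_top (lint_mx_ne_top a t)
  have : IsFiniteMeasure (lam.withDensity fun g => mx a t (cosh (len g))) :=
    isFiniteMeasure_withDensity hfin
  have : (lam.withDensity fun g => mx a t (cosh (len g))).IsInvInvariant :=
    isInvInvariant_withDensity (fun g => by rw [len_inv])
  have h1 : TT m (om t) * TT m (om a) =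
      TT m (lam.withDensity fun g => mx a t (cosh (len g))) := by
    rw [TT_mul]
    apply TT_congr
    rw [om, om, mconv_withDensity_eq_mlconvolution (by fun_prop) (by fun_prop)]
    exact withDensity_congr_ae (conv_wG ha hat)
  rw [h1]
  refine ⟨?_, TT_selfAdjoint _⟩
  ext1 f
  have : IsFiniteMeasure (lam.withDensity fun g => ∫⁻ u in Ioo (t - a) (t + a),
      ENNReal.ofReal (√2 * π) * wG u g) := isFiniteMeasure_withDensity hfin
  have h2 := TT_mix (m := m) (volume.restrict (Ioo (t - a) (t + a)))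
    (fun u g => ENNReal.ofReal (√2 * π) * wG u g) (by fun_prop) hfin f
  refine h2.trans ?_
  rw [smul_apply, ContinuousLinearMap.intervalIntegral_apply
    ((continuous_TT_om m).intervalIntegrable _ _), intervalIntegral.integral_of_le (by linarith),
    integral_Ioc_eq_integral_Ioo, ← integral_smul]
  congr 1
  funext u
  rw [TT_om_apply, ← integral_smul]
  congr 1
  funext g
  rw [ENNReal.toReal_mul, ENNReal.toReal_ofReal (by positivity), mul_smul, Complex.coe_smul]
  rfl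

/-- normalised wave operators -/
noncomputable def WW (t : ℝ) : Lp ℂ 2 m →L[ℂ] Lp ℂ 2 m := (((√2 * π)⁻¹ : ℝ) : ℂ) • TT m (om t)

theorem WW_mul {a t : ℝ} (ha : 0 ≤ a) (hat : a ≤ t) :
    WW m t * WW m a = ∫ u in (t - a)..(t + a), WW m u ∧ WW m a * WW m t = WW m t * WW m a := by
  obtain ⟨h1, h2⟩ := TT_om_mul m ha hat
  have h3 : TT m (om a) * TT m (om t) = TT m (om t) * TT m (om a) := by
    rw [← h2.star_eq, star_mul, (TT_selfAdjoint _).star_eq, (TT_selfAdjoint _).star_eq]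
  constructor
  · simp only [WW, smul_mul_smul_comm, h1, intervalIntegral.integral_smul, smul_smul]
    congr 1
    rw [← Complex.ofReal_mul, ← Complex.ofReal_mul]
    congr 1
    have : √2 * π ≠ 0 := by positivity
    field_simp
  · simp only [WW, smul_mul_smul_comm, h3]

theorem WW_neg (t : ℝ) : WW m (-t) = WW m t := by
  rw [WW, WW]
  congr 1
  apply TT_congr
  unfold om wG wk
  simp

theorem WW_abs (t : ℝ) : WW m |t| = WW m t := by
  rcases abs_choice t with h | h <;> rw [h]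
  exact WW_neg m t

theorem wave_ineq (a : ℝ) (ha : 24 ≤ a) (t : ℝ) (ht : 0 < t) (f : Lp ℂ 2 m) :
    (∀ k : ℕ, k * a ≤ t → ‖nrm (WW m) t f‖ ^ 2 ≤
      4 * ‖((lazy (WW m) a) ^ k) f‖ ^ 2 + 16 * exp (-(t / 2)) * ‖f‖ ^ 2) ∧
    ‖f‖ ^ 2 - (⟪nrm (WW m) t f, f⟫_ℂ).re ≤
      (4 + t) * (‖f‖ ^ 2 - (⟪nrm (WW m) a f, f⟫_ℂ).re) := by
  apply operator_ineq (WW m) ((continuous_TT_om m).const_smul (((√2 * π)⁻¹ : ℝ) : ℂ))
    (fun t => isSelfAdjoint_real_smul _ (TT_selfAdjoint _)) _ _ _ a ha t ht f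
  · intro s t
    rw [← WW_abs m s, ← WW_abs m t]
    rcases le_total |s| |t| with h | h
    · exact (WW_mul m (abs_nonneg s) h).2
    · exact (WW_mul m (abs_nonneg t) h).2.symm
  · intro a t ha hat
    rw [(WW_mul m ha hat).2, (WW_mul m ha hat).1]
    rfl
  · intro t ht
    rw [WW, norm_smul, Complex.norm_real, Real.norm_eq_abs, abs_of_pos (by positivity),
      inv_mul_le_iff₀ (by positivity), ← om_real_univ ht]
    exact norm_TT_le _

theorem TT_om_eq {t : ℝ} (ht : 0 < t) :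
    TT m (om t) = (((om t).real univ : ℝ) : ℂ) • nrm (WW m) t := by
  have := sinh_pos_iff.mpr (by linarith : 0 < t / 2)
  rw [nrm, WW, smul_smul, smul_smul, om_real_univ ht.le, ← Complex.ofReal_mul,
    ← Complex.ofReal_mul]
  rw [show √2 * π * (4 * sinh (t / 2)) * (4 * sinh (t / 2))⁻¹ * (√2 * π)⁻¹ = 1 by field_simp]
  simp

/-- Haar measure restricted to a ball -/
noncomputable def bm (r : ℝ) : Measure G := lam.restrict {g | len g ≤ r}

instance (r : ℝ) : IsFiniteMeasure (bm r) :=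
  isFiniteMeasure_restrict.mpr (isCompact_len r).measure_lt_top.ne

theorem lint_mix_G {r : ℝ} (hr : 0 ≤ r) :
    (fun g => ∫⁻ u in Ioo 0 r, (ENNReal.ofReal (sinh u) * wk r (cosh u)) * wG u g) =ᵐ[lam]
      {g | len g ≤ r}.indicator (fun _ => ENNReal.ofReal π) := by
  have h1 := lint_len (({cosh r} : Set ℝ).indicator 1)
    (measurable_one.indicator (measurableSet_singleton _))
  rw [lintegral_indicator_one (measurableSet_singleton _), measure_singleton, mul_zero,
    lintegral_eq_zero_iff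
      (f := fun g : G => ({cosh r} : Set ℝ).indicator (1 : ℝ → ℝ≥0∞) (cosh (len g)))
      ((measurable_one.indicator (measurableSet_singleton _)).comp (by fun_prop))] at h1
  filter_upwards [h1] with g hg
  have h2 : cosh (len g) ≠ cosh r := by
    intro h
    simp [h] at hg
  unfold wG
  rw [lint_mix r _ hr (one_le_cosh _)]
  have h3 : cosh (len g) ≤ cosh r ↔ len g ≤ r := by
    rw [cosh_le_cosh, abs_of_nonneg hr, abs_of_nonneg (len_nonneg g)]
  by_cases h : len g ≤ r
  · rw [if_pos (lt_of_le_of_ne (h3.mpr h) h2), indicator_of_mem (show g ∈ {g | len g ≤ r} from h)]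
  · rw [if_neg (fun h' => h (h3.mp h'.le)),
      indicator_of_notMem (show g ∉ {g | len g ≤ r} from h)]

theorem lint_mix_mass {r : ℝ} (hr : 0 ≤ r) :
    ∫⁻ u in Ioo 0 r, (ENNReal.ofReal (sinh u) * wk r (cosh u)) * om u univ =
      ENNReal.ofReal π * lam {g | len g ≤ r} := by
  rw [← lintegral_indicator_const (measurableSet_len r), ← lintegral_congr_ae (lint_mix_G hr),
    lintegral_lintegral_swap (by fun_prop)]
  apply lintegral_congr
  intro u
  rw [lintegral_const_mul _ (by fun_prop), om, withDensity_apply _ MeasurableSet.univ,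
    Measure.restrict_univ]

theorem ball_bound {r δ : ℝ} (hr : 0 < r) (f : Lp ℂ 2 m)
    (h : ∀ u, r / 2 ≤ u → u ≤ r → ‖nrm (WW m) u f‖ ≤ δ) :
    ‖TT m (bm r) f‖ₑ ≤
      lam {g | len g ≤ r / 2} * ‖f‖ₑ + lam {g | len g ≤ r} * ENNReal.ofReal δ := by
  have hfin : ∫⁻ g, ∫⁻ u in Ioo 0 r, (ENNReal.ofReal (sinh u) * wk r (cosh u)) * wG u g
      ∂volume ∂lam ≠ ∞ := by
    rw [lintegral_congr_ae (lint_mix_G hr.le), lintegral_indicator_const (measurableSet_len r)]
    exact ENNReal.mul_ne_top ENNReal.ofReal_ne_top (isCompact_len r).measure_lt_top.ne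
  have := isFiniteMeasure_withDensity hfin
  have h1 := TT_mix (m := m) (volume.restrict (Ioo 0 r))
    (fun u g => (ENNReal.ofReal (sinh u) * wk r (cosh u)) * wG u g) (by fun_prop) hfin f
  have h2 : TT m (lam.withDensity fun g => ∫⁻ u in Ioo 0 r,
      (ENNReal.ofReal (sinh u) * wk r (cosh u)) * wG u g) f = π • TT m (bm r) f := by
    rw [TT_apply, TT_apply, withDensity_congr_ae (lint_mix_G hr.le),
      withDensity_indicator (measurableSet_len r), withDensity_const, integral_smul_measure,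
      ENNReal.toReal_ofReal pi_pos.le, bm]
  have h3 : ∀ u, ∫ g, ((ENNReal.ofReal (sinh u) * wk r (cosh u)) * wG u g).toReal • koop m g f
      ∂lam = (ENNReal.ofReal (sinh u) * wk r (cosh u)).toReal • TT m (om u) f := by
    intro u
    rw [TT_om_apply, ← integral_smul]
    simp only [ENNReal.toReal_mul (a := ENNReal.ofReal (sinh u) * wk r (cosh u)), mul_smul]
  rw [h2] at h1
  simp only [h3] at h1
  have h4 := enorm_integral_le_lintegral_enorm (μ := volume.restrict (Ioo 0 r))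
    (fun u => (ENNReal.ofReal (sinh u) * wk r (cosh u)).toReal • TT m (om u) f)
  rw [← h1, enorm_smul, Real.enorm_eq_ofReal pi_pos.le] at h4
  rw [← ENNReal.mul_le_mul_iff_right (a := ENNReal.ofReal π) (by simp [pi_pos])
    ENNReal.ofReal_ne_top, mul_add, ← mul_assoc, ← mul_assoc, ← lint_mix_mass hr.le,
    ← lint_mix_mass (by linarith : 0 ≤ r / 2)]
  refine h4.trans ?_
  have hne : ∀ u, ENNReal.ofReal (sinh u) * wk r (cosh u) ≠ ∞ := fun u =>
    ENNReal.mul_ne_top ENNReal.ofReal_ne_top (wk_ne_top _ _)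
  simp only [enorm_smul, Real.enorm_eq_ofReal ENNReal.toReal_nonneg, ENNReal.ofReal_toReal (hne _)]
  have hsub : Ioo 0 r ⊆ Ioo 0 (r / 2) ∪ Ico (r / 2) r := by
    intro u hu
    rcases lt_or_ge u (r / 2) with h | h
    · exact Or.inl ⟨hu.1, h⟩
    · exact Or.inr ⟨h, hu.2⟩
  refine (lintegral_mono_set hsub).trans ((lintegral_union_le _ _ _).trans (add_le_add ?_ ?_))
  · rw [← lintegral_mul_const' _ _ enorm_ne_top]
    apply setLIntegral_mono' measurableSet_Ioo
    intro u hu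
    have hc1 : cosh u < cosh (r / 2) := by
      rw [cosh_lt_cosh, abs_of_pos hu.1, abs_of_pos (by linarith)]
      exact hu.2
    have hc2 : cosh (r / 2) ≤ cosh r := by
      rw [cosh_le_cosh, abs_of_pos hr, abs_of_pos (by linarith)]
      linarith
    rw [mul_assoc _ (om u univ)]
    gcongr
    · exact wk_anti hc1 hc2
    · rw [← ofReal_norm, ← ofReal_norm, ← ofReal_measureReal, ← ENNReal.ofReal_mul
        measureReal_nonneg]
      exact ENNReal.ofReal_le_ofReal ((TT m (om u)).le_of_opNorm_le (norm_TT_le _) f)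
  · rw [← lintegral_mul_const' _ _ ENNReal.ofReal_ne_top]
    refine le_trans ?_ (lintegral_mono_set (s := Ico (r / 2) r)
      (fun u hu => ⟨by linarith [hu.1], hu.2⟩))
    apply setLIntegral_mono' measurableSet_Ico
    intro u hu
    rw [mul_assoc _ (om u univ)]
    gcongr
    rw [← ofReal_norm, ← ofReal_measureReal, ← ENNReal.ofReal_mul measureReal_nonneg,
      TT_om_eq m (by linarith [hu.1]), smul_apply, norm_smul, Complex.norm_real,
      Real.norm_of_nonneg measureReal_nonneg]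
    exact ENNReal.ofReal_le_ofReal
      (mul_le_mul_of_nonneg_left (h u hu.1 hu.2.le) measureReal_nonneg)

end Pool.Agent.MP_f2742c_an.Pf

end

-- part MP_f2742c_an.Dense
section

/-! Almost everywhere convergence of ball averages on a dense class. -/

open Real MeasureTheory Set Filter Topology
open scoped ENNReal NNReal MatrixGroups InnerProductSpace

namespace Pool.Agent.MP_f2742c_an.Pf

/-- volume of the ball -/
noncomputable def VV (r : ℝ) : ℝ := 2 * π * (cosh r - 1)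

theorem VV_pos {r : ℝ} (hr : 0 < r) : 0 < VV r := by
  have := one_lt_cosh.mpr hr.ne'
  have := pi_pos
  unfold VV
  nlinarith

theorem VV_nonneg (r : ℝ) : 0 ≤ VV r := by
  have := one_le_cosh r
  have := pi_pos
  unfold VV
  nlinarith

theorem lam_ball' {r : ℝ} (hr : 0 ≤ r) : lam {g | len g ≤ r} = ENNReal.ofReal (VV r) := lam_ball hr

theorem lam_real_ball {r : ℝ} (hr : 0 ≤ r) : lam.real {g | len g ≤ r} = VV r := by
  rw [Measure.real, lam_ball' hr, ENNReal.toReal_ofReal (VV_nonneg r)]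

theorem VV_half {r : ℝ} : VV (r / 2) ≤ exp (-(r / 2)) * VV r := by
  have h1 : VV r = VV (r / 2) * (2 * (cosh (r / 2) + 1)) := by
    unfold VV
    conv_lhs => rw [show r = 2 * (r / 2) by ring, cosh_two_mul, sinh_sq]
    ring
  have h2 : 1 ≤ exp (-(r / 2)) * (2 * (cosh (r / 2) + 1)) := by
    rw [cosh_eq]
    have e : exp (-(r / 2)) * exp (r / 2) = 1 := by rw [← exp_add]; simp
    nlinarith [exp_pos (-(r / 2))]
  rw [h1]
  nlinarith [VV_nonneg (r / 2)]

theorem cosh_add_le {r d : ℝ} (hd : 0 ≤ d) : cosh (r + d) ≤ exp d * cosh r := by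
  rw [cosh_add, ← cosh_add_sinh]
  have := sinh_lt_cosh r
  have := sinh_nonneg_iff.mpr hd
  nlinarith

theorem two_le_cosh {r : ℝ} (hr : 3 ≤ r) : 2 ≤ cosh r := by
  rw [cosh_eq]
  have := add_one_le_exp r
  have := exp_pos (-r)
  linarith

theorem VV_osc {r d : ℝ} (hr : 3 ≤ r) (hd : 0 ≤ d) (hd1 : d ≤ 1) :
    VV r ≤ VV (r + d) ∧ VV (r + d) - VV r ≤ 4 * d * VV (r + d) := by
  have h1 : cosh r ≤ cosh (r + d) := by
    rw [cosh_le_cosh, abs_of_nonneg (by linarith), abs_of_nonneg (by linarith)]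
    linarith
  have h2 := cosh_add_le (r := r) hd
  have h3 := two_le_cosh hr
  have h4 := (le_abs_self _).trans (abs_exp_sub_one_le (x := d) (by rwa [abs_of_nonneg hd]))
  rw [abs_of_nonneg hd] at h4
  have h5 : cosh (r + d) - cosh r ≤ 4 * d * (cosh (r + d) - 1) := by nlinarith
  unfold VV
  constructor <;> nlinarith [pi_pos]

section Hilbert

variable {H : Type*} [NormedAddCommGroup H] [InnerProductSpace ℂ H]

theorem lazy_apply (w : ℝ → H →L[ℂ] H) (a : ℝ) (g : H) :
    lazy w a g = (((2 : ℝ)⁻¹ : ℝ) : ℂ) • (g + nrm w a g) := rfl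

theorem norm_lazy_sq (w : ℝ → H →L[ℂ] H) (a : ℝ) (g : H) :
    ‖lazy w a g‖ ^ 2 = (‖g‖ ^ 2 + 2 * (⟪nrm w a g, g⟫_ℂ).re + ‖nrm w a g‖ ^ 2) / 4 := by
  rw [lazy_apply, norm_smul, mul_pow, norm_add_sq (𝕜 := ℂ), inner_re_symm]
  simp
  ring

theorem norm_sub_lazy_sq (w : ℝ → H →L[ℂ] H) (a : ℝ) (g : H) :
    ‖g - lazy w a g‖ ^ 2 = (‖g‖ ^ 2 - 2 * (⟪nrm w a g, g⟫_ℂ).re + ‖nrm w a g‖ ^ 2) / 4 := by
  have : g - lazy w a g = (((2 : ℝ)⁻¹ : ℝ) : ℂ) • (g - nrm w a g) := by
    rw [lazy_apply]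
    push_cast
    module
  rw [this, norm_smul, mul_pow, norm_sub_sq (𝕜 := ℂ), inner_re_symm]
  simp
  ring

theorem summable_lazy (w : ℝ → H →L[ℂ] H) (a : ℝ) (hP : ∀ g, ‖nrm w a g‖ ≤ ‖g‖) (f : H) :
    Summable (fun k : ℕ => ‖((lazy w a) ^ k) (f - lazy w a f)‖ ^ 2) := by
  apply summable_of_sum_range_le (c := ‖f‖ ^ 2) (fun k => sq_nonneg _)
  intro n
  have : ∑ k ∈ Finset.range n, ‖((lazy w a) ^ k) (f - lazy w a f)‖ ^ 2 ≤
      ‖f‖ ^ 2 - ‖((lazy w a) ^ n) f‖ ^ 2 := by
    induction n with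
    | zero => simp
    | succ n ih =>
      rw [Finset.sum_range_succ]
      have e1 : ((lazy w a) ^ n) (f - lazy w a f) =
          ((lazy w a) ^ n) f - lazy w a (((lazy w a) ^ n) f) := by
        rw [map_sub, ← mul_apply_eq_comp, ← pow_succ, pow_succ', mul_apply_eq_comp]
      have e2 : ((lazy w a) ^ (n + 1)) f = lazy w a (((lazy w a) ^ n) f) := by
        rw [pow_succ', mul_apply_eq_comp]
      rw [e1, e2, norm_sub_lazy_sq, norm_lazy_sq]
      have := pow_le_pow_left₀ (norm_nonneg _) (hP (((lazy w a) ^ n) f)) 2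
      linarith
  nlinarith [sq_nonneg ‖((lazy w a) ^ n) f‖]

end Hilbert

variable {Z : Type*} [MeasurableSpace Z] [MulAction G Z] [MeasurableSMul₂ G Z]

/-- ball average -/
noncomputable def avg (r : ℝ) (h : Z → ℂ) (x : Z) : ℂ :=
  (VV r)⁻¹ • ∫ g in {g | len g ≤ r}, h (g • x) ∂lam

theorem measurable_act' {h : Z → ℂ} (hm : Measurable h) :
    Measurable (Function.uncurry fun (x : Z) (g : G) => h (g • x)) :=
  hm.comp (measurable_snd.smul measurable_fst)

theorem measurable_integral_act {h : Z → ℂ} (hm : Measurable h) (ω : Measure G) [SFinite ω] :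
    Measurable (fun x => ∫ g, h (g • x) ∂ω) :=
  ((measurable_act' hm).stronglyMeasurable.integral_prod_right).measurable

theorem measurable_avg {h : Z → ℂ} (hm : Measurable h) (r : ℝ) : Measurable (avg r h) :=
  (measurable_integral_act hm (lam.restrict {g | len g ≤ r})).const_smul (VV r)⁻¹

theorem avg_osc {h : Z → ℂ} (hm : Measurable h) {M : ℝ} (hM : ∀ x, ‖h x‖ ≤ M) (x : Z) {r d : ℝ}
    (hr : 3 ≤ r) (hd : 0 ≤ d) (hd1 : d ≤ 1) :
    ‖avg r h x‖ ≤ ‖avg (r + d) h x‖ + 8 * M * d := by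
  obtain ⟨v1, v2⟩ := VV_osc hr hd hd1
  have p1 := VV_pos (by linarith : 0 < r)
  have p2 := VV_pos (by linarith : 0 < r + d)
  have hM0 : 0 ≤ M := (norm_nonneg _).trans (hM x)
  have hsub : {g | len g ≤ r} ⊆ {g | len g ≤ r + d} := fun g (hg : len g ≤ r) =>
    show len g ≤ r + d by linarith
  have hint : IntegrableOn (fun g : G => h (g • x)) {g | len g ≤ r + d} lam :=
    Measure.integrableOn_of_bounded (isCompact_len _).measure_lt_top.ne
      (hm.comp (measurable_id.smul_const x)).aestronglyMeasurable (ae_of_all _ fun g => hM _)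
  set J := ∫ g in {g | len g ≤ r}, h (g • x) ∂lam with hJ
  set J' := ∫ g in {g | len g ≤ r + d}, h (g • x) ∂lam with hJ'
  have b1 : ‖J‖ ≤ M * VV r := by
    rw [← lam_real_ball (by linarith)]
    exact norm_setIntegral_le_of_norm_le_const (isCompact_len _).measure_lt_top fun g _ => hM _
  have b2 : ‖J' - J‖ ≤ M * (VV (r + d) - VV r) := by
    rw [← setIntegral_sdiff (measurableSet_len r) hint hsub, ← lam_real_ball (by linarith),
      ← lam_real_ball (by linarith), ← measureReal_sdiff hsub (measurableSet_len r)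
        (isCompact_len _).measure_lt_top.ne]
    exact norm_setIntegral_le_of_norm_le_const
      ((measure_mono sdiff_subset).trans_lt (isCompact_len _).measure_lt_top) fun g _ => hM _
  have b3 : ‖J‖ ≤ ‖J'‖ + ‖J' - J‖ := by
    have := norm_sub_le J' (J' - J)
    simpa using this
  simp only [avg, norm_smul, Real.norm_eq_abs, abs_inv, abs_of_pos p1, abs_of_pos p2]
  rw [← hJ, ← hJ']
  have b4 : (VV r)⁻¹ * ‖J‖ = (VV (r + d))⁻¹ * ‖J‖ +
      (VV (r + d))⁻¹ * ((VV (r + d) - VV r) * ((VV r)⁻¹ * ‖J‖)) := by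
    field_simp
    ring
  have b5 : (VV r)⁻¹ * ‖J‖ ≤ M := by rwa [inv_mul_le_iff₀ p1, mul_comm]
  have b6 : (VV (r + d) - VV r) * ((VV r)⁻¹ * ‖J‖) ≤ (VV (r + d) - VV r) * M :=
    mul_le_mul_of_nonneg_left b5 (by linarith)
  have b7 : ‖J‖ + (VV (r + d) - VV r) * ((VV r)⁻¹ * ‖J‖) ≤ ‖J'‖ + VV (r + d) * (8 * M * d) := by
    nlinarith [mul_le_mul_of_nonneg_left v2 hM0]
  rw [b4, ← mul_add]
  calc (VV (r + d))⁻¹ * (‖J‖ + (VV (r + d) - VV r) * ((VV r)⁻¹ * ‖J‖))
      ≤ (VV (r + d))⁻¹ * (‖J'‖ + VV (r + d) * (8 * M * d)) :=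
        mul_le_mul_of_nonneg_left b7 (inv_nonneg.mpr p2.le)
    _ = (VV (r + d))⁻¹ * ‖J'‖ + 8 * M * d := by field_simp

variable (μ : Measure Z) [SMulInvariantMeasure G Z μ] [SigmaFinite μ]

theorem ae_ae_act {h h' : Z → ℂ} (hh : h =ᵐ[μ] h') (ω : Measure G) [SFinite ω] :
    ∀ᵐ x ∂μ, ∀ᵐ g ∂ω, h (g • x) = h' (g • x) := by
  obtain ⟨N, hN, hNm, hN0⟩ := exists_measurable_superset_of_null hh
  have h1 : ∀ᵐ g ∂ω, ∀ᵐ x ∂μ, g • x ∉ N := ae_of_all _ fun (g : G) =>
    (measurePreserving_smul g μ).quasiMeasurePreserving.ae (measure_eq_zero_iff_ae_notMem.mp hN0)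
  rw [← Measure.ae_ae_comm (p := fun (x : Z) (g : G) => g • x ∉ N)
    ((measurable_snd.smul measurable_fst) hNm.compl)] at h1
  filter_upwards [h1] with x hx
  filter_upwards [hx] with g hg
  by_contra hcon
  exact hg (hN hcon)

variable [MeasurableSpace.CountablyGenerated Z]

theorem TT_toLp {h : Z → ℂ} (hh : MemLp h 2 μ) (ω : Measure G) [IsFiniteMeasure ω] :
    TT μ ω (hh.toLp h) =ᵐ[μ] fun x => ∫ g, h (g • x) ∂ω := by
  filter_upwards [TT_ae_eq ω (hh.toLp h), ae_ae_act μ hh.coeFn_toLp ω] with x h1 h2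
  rw [h1]
  exact integral_congr_ae h2

theorem nrm_eq {t : ℝ} (ht : 0 < t) :
    nrm (WW μ) t = ((((om t).real univ)⁻¹ : ℝ) : ℂ) • TT μ (om t) := by
  have := sinh_pos_iff.mpr (by linarith : 0 < t / 2)
  have h : (om t).real univ ≠ 0 := by
    rw [om_real_univ ht.le]
    positivity
  rw [TT_om_eq μ ht, smul_smul, ← Complex.ofReal_mul, inv_mul_cancel₀ h]
  simp

theorem om_real_pos {t : ℝ} (ht : 0 < t) : 0 < (om t).real univ := by
  have := sinh_pos_iff.mpr (by linarith : 0 < t / 2)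
  rw [om_real_univ ht.le]
  positivity

theorem norm_nrm_le {t : ℝ} (ht : 0 < t) (g : Lp ℂ 2 μ) : ‖nrm (WW μ) t g‖ ≤ ‖g‖ := by
  have h := om_real_pos ht
  rw [nrm_eq μ ht, smul_apply, norm_smul, Complex.norm_real, Real.norm_of_nonneg (by positivity),
    inv_mul_le_iff₀ h]
  exact (TT μ (om t)).le_of_opNorm_le (norm_TT_le _) g

theorem avg_sq_le {h : Z → ℂ} (hh : MemLp h 2 μ) {a : ℝ} (ha : 24 ≤ a) {r : ℝ} (hr : 0 < r)
    (k : ℕ) (hk : k * a ≤ r / 2) :
    ∫⁻ x, ‖avg r h x‖ₑ ^ 2 ∂μ ≤ ENNReal.ofReal (8 * ‖((lazy (WW μ) a) ^ k) (hh.toLp h)‖ ^ 2 +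
      34 * exp (-(r / 4)) * ‖hh.toLp h‖ ^ 2) := by
  set f := hh.toLp h with hf
  have p1 := VV_pos hr
  have h1 : ∫⁻ x, ‖avg r h x‖ₑ ^ 2 ∂μ = ENNReal.ofReal (‖(VV r)⁻¹ • TT μ (bm r) f‖ ^ 2) := by
    rw [← lint_sq]
    apply lintegral_congr_ae
    filter_upwards [Lp.coeFn_smul (VV r)⁻¹ (TT μ (bm r) f), TT_toLp μ hh (bm r)] with x a b
    rw [a, Pi.smul_apply, b]
    rfl
  rw [h1]
  apply ENNReal.ofReal_le_ofReal
  set A := ‖((lazy (WW μ) a) ^ k) f‖ ^ 2 with hA
  set δ := √(4 * A + 16 * exp (-(r / 4)) * ‖f‖ ^ 2) with hδ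
  have hδ2 : δ ^ 2 = 4 * A + 16 * exp (-(r / 4)) * ‖f‖ ^ 2 := sq_sqrt (by positivity)
  have h2 := ball_bound μ (δ := δ) hr f (fun u hu _ => by
    apply le_sqrt_of_sq_le
    refine ((wave_ineq μ a ha u (by linarith) f).1 k (hk.trans hu)).trans ?_
    have : exp (-(u / 2)) ≤ exp (-(r / 4)) := exp_le_exp.mpr (by linarith)
    gcongr)
  rw [lam_ball' hr.le, lam_ball' (by linarith), ← ofReal_norm, ← ofReal_norm,
    ← ENNReal.ofReal_mul (VV_nonneg _), ← ENNReal.ofReal_mul (VV_nonneg _),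
    ← ENNReal.ofReal_add (mul_nonneg (VV_nonneg _) (norm_nonneg _))
      (mul_nonneg (VV_nonneg _) (sqrt_nonneg _)),
    ENNReal.ofReal_le_ofReal_iff (add_nonneg (mul_nonneg (VV_nonneg _) (norm_nonneg _))
      (mul_nonneg (VV_nonneg _) (sqrt_nonneg _)))] at h2
  have h3 : ‖(VV r)⁻¹ • TT μ (bm r) f‖ ≤ exp (-(r / 2)) * ‖f‖ + δ := by
    rw [norm_smul, Real.norm_of_nonneg (by positivity), inv_mul_le_iff₀ p1]
    have := mul_le_mul_of_nonneg_right (VV_half (r := r)) (norm_nonneg f)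
    nlinarith
  have h4 : exp (-(r / 2)) ^ 2 ≤ exp (-(r / 4)) := by
    rw [← exp_nat_mul]
    apply exp_le_exp.mpr
    push_cast
    linarith
  have h5 := pow_le_pow_left₀ (norm_nonneg _) h3 2
  have h6 := mul_le_mul_of_nonneg_right h4 (sq_nonneg ‖f‖)
  nlinarith [sq_nonneg (exp (-(r / 2)) * ‖f‖ - δ)]

theorem ae_tendsto_grid {h : Z → ℂ} (hm : Measurable h) (hh : MemLp h 2 μ) {a : ℝ} (ha : 24 ≤ a)
    (f : Lp ℂ 2 μ) (hf : hh.toLp h = f - lazy (WW μ) a f) {s : ℝ} (hs : 0 < s) :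
    ∀ᵐ x ∂μ, Tendsto (fun k : ℕ => avg (2 * a * k + s) h x) atTop (𝓝 0) := by
  have hmk : ∀ k : ℕ, Measurable fun x => ‖avg (2 * a * k + s) h x‖ₑ ^ 2 := fun k =>
    ((measurable_avg hm _).enorm).pow_const 2
  have hsum : Summable (fun k : ℕ => 8 * ‖((lazy (WW μ) a) ^ k) (hh.toLp h)‖ ^ 2 +
      34 * exp (-(k : ℝ)) * ‖hh.toLp h‖ ^ 2) := by
    apply Summable.add
    · rw [hf]
      exact (summable_lazy _ _ (norm_nrm_le μ (by linarith)) f).mul_left 8
    · exact (summable_exp_neg_nat.mul_left 34).mul_right _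
  have h1 : ∫⁻ x, ∑' k : ℕ, ‖avg (2 * a * k + s) h x‖ₑ ^ 2 ∂μ ≠ ∞ := by
    rw [lintegral_tsum fun k => (hmk k).aemeasurable]
    refine ne_top_of_le_ne_top hsum.tsum_ofReal_ne_top (ENNReal.tsum_le_tsum fun k => ?_)
    have hk : (0 : ℝ) ≤ k := Nat.cast_nonneg k
    refine (avg_sq_le μ hh ha (by positivity) k (by nlinarith)).trans
      (ENNReal.ofReal_le_ofReal ?_)
    have : exp (-((2 * a * k + s) / 4)) ≤ exp (-(k : ℝ)) := exp_le_exp.mpr (by nlinarith)
    gcongr
  filter_upwards [ae_lt_top (Measurable.tsum hmk) h1] with x hx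
  have h2 := ENNReal.tendsto_atTop_zero_of_tsum_ne_top hx.ne
  have h3 := (ENNReal.tendsto_toReal ENNReal.zero_ne_top).comp h2
  simp only [Function.comp_def, ENNReal.toReal_pow, toReal_enorm, ENNReal.toReal_zero] at h3
  rw [tendsto_zero_iff_norm_tendsto_zero]
  simpa using h3.sqrt

theorem ae_tendsto_dense {h : Z → ℂ} (hm : Measurable h) {M : ℝ} (hM : ∀ x, ‖h x‖ ≤ M)
    (hh : MemLp h 2 μ) {a : ℝ} (ha : 24 ≤ a)
    (f : Lp ℂ 2 μ) (hf : hh.toLp h = f - lazy (WW μ) a f) :
    ∀ᵐ x ∂μ, Tendsto (fun r => avg r h x) atTop (𝓝 0) := by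
  have h1 : ∀ᵐ x ∂μ, ∀ p : ℕ × ℕ, Tendsto (fun k : ℕ =>
      avg (2 * a * k + (p.2 + 1) / (p.1 + 1)) h x) atTop (𝓝 0) :=
    ae_all_iff.mpr fun p => ae_tendsto_grid μ hm hh ha f hf (by positivity)
  filter_upwards [h1] with x hx
  have hM0 : 0 ≤ M := (norm_nonneg _).trans (hM x)
  rw [NormedAddGroup.tendsto_nhds_zero]
  intro ε hε
  obtain ⟨N, hN⟩ := exists_nat_gt (16 * M / ε)
  have hN1 : (0 : ℝ) < N + 1 := by positivity
  have h2 : ∀ᶠ k : ℕ in atTop, ∀ i ∈ Finset.range (⌈2 * a * (N + 1)⌉₊ + 1),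
      ‖avg (2 * a * k + (i + 1) / (N + 1)) h x‖ < ε / 2 := by
    rw [eventually_all_finset]
    intro i _
    exact NormedAddGroup.tendsto_nhds_zero.mp (hx (N, i)) _ (by positivity)
  obtain ⟨K, hK⟩ := eventually_atTop.mp h2
  filter_upwards [eventually_ge_atTop (2 * a * K + 3)] with r hr
  have hK0 : (0 : ℝ) ≤ K := Nat.cast_nonneg K
  have hr3 : 3 ≤ r := by nlinarith
  have ha2 : 0 < 2 * a := by linarith
  set k := ⌊r / (2 * a)⌋₊ with hk
  have k1 : (k : ℝ) ≤ r / (2 * a) := Nat.floor_le (by positivity)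
  have k2 : r / (2 * a) < k + 1 := Nat.lt_floor_add_one _
  rw [le_div_iff₀ ha2] at k1
  rw [div_lt_iff₀ ha2] at k2
  have k3 : K ≤ k := Nat.le_floor (by rw [le_div_iff₀ ha2]; linarith)
  set i := ⌊(r - 2 * a * k) * (N + 1)⌋₊ with hi
  have i1 : (i : ℝ) ≤ (r - 2 * a * k) * (N + 1) := Nat.floor_le (by nlinarith)
  have i2 : (r - 2 * a * k) * (N + 1) < i + 1 := Nat.lt_floor_add_one _
  have i3 : i ∈ Finset.range (⌈2 * a * (N + 1)⌉₊ + 1) := by
    rw [Finset.mem_range, Nat.lt_succ_iff]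
    have := Nat.le_ceil (2 * a * (N + 1))
    have : (i : ℝ) ≤ ⌈2 * a * (N + 1)⌉₊ := by nlinarith
    exact_mod_cast this
  have h3 := hK k k3 i i3
  set d := 2 * a * k + (i + 1) / (N + 1) - r with hd
  have d1 : 0 ≤ d := by
    have : r - 2 * a * k ≤ (i + 1) / (N + 1) := by rw [le_div_iff₀ hN1]; linarith
    linarith
  have d2 : d ≤ 1 / (N + 1) := by
    have : (i : ℝ) / (N + 1) ≤ r - 2 * a * k := by rw [div_le_iff₀ hN1]; linarith
    rw [hd, add_div]
    linarith
  have d3 : 1 / ((N : ℝ) + 1) ≤ 1 := by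
    rw [div_le_one hN1]
    linarith [(Nat.cast_nonneg N : (0 : ℝ) ≤ N)]
  have h4 := avg_osc hm hM x hr3 d1 (d2.trans d3)
  rw [show r + d = 2 * a * k + (i + 1) / (N + 1) by rw [hd]; ring] at h4
  have h5 : 8 * M * d ≤ ε / 2 := by
    refine (mul_le_mul_of_nonneg_left d2 (by positivity)).trans ?_
    rw [div_lt_iff₀ hε] at hN
    rw [mul_one_div, div_le_iff₀ hN1]
    nlinarith
  linarith

end Pool.Agent.MP_f2742c_an.Pf

end

-- part MP_f2742c_an.Conv
section

/-! From a maximal inequality to the pointwise theorem in `L¹`. -/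

open Real MeasureTheory Set Filter Topology
open scoped ENNReal NNReal MatrixGroups InnerProductSpace

namespace Pool.Agent.MP_f2742c_an.Pf

variable {Z : Type*} [MeasurableSpace Z] [MulAction G Z] [MeasurableSMul₂ G Z]
  (μ : Measure Z) [SMulInvariantMeasure G Z μ] [IsProbabilityMeasure μ]
  [MeasurableSpace.CountablyGenerated Z]

omit [MeasurableSpace.CountablyGenerated Z] in
theorem koop_const (g : G) (c : ℂ) : koop μ g (Lp.const 2 μ c) = Lp.const 2 μ c := by
  apply Lp.ext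
  have h1 := (measurePreserving_smul g μ).quasiMeasurePreserving.ae_eq_comp (Lp.coeFn_const 2 μ c)
  filter_upwards [koop_coe g (Lp.const 2 μ c), Lp.coeFn_const 2 μ c, h1] with x a b d
  rw [a, b]
  exact d

theorem nrm_const {t : ℝ} (ht : 0 < t) (c : ℂ) :
    nrm (WW μ) t (Lp.const 2 μ c) = Lp.const 2 μ c := by
  rw [nrm_eq μ ht, smul_apply, TT_apply]
  simp only [koop_const, integral_const]
  rw [RCLike.real_smul_eq_coe_smul (K := ℂ), smul_smul]
  have e : ((((om t).real univ)⁻¹ : ℝ) : ℂ) * (RCLike.ofReal ((om t).real univ) : ℂ) = 1 := by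
    show ((((om t).real univ)⁻¹ : ℝ) : ℂ) * (((om t).real univ : ℝ) : ℂ) = 1
    rw [← Complex.ofReal_mul, inv_mul_cancel₀ (om_real_pos ht).ne']
    simp
  rw [e, one_smul]

omit [MulAction G Z] [MeasurableSMul₂ G Z] [SMulInvariantMeasure G Z μ]
  [MeasurableSpace.CountablyGenerated Z] in
theorem inner_const_left (c : ℂ) (f : Lp ℂ 2 μ) :
    ⟪Lp.const 2 μ c, f⟫_ℂ = (starRingEnd ℂ) c * ∫ x, f x ∂μ := by
  rw [L2.inner_def, ← integral_const_mul]
  apply integral_congr_ae
  filter_upwards [Lp.coeFn_const 2 μ c] with x hx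
  rw [hx]
  simp [mul_comm]

theorem approx {a : ℝ} (ha : 24 ≤ a)
    (hker : ∀ f : Lp ℂ 2 μ, nrm (WW μ) a f = f → ∃ c, f =ᵐ[μ] fun _ => c)
    {f : Z → ℂ} (hf : Integrable f μ) {ε : ℝ} (hε : 0 < ε) :
    ∃ (c : ℂ) (h : Z → ℂ), Measurable h ∧ (∃ M, ∀ x, ‖h x‖ ≤ M) ∧
      (∀ᵐ x ∂μ, Tendsto (fun r => avg r h x) atTop (𝓝 0)) ∧ ∫ x, h x ∂μ = 0 ∧
      ∫⁻ x, ‖f x - c - h x‖ₑ ∂μ ≤ ENNReal.ofReal (3 * ε) := by
  have ha0 : 0 < a := by linarith
  have hε' : ENNReal.ofReal ε ≠ 0 := by simpa using hε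
  obtain ⟨b, hb1, -⟩ := (memLp_one_iff_integrable.mpr hf).exists_simpleFunc_eLpNorm_sub_lt
    ENNReal.one_ne_top hε'
  obtain ⟨Mb, hMb⟩ := b.exists_forall_norm_le
  have hb2 : MemLp b 2 μ := MemLp.of_bound b.aestronglyMeasurable Mb (ae_of_all _ hMb)
  set Q : Lp ℂ 2 μ →L[ℂ] Lp ℂ 2 μ := 1 - lazy (WW μ) a with hQ
  have hQsa : IsSelfAdjoint Q := (IsSelfAdjoint.one _).sub (isSelfAdjoint_real_smul _
    ((IsSelfAdjoint.one _).add (isSelfAdjoint_real_smul _
      (isSelfAdjoint_real_smul _ (TT_selfAdjoint _)))))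
  have hQa : ∀ g, Q g = g - lazy (WW μ) a g := fun g => rfl
  have hQn : ∀ g, ‖Q g‖ ≤ ‖g‖ := by
    intro g
    apply le_of_sq_le_sq _ (norm_nonneg _) |> fun h => h
    rw [hQa, norm_sub_lazy_sq]
    have h1 := pow_le_pow_left₀ (norm_nonneg _) (norm_nrm_le μ ha0 g) 2
    have h2 := norm_lazy_sq (WW μ) a g
    nlinarith [sq_nonneg ‖lazy (WW μ) a g‖]
  set c := ∫ x, b x ∂μ with hc
  have h1 : hb2.toLp b - Lp.const 2 μ c ∈ (Q : Lp ℂ 2 μ →ₗ[ℂ] Lp ℂ 2 μ).kerᗮ := by
    intro v hv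
    have h2 : nrm (WW μ) a v = v := by
      have h3 : v - lazy (WW μ) a v = 0 := hv
      rw [lazy_apply] at h3
      have h4 : nrm (WW μ) a v - v =
          (-2 : ℂ) • (v - (((2 : ℝ)⁻¹ : ℝ) : ℂ) • (v + nrm (WW μ) a v)) := by
        push_cast
        module
      rw [h3, smul_zero] at h4
      exact sub_eq_zero.mp h4
    obtain ⟨c', hc'⟩ := hker v h2
    have h3 : v = Lp.const 2 μ c' := Lp.ext (hc'.trans (Lp.coeFn_const 2 μ c').symm)
    rw [h3, inner_sub_right, inner_const_left, inner_const_left,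
      integral_congr_ae hb2.coeFn_toLp, integral_congr_ae (Lp.coeFn_const 2 μ c)]
    simp [hc]
  rw [ContinuousLinearMap.orthogonal_ker, hQsa.adjoint_eq] at h1
  obtain ⟨_, ⟨F, rfl⟩, hF⟩ := Metric.mem_closure_iff.mp h1 ε hε
  obtain ⟨h₀, hh1, hh2⟩ := (Lp.memLp F).exists_simpleFunc_eLpNorm_sub_lt (by simp) hε'
  obtain ⟨M, hM⟩ := h₀.exists_forall_norm_le
  have hM0 : 0 ≤ M := by
    have : Nonempty Z := nonempty_of_isProbabilityMeasure μ
    exact (norm_nonneg _).trans (hM (Classical.arbitrary Z))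
  have hFh : ‖F - hh2.toLp h₀‖ < ε := by
    rw [← ENNReal.ofReal_lt_ofReal_iff hε, ofReal_norm, Lp.enorm_def]
    refine lt_of_eq_of_lt (eLpNorm_congr_ae ?_) hh1
    filter_upwards [Lp.coeFn_sub F (hh2.toLp h₀), hh2.coeFn_toLp] with x h1 h2
    rw [h1, Pi.sub_apply, h2, Pi.sub_apply]
  set h : Z → ℂ := fun x => h₀ x - (((2 : ℝ)⁻¹ : ℝ) : ℂ) *
    (h₀ x + ((((om a).real univ)⁻¹ : ℝ) : ℂ) * ∫ g, h₀ (g • x) ∂om a) with hh
  have hm : Measurable h := h₀.measurable.sub ((h₀.measurable.add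
    ((measurable_integral_act h₀.measurable _).const_mul _)).const_mul _)
  have hbd : ∀ x, ‖h x‖ ≤ 2 * M := by
    intro x
    have p := om_real_pos ha0
    have b1 : ‖∫ g, h₀ (g • x) ∂om a‖ ≤ M * (om a).real univ :=
      norm_integral_le_of_norm_le_const (ae_of_all _ fun g => hM _)
    have b2 : ‖((((om a).real univ)⁻¹ : ℝ) : ℂ) * ∫ g, h₀ (g • x) ∂om a‖ ≤ M := by
      rw [norm_mul, Complex.norm_real, Real.norm_of_nonneg (by positivity), inv_mul_le_iff₀ p,
        mul_comm]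
      exact b1
    refine (norm_sub_le _ _).trans ?_
    rw [norm_mul, Complex.norm_real, Real.norm_of_nonneg (by positivity)]
    have b3 := (norm_add_le _ _).trans (add_le_add (hM x) b2)
    have := hM x
    linarith
  have hh3 : MemLp h 2 μ := MemLp.of_bound hm.aestronglyMeasurable _ (ae_of_all _ hbd)
  have hQh : hh3.toLp h = Q (hh2.toLp h₀) := by
    apply Lp.ext
    rw [hQa, lazy_apply, nrm_eq μ ha0, smul_apply]
    filter_upwards [hh3.coeFn_toLp, hh2.coeFn_toLp, TT_toLp μ hh2 (om a),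
      Lp.coeFn_sub (hh2.toLp h₀) ((((2 : ℝ)⁻¹ : ℝ) : ℂ) • (hh2.toLp h₀ +
        ((((om a).real univ)⁻¹ : ℝ) : ℂ) • TT μ (om a) (hh2.toLp h₀))),
      Lp.coeFn_smul (((2 : ℝ)⁻¹ : ℝ) : ℂ) (hh2.toLp h₀ +
        ((((om a).real univ)⁻¹ : ℝ) : ℂ) • TT μ (om a) (hh2.toLp h₀)),
      Lp.coeFn_add (hh2.toLp h₀) (((((om a).real univ)⁻¹ : ℝ) : ℂ) • TT μ (om a) (hh2.toLp h₀)),
      Lp.coeFn_smul ((((om a).real univ)⁻¹ : ℝ) : ℂ) (TT μ (om a) (hh2.toLp h₀))]
      with x e1 e2 e3 e4 e5 e6 e7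
    rw [e1, e4, Pi.sub_apply, e5, Pi.smul_apply, e6, Pi.add_apply, e7, Pi.smul_apply, e2, e3]
    rfl
  refine ⟨c, h, hm, ⟨_, hbd⟩, ae_tendsto_dense μ hm hbd hh3 ha _ hQh, ?_, ?_⟩
  · have h2 := inner_const_left μ 1 (hh3.toLp h)
    rw [integral_congr_ae hh3.coeFn_toLp, map_one (starRingEnd ℂ), one_mul] at h2
    rw [← h2, hQh]
    have h3 := hQsa.isSymmetric (Lp.const 2 μ 1) (hh2.toLp h₀)
    simp only [ContinuousLinearMap.coe_coe] at h3
    rw [← h3, hQa, lazy_apply, nrm_const μ ha0]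
    have : Lp.const 2 μ (1 : ℂ) - (((2 : ℝ)⁻¹ : ℝ) : ℂ) •
        (Lp.const 2 μ (1 : ℂ) + Lp.const 2 μ (1 : ℂ)) = 0 := by
      push_cast
      module
    rw [this, inner_zero_left]
  · have h2 : ‖hb2.toLp b - Lp.const 2 μ c - hh3.toLp h‖ ≤ 2 * ε := by
      rw [hQh]
      have e : hb2.toLp b - Lp.const 2 μ c - Q (hh2.toLp h₀) =
          (hb2.toLp b - Lp.const 2 μ c - Q F) + Q (F - hh2.toLp h₀) := by
        rw [map_sub]
        abel
      rw [e]
      refine (norm_add_le _ _).trans ?_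
      have := hQn (F - hh2.toLp h₀)
      rw [dist_eq_norm] at hF
      have hF' : ‖hb2.toLp b - Lp.const 2 μ c - Q F‖ < ε := hF
      linarith
    have h3 : ∫⁻ x, ‖b x - c - h x‖ₑ ∂μ ≤ ENNReal.ofReal (2 * ε) := by
      refine le_trans ?_ (ENNReal.ofReal_le_ofReal h2)
      rw [ofReal_norm, Lp.enorm_def, ← eLpNorm_one_eq_lintegral_enorm]
      refine le_trans (le_of_eq (eLpNorm_congr_ae ?_))
        (eLpNorm_le_eLpNorm_of_exponent_le (by norm_num) (Lp.aestronglyMeasurable _))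
      filter_upwards [Lp.coeFn_sub (hb2.toLp b - Lp.const 2 μ c) (hh3.toLp h),
        Lp.coeFn_sub (hb2.toLp b) (Lp.const 2 μ c), hb2.coeFn_toLp, hh3.coeFn_toLp,
        Lp.coeFn_const 2 μ c] with x e1 e2 e3 e4 e5
      rw [e1, Pi.sub_apply, e2, Pi.sub_apply, e3, e4, e5]
      rfl
    rw [eLpNorm_one_eq_lintegral_enorm] at hb1
    calc ∫⁻ x, ‖f x - c - h x‖ₑ ∂μ ≤ ∫⁻ x, (‖(f - b) x‖ₑ + ‖b x - c - h x‖ₑ) ∂μ := by
          apply lintegral_mono
          intro x
          refine le_trans (le_of_eq ?_) (enorm_add_le _ _)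
          show ‖f x - c - h x‖ₑ = ‖(f x - b x) + (b x - c - h x)‖ₑ
          rw [show (f x - b x) + (b x - c - h x) = f x - c - h x by ring]
      _ = ∫⁻ x, ‖(f - b) x‖ₑ ∂μ + ∫⁻ x, ‖b x - c - h x‖ₑ ∂μ :=
          lintegral_add_right _ ((b.measurable.sub_const c).sub hm).enorm
      _ ≤ ENNReal.ofReal ε + ENNReal.ofReal (2 * ε) := add_le_add hb1.le h3
      _ = ENNReal.ofReal (3 * ε) := by
          rw [← ENNReal.ofReal_add hε.le (by positivity)]
          congr 1
          ring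

theorem pointwise_of_maximal {a : ℝ} (ha : 24 ≤ a)
    (hker : ∀ f : Lp ℂ 2 μ, nrm (WW μ) a f = f → ∃ c, f =ᵐ[μ] fun _ => c)
    (C : ℝ≥0∞) (hC : C ≠ ∞)
    (hmax : ∀ φ : Z → ℝ≥0∞, Measurable φ → ∀ l : ℝ≥0∞,
      l * μ {x | ∃ r, 3 ≤ r ∧
        l * ENNReal.ofReal (VV r) < ∫⁻ g in {g | len g ≤ r}, φ (g • x) ∂lam} ≤ C * ∫⁻ x, φ x ∂μ)
    {f : Z → ℂ} (hf : Integrable f μ) :
    ∀ᵐ x ∂μ, (∀ r, IntegrableOn (fun g : G => f (g • x)) {g | len g ≤ r} lam) ∧
      Tendsto (fun r => avg r f x) atTop (𝓝 (∫ y, f y ∂μ)) := by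
  wlog hfm : Measurable f generalizing f
  · have h1 := hf.1.ae_eq_mk
    have h2 := this (hf.congr h1) hf.1.measurable_mk
    filter_upwards [h2, ae_ae_act μ h1 lam] with x hx h3
    refine ⟨fun r => (hx.1 r).congr (ae_restrict_of_ae (h3.mono fun _ h => h.symm)), ?_⟩
    rw [integral_congr_ae h1]
    refine hx.2.congr fun r => ?_
    unfold avg
    rw [integral_congr_ae (ae_restrict_of_ae h3)]
  choose c h hm hM hT h0 hε using fun n : ℕ =>
    approx μ ha hker hf (by positivity : (0 : ℝ) < (1 / 4) ^ n)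
  set e : ℕ → Z → ℂ := fun n x => f x - c n - h n x with he
  have hem : ∀ n, Measurable (e n) := fun n => (hfm.sub_const _).sub (hm n)
  set B : ℕ → Set Z := fun n => {x | ∃ r, 3 ≤ r ∧ ENNReal.ofReal ((1 / 2) ^ n) *
    ENNReal.ofReal (VV r) < ∫⁻ g in {g | len g ≤ r}, ‖e n (g • x)‖ₑ ∂lam} with hB
  have hBn : ∀ n, μ (B n) ≤ C * ENNReal.ofReal (3 * (1 / 2) ^ n) := by
    intro n
    have h1 := (hmax (fun x => ‖e n x‖ₑ) (hem n).enorm (ENNReal.ofReal ((1 / 2) ^ n))).trans
      (mul_le_mul_right (hε n) C)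
    rw [← ENNReal.mul_le_mul_iff_right (a := ENNReal.ofReal ((1 / 2) ^ n)) (by simp)
      ENNReal.ofReal_ne_top]
    refine h1.trans (le_of_eq ?_)
    rw [mul_left_comm, ← ENNReal.ofReal_mul (by positivity)]
    congr 2
    rw [mul_left_comm, ← mul_pow]
    norm_num
  have hsum : ∑' n, μ (B n) ≠ ∞ := by
    refine ne_top_of_le_ne_top ?_ (ENNReal.tsum_le_tsum hBn)
    rw [ENNReal.tsum_mul_left]
    exact ENNReal.mul_ne_top hC (summable_geometric_two.mul_left 3).tsum_ofReal_ne_top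
  have hc : ∀ n, ‖(∫ y, f y ∂μ) - c n‖ ≤ 3 * (1 / 4) ^ n := by
    intro n
    obtain ⟨M, hM'⟩ := hM n
    have hi : Integrable (h n) μ :=
      Integrable.of_bound (hm n).aestronglyMeasurable M (ae_of_all _ hM')
    have h1 : ∫ y, e n y ∂μ = (∫ y, f y ∂μ) - c n := by
      simp only [he]
      have i0 : Integrable (fun y => f y - c n) μ := hf.sub (integrable_const _)
      rw [integral_sub i0 hi, integral_sub hf (integrable_const _), h0]
      simp
    rw [← h1, ← ENNReal.ofReal_le_ofReal_iff (by positivity), ofReal_norm]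
    exact (enorm_integral_le_lintegral_enorm _).trans (hε n)
  filter_upwards [ae_eventually_notMem hsum, ae_all_iff.mpr hT] with x hx hTx
  have key : ∀ n, x ∉ B n → ∀ r, 3 ≤ r →
      IntegrableOn (fun g : G => f (g • x)) {g | len g ≤ r} lam ∧
      ‖avg r f x - ∫ y, f y ∂μ‖ ≤ ‖avg r (h n) x‖ + 4 * (1 / 2) ^ n := by
    intro n hn r hr
    have p := VV_pos (by linarith : 0 < r)
    have h1 : ∫⁻ g in {g | len g ≤ r}, ‖e n (g • x)‖ₑ ∂lam ≤
        ENNReal.ofReal ((1 / 2) ^ n * VV r) := by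
      rw [ENNReal.ofReal_mul (by positivity)]
      by_contra hcon
      exact hn ⟨r, hr, not_le.mp hcon⟩
    have i1 : IntegrableOn (fun g : G => e n (g • x)) {g | len g ≤ r} lam :=
      ⟨((hem n).comp (measurable_id.smul_const x)).aestronglyMeasurable,
        h1.trans_lt ENNReal.ofReal_lt_top⟩
    obtain ⟨M, hM'⟩ := hM n
    have i2 : IntegrableOn (fun g : G => h n (g • x)) {g | len g ≤ r} lam :=
      Measure.integrableOn_of_bounded (isCompact_len _).measure_lt_top.ne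
        ((hm n).comp (measurable_id.smul_const x)).aestronglyMeasurable
        (ae_of_all _ fun g => hM' _)
    have i3 : IntegrableOn (fun _ : G => c n) {g | len g ≤ r} lam :=
      integrableOn_const (isCompact_len _).measure_lt_top.ne
    have e1 : (fun g : G => f (g • x)) = fun g => e n (g • x) + h n (g • x) + c n := by
      funext g
      simp [he]
    have i12 : IntegrableOn (fun g : G => e n (g • x) + h n (g • x)) {g | len g ≤ r} lam :=
      i1.add i2
    refine ⟨e1 ▸ i12.add i3, ?_⟩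
    have e2 : avg r f x = avg r (e n) x + avg r (h n) x + c n := by
      unfold avg
      rw [e1, integral_add i12 i3, integral_add i1 i2, setIntegral_const,
        lam_real_ball (by linarith), smul_add, smul_add, smul_smul, inv_mul_cancel₀ p.ne',
        one_smul]
    have b1 : ‖avg r (e n) x‖ ≤ (1 / 2) ^ n := by
      rw [avg, norm_smul, Real.norm_of_nonneg (by positivity), inv_mul_le_iff₀ p, mul_comm,
        ← ENNReal.ofReal_le_ofReal_iff (by positivity), ofReal_norm]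
      exact (enorm_integral_le_lintegral_enorm _).trans h1
    have b2 : ((1 : ℝ) / 4) ^ n ≤ (1 / 2) ^ n := pow_le_pow_left₀ (by norm_num) (by norm_num) n
    have b3 := hc n
    rw [e2, show avg r (e n) x + avg r (h n) x + c n - ∫ y, f y ∂μ =
      avg r (e n) x + avg r (h n) x - ((∫ y, f y ∂μ) - c n) by ring]
    have b4 := norm_sub_le (avg r (e n) x + avg r (h n) x) ((∫ y, f y ∂μ) - c n)
    have b5 := norm_add_le (avg r (e n) x) (avg r (h n) x)
    linarith
  constructor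
  · intro r
    obtain ⟨n, hn⟩ := hx.exists
    exact (key n hn (max r 3) (le_max_right _ _)).1.mono_set
      fun g (hg : len g ≤ r) => le_max_of_le_left hg
  · rw [Metric.tendsto_nhds]
    intro ε hε
    have h1 : ∀ᶠ n : ℕ in atTop, ((1 : ℝ) / 2) ^ n < ε / 8 :=
      (tendsto_pow_atTop_nhds_zero_of_lt_one (by norm_num) (by norm_num)).eventually
        (gt_mem_nhds (by positivity))
    obtain ⟨n, hn1, hn2⟩ := (hx.and h1).exists
    filter_upwards [eventually_ge_atTop 3,
      NormedAddGroup.tendsto_nhds_zero.mp (hTx n) (ε / 2) (by positivity)] with r hr h2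
    rw [dist_eq_norm]
    have := (key n hn1 r hr).2
    linarith

end Pool.Agent.MP_f2742c_an.Pf

end

-- part MP_f2742c_an.Skew
section

/-! Fundamental domain of a cocompact lattice and skew products. -/

open Real MeasureTheory Set Filter Topology
open scoped ENNReal NNReal MatrixGroups

namespace Pool.Agent.MP_f2742c_an.Pf

/-- a cocompact lattice with a homomorphism onto `ℤ` -/
structure LData (Γ : Type) [Group Γ] where
  ι : Γ →* G
  inj : Function.Injective ι
  φ : Γ → ℤ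
  φ_mul : ∀ γ δ, φ (γ * δ) = φ γ + φ δ
  γ₀ : Γ
  φ_γ₀ : φ γ₀ = 1
  fin : ∀ R, {γ | len (ι γ) ≤ R}.Finite
  Δ : ℝ
  cocpt : ∀ g, ∃ γ, len (g * ι γ) ≤ Δ
  neg : ∃ γ, ι γ = -1

namespace LData

variable {Γ : Type} [Group Γ] (L : LData Γ)

theorem φ_one : L.φ 1 = 0 := by
  have := L.φ_mul 1 1
  rw [one_mul] at this
  omega

theorem φ_inv (γ : Γ) : L.φ γ⁻¹ = - L.φ γ := by
  have := L.φ_mul γ γ⁻¹
  rw [mul_inv_cancel, φ_one] at this
  omega

theorem Δ_nonneg : 0 ≤ L.Δ := by
  obtain ⟨γ, h⟩ := L.cocpt 1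
  exact (len_nonneg _).trans h

include L in
theorem countable : Countable Γ := by
  have : (univ : Set Γ) ⊆ ⋃ n : ℕ, {γ | len (L.ι γ) ≤ n} := by
    intro γ _
    obtain ⟨n, hn⟩ := exists_nat_ge (len (L.ι γ))
    exact mem_iUnion.mpr ⟨n, hn⟩
  exact countable_univ_iff.mp ((countable_iUnion fun n : ℕ => (L.fin n).countable).mono this)

/-- strict fundamental domain -/
def DD : Set G := {d | len d ≤ L.Δ ∧
  ∀ γ, len (d * L.ι γ) ≤ L.Δ → embeddingReal G d ≤ embeddingReal G (d * L.ι γ)}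

theorem measurableSet_DD : MeasurableSet L.DD := by
  have := L.countable
  have he := (measurableEmbedding_embeddingReal G).measurable
  refine (measurableSet_len _).inter ?_
  change MeasurableSet {d : G | ∀ γ, len (d * L.ι γ) ≤ L.Δ →
    embeddingReal G d ≤ embeddingReal G (d * L.ι γ)}
  rw [Set.ofPred_forall]
  refine MeasurableSet.iInter fun γ => ?_
  exact MeasurableSet.imp
    (measurableSet_le (measurable_len.comp (measurable_mul_const _)) measurable_const)
    (measurableSet_le he (he.comp (measurable_mul_const _)))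

theorem exists_c (g : G) : ∃ γ, g * (L.ι γ)⁻¹ ∈ L.DD := by
  have h1 : {γ | len (g * L.ι γ) ≤ L.Δ}.Finite := by
    refine (L.fin (len g + L.Δ)).subset fun γ (hγ : len (g * L.ι γ) ≤ L.Δ) => ?_
    have := len_mul_le g⁻¹ (g * L.ι γ)
    rw [inv_mul_cancel_left, len_inv] at this
    show len (L.ι γ) ≤ _
    linarith
  obtain ⟨γ, h2, h3⟩ := Set.exists_min_image _ (fun γ => embeddingReal G (g * L.ι γ)) h1
    (L.cocpt g)
  refine ⟨γ⁻¹, ?_⟩
  rw [map_inv, inv_inv]
  refine ⟨h2, fun δ hδ => ?_⟩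
  rw [mul_assoc, ← map_mul] at hδ ⊢
  exact h3 _ hδ

theorem eq_one_of_mem {d : G} {γ : Γ} (h1 : d ∈ L.DD) (h2 : d * L.ι γ ∈ L.DD) : γ = 1 := by
  have h3 := h1.2 γ h2.1
  have h4 := h2.2 γ⁻¹
  rw [map_inv, mul_inv_cancel_right] at h4
  have h5 := (measurableEmbedding_embeddingReal G).injective (le_antisymm h3 (h4 h1.1))
  apply L.inj
  rw [map_one]
  exact (left_eq_mul.mp h5)

/-- the lattice part of `g` -/
noncomputable def c (g : G) : Γ := (L.exists_c g).choose

/-- the part of `g` in the fundamental domain -/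
noncomputable def r (g : G) : L.DD := ⟨g * (L.ι (L.c g))⁻¹, (L.exists_c g).choose_spec⟩

theorem r_mul_c (g : G) : (L.r g : G) * L.ι (L.c g) = g := inv_mul_cancel_right _ _

theorem c_eq_iff (g : G) (γ : Γ) : L.c g = γ ↔ g * (L.ι γ)⁻¹ ∈ L.DD := by
  constructor
  · rintro rfl
    exact (L.r g).2
  · intro h
    have h2 : g * (L.ι γ)⁻¹ * L.ι (γ * (L.c g)⁻¹) ∈ L.DD := by
      rw [map_mul, map_inv, ← mul_assoc, inv_mul_cancel_right]
      exact (L.r g).2
    exact (mul_inv_eq_one.mp (L.eq_one_of_mem h h2)).symm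

theorem c_mul (d : L.DD) (γ : Γ) : L.c (d * L.ι γ) = γ := by
  rw [c_eq_iff, mul_inv_cancel_right]
  exact d.2

theorem r_mul (d : L.DD) (γ : Γ) : L.r (d * L.ι γ) = d := by
  apply Subtype.ext
  show (d : G) * L.ι γ * (L.ι (L.c (d * L.ι γ)))⁻¹ = d
  rw [c_mul, mul_inv_cancel_right]

theorem c_mul' (g : G) (γ : Γ) : L.c (g * L.ι γ) = L.c g * γ := by
  conv_lhs => rw [← L.r_mul_c g, mul_assoc, ← map_mul, c_mul]

theorem r_mul' (g : G) (γ : Γ) : L.r (g * L.ι γ) = L.r g := by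
  conv_lhs => rw [← L.r_mul_c g, mul_assoc, ← map_mul, r_mul]

theorem measurable_c {Z : Type*} [MeasurableSpace Z] (F : Γ → G → Z)
    (hF : ∀ γ, Measurable (F γ)) : Measurable fun g => F (L.c g) g := by
  have := L.countable
  intro s hs
  have : (fun g => F (L.c g) g) ⁻¹' s =
      ⋃ γ, ((fun g => g * (L.ι γ)⁻¹) ⁻¹' L.DD ∩ F γ ⁻¹' s) := by
    ext g
    simp only [mem_preimage, mem_iUnion, mem_inter_iff, ← c_eq_iff]
    exact ⟨fun h => ⟨_, rfl, h⟩, fun ⟨_, h1, h2⟩ => h1 ▸ h2⟩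
  rw [this]
  exact MeasurableSet.iUnion fun γ =>
    (measurable_mul_const _ L.measurableSet_DD).inter (hF γ hs)

theorem measurable_r : Measurable L.r :=
  (L.measurable_c (fun γ g => g * (L.ι γ)⁻¹) fun _ => measurable_mul_const _).subtype_mk

/-- the integer cocycle -/
noncomputable def β (g : G) : ℤ := L.φ (L.c g)

theorem measurable_β : Measurable L.β :=
  L.measurable_c (fun γ _ => L.φ γ) fun _ => measurable_const

theorem len_c_le (g : G) : len (L.ι (L.c g)) ≤ len g + L.Δ := by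
  have h1 := len_mul_le (L.r g : G)⁻¹ g
  have h2 : (L.r g : G)⁻¹ * g = L.ι (L.c g) := by
    rw [inv_mul_eq_iff_eq_mul, r_mul_c]
  rw [h2, len_inv] at h1
  have := (L.r g).2.1
  linarith

theorem exists_bound (t : ℝ) : ∃ K : ℕ, ∀ g, len g ≤ t → ∀ d : L.DD, |L.β (g * d)| ≤ K := by
  obtain ⟨K, hK⟩ := ((L.fin (t + 2 * L.Δ)).image fun γ => (L.φ γ).natAbs).bddAbove
  refine ⟨K, fun g hg d => ?_⟩
  have h1 := L.len_c_le (g * d)
  have h2 := len_mul_le g d
  have h3 := d.2.1
  have h4 := hK ⟨L.c (g * d), show len _ ≤ _ by linarith, rfl⟩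
  rw [β, Int.abs_eq_natAbs]
  exact_mod_cast h4

theorem unfold0 (Ψ : G → ℝ≥0∞) (hΨ : Measurable Ψ) :
    ∫⁻ g, Ψ g ∂lam = ∑' γ, ∫⁻ d in L.DD, Ψ (d * L.ι γ) ∂lam := by
  have := L.countable
  have h1 : ∀ g, Ψ g = ∑' γ, ((fun g => g * (L.ι γ)⁻¹) ⁻¹' L.DD).indicator Ψ g := by
    intro g
    rw [tsum_eq_single (L.c g)]
    · exact (indicator_of_mem (show g ∈ (fun x => x * (L.ι (L.c g))⁻¹) ⁻¹' L.DD from
        (L.c_eq_iff _ _).mp rfl) Ψ).symm
    · intro γ hγ
      exact indicator_of_notMem (s := (fun g => g * (L.ι γ)⁻¹) ⁻¹' L.DD)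
        (fun h => hγ ((L.c_eq_iff _ _).mpr h).symm) Ψ
  rw [lintegral_congr h1, lintegral_tsum fun γ =>
    (hΨ.indicator (measurable_mul_const _ L.measurableSet_DD)).aemeasurable]
  congr 1
  funext γ
  rw [← lintegral_mul_right_eq_self _ (L.ι γ), ← lintegral_indicator L.measurableSet_DD]
  congr 1
  funext d
  by_cases hd : d ∈ L.DD
  · rw [indicator_of_mem hd, indicator_of_mem]
    simpa using hd
  · rw [indicator_of_notMem hd, indicator_of_notMem]
    simpa using hd

/-- covolume -/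
noncomputable def vol : ℝ≥0∞ := lam L.DD

theorem vol_ne_top : L.vol ≠ ∞ :=
  ((measure_mono fun _ h => h.1).trans_lt (isCompact_len L.Δ).measure_lt_top).ne

theorem vol_ne_zero : L.vol ≠ 0 := by
  intro h
  have h1 := L.unfold0 (fun _ => 1) measurable_const
  simp only [lintegral_const, one_mul, Measure.restrict_apply MeasurableSet.univ,
    univ_inter] at h1
  rw [show lam L.DD = 0 from h, tsum_zero] at h1
  exact lam_ne_zero (Measure.measure_univ_eq_zero.mp h1)

/-- normalised measure on the fundamental domain -/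
noncomputable def mD : Measure L.DD := L.vol⁻¹ • lam.comap Subtype.val

theorem lint_mD (F : G → ℝ≥0∞) : L.vol * ∫⁻ d : L.DD, F d ∂L.mD = ∫⁻ d in L.DD, F d ∂lam := by
  rw [mD, lintegral_smul_measure, lintegral_subtype_comap L.measurableSet_DD, smul_eq_mul,
    ← mul_assoc, ENNReal.mul_inv_cancel L.vol_ne_zero L.vol_ne_top, one_mul]

instance : IsProbabilityMeasure L.mD := ⟨by
  have h1 := L.lint_mD (fun _ => 1)
  simp only [lintegral_const, one_mul, Measure.restrict_apply MeasurableSet.univ,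
    univ_inter] at h1
  rw [← ENNReal.mul_right_inj L.vol_ne_zero L.vol_ne_top, h1, mul_one, vol]⟩

instance : StandardBorelSpace L.DD := L.measurableSet_DD.standardBorel

theorem unfold1 (Ψ : G → ℝ≥0∞) (hΨ : Measurable Ψ) :
    ∫⁻ g, Ψ g ∂lam = L.vol * ∑' γ, ∫⁻ d : L.DD, Ψ (d * L.ι γ) ∂L.mD := by
  rw [L.unfold0 Ψ hΨ, ← ENNReal.tsum_mul_left]
  congr 1
  funext γ
  exact (L.lint_mD fun d => Ψ (d * L.ι γ)).symm

theorem lint_r (g : G) (F : L.DD → ℝ≥0∞) (hF : Measurable F) :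
    ∫⁻ d : L.DD, F (L.r (g * d)) ∂L.mD = ∫⁻ d, F d ∂L.mD := by
  have := L.countable
  have m1 : Measurable fun x : G => L.DD.indicator (fun _ => (1 : ℝ≥0∞)) (g⁻¹ * x) :=
    (measurable_const.indicator L.measurableSet_DD).comp (measurable_const_mul _)
  rw [← ENNReal.mul_right_inj L.vol_ne_zero L.vol_ne_top,
    L.lint_mD fun d => F (L.r (g * d)), ← lintegral_indicator L.measurableSet_DD,
    ← lintegral_mul_left_eq_self _ g⁻¹]
  have e : ∀ x, L.DD.indicator (fun d => F (L.r (g * d))) (g⁻¹ * x) =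
      L.DD.indicator (fun _ => (1 : ℝ≥0∞)) (g⁻¹ * x) * F (L.r x) := by
    intro x
    by_cases h : g⁻¹ * x ∈ L.DD <;> simp [h]
  have m2 : Measurable fun x : G =>
      L.DD.indicator (fun _ => (1 : ℝ≥0∞)) (g⁻¹ * x) * F (L.r x) :=
    m1.mul (hF.comp L.measurable_r)
  rw [lintegral_congr e, L.unfold1 _ m2, ← lintegral_tsum]
  · congr 2
    funext d
    simp only [r_mul]
    rw [ENNReal.tsum_mul_right, tsum_eq_single (L.c (g⁻¹ * d))⁻¹, indicator_of_mem, one_mul]
    · rw [map_inv, ← mul_assoc]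
      exact (L.r _).2
    · intro γ hγ
      refine indicator_of_notMem (fun h => hγ ?_) _
      rw [(L.c_eq_iff (g⁻¹ * d) γ⁻¹).mpr (by rwa [map_inv, inv_inv, mul_assoc]), inv_inv]
  · intro γ
    exact (m2.comp (measurable_subtype_coe.mul_const _)).aemeasurable

end LData

variable {Γ : Type} [Group Γ]

/-- the skew product `D × Y` -/
def Skew (L : LData Γ) (Y : Type) (_α : Y) : Type := L.DD × Y

namespace Skew

variable {L : LData Γ} {Y : Type} {α : Y}

instance [MeasurableSpace Y] : MeasurableSpace (Skew L Y α) :=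
  inferInstanceAs (MeasurableSpace (L.DD × Y))

instance [MeasurableSpace Y] [StandardBorelSpace Y] : StandardBorelSpace (Skew L Y α) :=
  inferInstanceAs (StandardBorelSpace (L.DD × Y))

/-- a point of the skew product -/
def mk (α : Y) (d : L.DD) (y : Y) : Skew L Y α := (d, y)

variable [AddCommGroup Y]

noncomputable instance : MulAction G (Skew L Y α) where
  smul g x := mk α (L.r (g * x.1)) (x.2 + L.β (g * x.1) • α)
  one_smul x := by
    have h1 := L.r_mul x.1 1
    have h2 := L.c_mul x.1 1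
    rw [map_one, mul_one] at h1 h2
    show mk α (L.r (1 * x.1)) (x.2 + L.φ (L.c (1 * x.1)) • α) = x
    rw [one_mul, h1, h2, L.φ_one, zero_smul, add_zero]
    rfl
  mul_smul h g x := by
    show mk α (L.r (h * g * x.1)) (x.2 + L.φ (L.c (h * g * x.1)) • α) =
      mk α (L.r (h * L.r (g * x.1))) (x.2 + L.φ (L.c (g * x.1)) • α +
        L.φ (L.c (h * L.r (g * x.1))) • α)
    have e : h * g * x.1 = h * L.r (g * x.1) * L.ι (L.c (g * x.1)) := by
      rw [mul_assoc h (L.r _ : G), L.r_mul_c, mul_assoc]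
    rw [e, L.r_mul', L.c_mul', L.φ_mul, add_smul, add_assoc, add_comm (L.φ (L.c (h * _)) • α)]

theorem smul_mk (g : G) (d : L.DD) (y : Y) :
    g • mk α d y = mk α (L.r (g * d)) (y + L.β (g * d) • α) := rfl

variable [MeasurableSpace Y]

omit [AddCommGroup Y] in
theorem measurable_mk {A : Type*} [MeasurableSpace A] {f : A → L.DD} {g : A → Y}
    (hf : Measurable f) (hg : Measurable g) : Measurable fun a => mk α (f a) (g a) :=
  hf.prodMk hg

variable [MeasurableAdd₂ Y]

instance : MeasurableSMul₂ G (Skew L Y α) := ⟨by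
  have h1 : Measurable fun p : G × (L.DD × Y) => p.1 * (p.2.1 : G) :=
    measurable_fst.mul (measurable_subtype_coe.comp measurable_snd.fst)
  exact measurable_mk (L.measurable_r.comp h1) (measurable_snd.snd.add
    ((measurable_of_countable fun n : ℤ => n • α).comp (L.measurable_β.comp h1)))⟩

omit [AddCommGroup Y] [MeasurableAdd₂ Y] in
variable (L α) in
/-- the invariant measure -/
noncomputable def ms (ν : Measure Y) : Measure (Skew L Y α) := L.mD.prod ν

instance (ν : Measure Y) [SigmaFinite ν] : SigmaFinite (ms L α ν) :=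
  inferInstanceAs (SigmaFinite (L.mD.prod ν))

instance (ν : Measure Y) [IsProbabilityMeasure ν] : IsProbabilityMeasure (ms L α ν) :=
  inferInstanceAs (IsProbabilityMeasure (L.mD.prod ν))

omit [AddCommGroup Y] [MeasurableAdd₂ Y] in
theorem lint_ms (ν : Measure Y) [SFinite ν] (F : Skew L Y α → ℝ≥0∞) (hF : Measurable F) :
    ∫⁻ x, F x ∂ms L α ν = ∫⁻ d, ∫⁻ y, F (mk α d y) ∂ν ∂L.mD :=
  lintegral_prod _ hF.aemeasurable

omit [AddCommGroup Y] [MeasurableAdd₂ Y] in
theorem lint_ms' (ν : Measure Y) [SFinite ν] (F : Skew L Y α → ℝ≥0∞) (hF : Measurable F) :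
    ∫⁻ x, F x ∂ms L α ν = ∫⁻ y, ∫⁻ d, F (mk α d y) ∂L.mD ∂ν :=
  lintegral_prod_symm _ hF.aemeasurable

instance (ν : Measure Y) [SFinite ν] [ν.IsAddRightInvariant] :
    SMulInvariantMeasure G (Skew L Y α) (ms L α ν) := ⟨by
  intro g s hs
  have m1 : Measurable (s.indicator (1 : Skew L Y α → ℝ≥0∞)) := measurable_one.indicator hs
  have m2 : Measurable fun d => ∫⁻ y, s.indicator (1 : Skew L Y α → ℝ≥0∞) (mk α d y) ∂ν :=
    (m1.comp (measurable_mk measurable_fst measurable_snd)).lintegral_prod_right'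
  rw [← lintegral_indicator_one hs, ← lintegral_indicator_one (measurable_const_smul g hs),
    lint_ms ν _ m1, lint_ms ν _ (measurable_one.indicator (measurable_const_smul g hs)),
    ← L.lint_r g _ m2]
  congr 1
  funext d
  exact lintegral_add_right_eq_self (μ := ν)
    (fun y => s.indicator (1 : Skew L Y α → ℝ≥0∞) (mk α (L.r (g * d)) y)) (L.β (g * d) • α)⟩

theorem unfold2 (w : G → ℝ≥0∞) (hw : Measurable w) (Ψ : Skew L Y α → ℝ≥0∞) (hΨ : Measurable Ψ)
    (d : L.DD) (y : Y) :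
    ∫⁻ g, w g * Ψ (g • mk α d y) ∂lam = L.vol * ∑' γ, ∫⁻ d' : L.DD,
      w (d' * L.ι γ * (d : G)⁻¹) * Ψ (mk α d' (y + L.φ γ • α)) ∂L.mD := by
  rw [← lintegral_mul_right_eq_self _ (d : G)⁻¹, L.unfold1]
  · simp only [smul_mk, inv_mul_cancel_right, LData.β, L.r_mul, L.c_mul]
  · exact (hw.mul (hΨ.comp (measurable_id.smul_const _))).comp (measurable_mul_const _)

end Skew

end Pool.Agent.MP_f2742c_an.Pf

end
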