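import Pool.Agent.MP_f2742c_an.Mg.Nash
import Pool.Agent.MP_f2742c_an.Mg.Skew

-- part MP_f2742c_an.Count
section

/-! Counting lattice points of bounded length on a level set of the homomorphism. -/

open Real MeasureTheory Set Filter Topology
open scoped ENNReal NNReal MatrixGroups InnerProductSpace

namespace Pool.Agent.MP_f2742c_an.Pf

variable {Γ : Type} [Group Γ] (L : LData Γ)

/-- number of lattice elements of length at most `R` on level `n` -/
noncomputable def LData.MM (R : ℝ) (n : ℤ) : ℝ≥0∞ :=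
  ∑' γ, ind (len (L.ι γ) ≤ R) * ind (L.φ γ = n)

theorem LData.tsum_MM (R : ℝ) (Φ : ℤ → ℝ≥0∞) :
    ∑' γ, ind (len (L.ι γ) ≤ R) * Φ (L.φ γ) = ∑' n, L.MM R n * Φ n := by
  simp only [LData.MM, ← ENNReal.tsum_mul_right]
  rw [ENNReal.tsum_comm]
  congr 1
  funext γ
  rw [tsum_eq_single (L.φ γ)]
  · rw [ind_pos rfl, mul_one]
  · intro n hn
    rw [ind_neg (Ne.symm hn), mul_zero, zero_mul]

theorem LData.split (R : ℝ) (u : Γ → ℝ≥0∞) :
    ∑' γ, ind (len (L.ι γ) ≤ R) * u γ ≤ ∑' a, ∑' b, ind (len (L.ι a) ≤ R / 2 + L.Δ) *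
      (ind (len (L.ι b) ≤ R / 2 + L.Δ) * u (a * b)) := by
  calc _ ≤ ∑' γ, ∑' a, ind (len (L.ι a) ≤ R / 2 + L.Δ) *
        (ind (len (L.ι (a⁻¹ * γ)) ≤ R / 2 + L.Δ) * u γ) := by
        refine ENNReal.tsum_le_tsum fun γ => ?_
        by_cases h : len (L.ι γ) ≤ R
        · obtain ⟨m, h1, h2⟩ := exists_midpoint (L.ι γ)
          obtain ⟨a, ha⟩ := L.cocpt m⁻¹
          refine le_trans (le_of_eq ?_) (ENNReal.le_tsum a)
          have h3 := len_mul_le m (m⁻¹ * L.ι a)
          have h4 := len_mul_le (m⁻¹ * L.ι a)⁻¹ (m⁻¹ * L.ι γ)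
          rw [mul_inv_cancel_left] at h3
          rw [len_inv, mul_inv_rev, inv_inv, mul_assoc, mul_inv_cancel_left, ← map_inv,
            ← map_mul] at h4
          rw [ind_pos h, ind_pos (by linarith), ind_pos (by linarith), one_mul, one_mul]
        · simp [ind_neg h]
    _ = _ := by
        rw [ENNReal.tsum_comm]
        congr 1
        funext a
        rw [← (Equiv.mulLeft a).tsum_eq]
        simp only [Equiv.coe_mulLeft, inv_mul_cancel_left]

theorem LData.MM_le_sq (R : ℝ) (n : ℤ) : L.MM R n ≤ ∑' j, L.MM (R / 2 + L.Δ) j ^ 2 := by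
  refine (L.split R _).trans ?_
  set s := R / 2 + L.Δ
  have e : ∀ a b, (L.φ (a * b) = n) = (L.φ b = n - L.φ a) := by
    intro a b
    rw [L.φ_mul]
    exact propext ⟨fun h => by omega, fun h => by omega⟩
  simp only [ENNReal.tsum_mul_left, e]
  refine (L.tsum_MM s fun j => L.MM s (n - j)).trans_le ?_
  rw [← ENNReal.mul_le_mul_iff_right (a := 2) (by simp) (by simp), ← ENNReal.tsum_mul_left,
    two_mul]
  calc _ ≤ ∑' j, (L.MM s j ^ 2 + L.MM s (n - j) ^ 2) := by
        refine ENNReal.tsum_le_tsum fun j => ?_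
        generalize L.MM s j = x
        generalize L.MM s (n - j) = y
        induction x with
        | top => simp
        | coe x =>
          induction y with
          | top => simp
          | coe y =>
            have h : 2 * (x * y) ≤ x ^ 2 + y ^ 2 := by
              have : (2 : ℝ) * (x * y) ≤ x ^ 2 + y ^ 2 := by nlinarith [sq_nonneg ((x : ℝ) - y)]
              exact_mod_cast this
            exact_mod_cast h
    _ = _ := by
        rw [ENNReal.tsum_add]
        congr 1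
        exact (Equiv.subLeft n).tsum_eq fun j => L.MM s j ^ 2

theorem LData.sq_MM_le (R : ℝ) (n : ℤ) (S : ℝ≥0∞) (hS : ∀ j, L.MM (R / 2 + L.Δ) j ≤ S) :
    (n.natAbs : ℝ≥0∞) ^ 2 * L.MM R n ≤ 4 * S *
      ∑' γ, ind (len (L.ι γ) ≤ R / 2 + L.Δ) * ((L.φ γ).natAbs : ℝ≥0∞) ^ 2 := by
  set s := R / 2 + L.Δ
  have h1 := L.split R fun γ => (n.natAbs : ℝ≥0∞) ^ 2 * ind (L.φ γ = n)
  simp only [← mul_assoc, mul_comm _ ((n.natAbs : ℝ≥0∞) ^ 2)] at h1
  simp only [mul_assoc, ENNReal.tsum_mul_left (a := (n.natAbs : ℝ≥0∞) ^ 2)] at h1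
  refine h1.trans ?_
  rw [← ENNReal.tsum_mul_left]
  simp only [← ENNReal.tsum_mul_left (a := (n.natAbs : ℝ≥0∞) ^ 2)]
  calc _ ≤ ∑' a, ∑' b, (2 * (ind (len (L.ι a) ≤ s) * ((L.φ a).natAbs : ℝ≥0∞) ^ 2) *
          (ind (len (L.ι b) ≤ s) * ind (L.φ b = n - L.φ a)) +
        2 * (ind (len (L.ι b) ≤ s) * ((L.φ b).natAbs : ℝ≥0∞) ^ 2) *
          (ind (len (L.ι a) ≤ s) * ind (L.φ a = n - L.φ b))) := by
        refine ENNReal.tsum_le_tsum fun a => ENNReal.tsum_le_tsum fun b => ?_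
        by_cases h : L.φ (a * b) = n
        · rw [L.φ_mul] at h
          have h2 : n.natAbs ^ 2 ≤ 2 * (L.φ a).natAbs ^ 2 + 2 * (L.φ b).natAbs ^ 2 := by
            zify
            simp only [sq_abs]
            rw [← h]
            nlinarith [sq_nonneg (L.φ a - L.φ b)]
          have h3 : (n.natAbs : ℝ≥0∞) ^ 2 ≤
            2 * ((L.φ a).natAbs : ℝ≥0∞) ^ 2 + 2 * ((L.φ b).natAbs : ℝ≥0∞) ^ 2 := by
            exact_mod_cast h2
          rw [ind_pos (p := L.φ b = _) (by omega), ind_pos (p := L.φ a = _) (by omega),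
            ind_pos (p := L.φ (a * b) = _) (by rw [L.φ_mul, h])]
          refine (mul_le_mul_left h3 _).trans (le_of_eq ?_)
          ring
        · simp [ind_neg h]
    _ ≤ ∑' a, 2 * (ind (len (L.ι a) ≤ s) * ((L.φ a).natAbs : ℝ≥0∞) ^ 2) * S +
        ∑' b, 2 * (ind (len (L.ι b) ≤ s) * ((L.φ b).natAbs : ℝ≥0∞) ^ 2) * S := by
        simp only [ENNReal.tsum_add]
        refine add_le_add ?_ ?_
        · refine ENNReal.tsum_le_tsum fun a => ?_
          rw [ENNReal.tsum_mul_left]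
          exact mul_le_mul_right (hS _) _
        · rw [ENNReal.tsum_comm]
          refine ENNReal.tsum_le_tsum fun a => ?_
          rw [ENNReal.tsum_mul_left]
          exact mul_le_mul_right (hS _) _
    _ = _ := by
        rw [ENNReal.tsum_mul_right, ENNReal.tsum_mul_left]
        ring

theorem enorm_avg_indicator {Z : Type*} [MeasurableSpace Z] [MulAction G Z] [MeasurableSMul₂ G Z]
    {S : Set Z} (hS : MeasurableSet S) {r : ℝ} (hr : 0 < r) (x : Z) :
    ENNReal.ofReal (VV r) * ‖avg r (S.indicator fun _ => (1 : ℂ)) x‖ₑ =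
      ∫⁻ g, {g | len g ≤ r}.indicator 1 g * S.indicator 1 (g • x) ∂lam := by
  have p := VV_pos hr
  have hT : MeasurableSet ((fun g : G => g • x) ⁻¹' S) := (measurable_id.smul_const x) hS
  have e1 : (fun g : G => S.indicator (fun _ => (1 : ℂ)) (g • x)) =
      ((fun g : G => g • x) ⁻¹' S).indicator fun _ => (1 : ℂ) := rfl
  have e2 : (fun g : G => {g | len g ≤ r}.indicator (1 : G → ℝ≥0∞) g * S.indicator 1 (g • x)) =
      ((fun g : G => g • x) ⁻¹' S ∩ {g | len g ≤ r}).indicator 1 := by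
    funext g
    rw [inter_indicator_one, Pi.mul_apply, mul_comm]
    rfl
  rw [avg, e1, e2, integral_indicator_const _ hT, lintegral_indicator_one
    (hT.inter (measurableSet_len r)), smul_smul, enorm_smul, enorm_one, mul_one,
    Real.enorm_of_nonneg (by positivity), ← ENNReal.ofReal_mul p.le, mul_inv_cancel_left₀ p.ne',
    ofReal_measureReal (μ := lam.restrict {g | len g ≤ r}) (measure_ne_top (bm r) _),
    Measure.restrict_apply hT]

/-- the level of a point -/
def Skew.lev {L : LData Γ} {Y : Type} {α : Y} (x : Skew L Y α) : Y := x.2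

theorem Skew.measurable_lev {L : LData Γ} {Y : Type} {α : Y} [MeasurableSpace Y] :
    Measurable (Skew.lev : Skew L Y α → Y) := measurable_snd

open Skew

/-- level zero -/
def LData.S0 : Set (Skew L ℤ 1) := {x | lev x = 0}

theorem LData.measurableSet_S0 : MeasurableSet L.S0 := measurable_lev (measurableSet_singleton 0)

theorem LData.indicator_S0 (d : L.DD) (n : ℤ) :
    L.S0.indicator (1 : Skew L ℤ 1 → ℝ≥0∞) (Skew.mk 1 d n) = ind (n = 0) := by
  by_cases h : n = 0
  · rw [ind_pos h, indicator_of_mem (show Skew.mk 1 d n ∈ L.S0 from h)]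
    rfl
  · rw [ind_neg h, indicator_of_notMem (show Skew.mk 1 d n ∉ L.S0 from h)]

theorem LData.ms_S0 : ms L (1 : ℤ) Measure.count L.S0 = 1 := by
  rw [← lintegral_indicator_one L.measurableSet_S0,
    lint_ms' _ _ (measurable_one.indicator L.measurableSet_S0), lintegral_count]
  simp only [L.indicator_S0, lintegral_const, measure_univ, mul_one]
  rw [tsum_eq_single 0 fun n hn => ind_neg hn, ind_pos rfl]

theorem LData.memLp_S0 : MemLp (L.S0.indicator fun _ => (1 : ℂ)) 2 (ms L (1 : ℤ) Measure.count) :=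
  memLp_indicator_const 2 L.measurableSet_S0 1 (Or.inr (by simp [L.ms_S0]))

theorem LData.lint_S0 (k : ℕ) (hk : k ≠ 0) :
    ∫⁻ x, ‖L.memLp_S0.toLp _ x‖ₑ ^ k ∂ms L (1 : ℤ) Measure.count = 1 := by
  rw [← L.ms_S0, ← lintegral_indicator_one L.measurableSet_S0]
  apply lintegral_congr_ae
  filter_upwards [L.memLp_S0.coeFn_toLp] with x hx
  rw [hx]
  by_cases h : x ∈ L.S0 <;> simp [h, hk]

theorem LData.norm_S0 : ‖L.memLp_S0.toLp _‖ ^ 2 = 1 := by
  have := lint_sq (L.memLp_S0.toLp _)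
  rw [L.lint_S0 2 two_ne_zero] at this
  exact ENNReal.ofReal_eq_one.mp this.symm

theorem LData.decay : ∃ C : ℝ, 0 ≤ C ∧ ∀ k : ℕ,
    (k + 1) * (‖((lazy (WW (ms L (1 : ℤ) Measure.count)) L.aa) ^ k) (L.memLp_S0.toLp _)‖ ^ 2) ^ 2 ≤ C := by
  set m := ms L (1 : ℤ) Measure.count
  set P := lazy (WW m) L.aa with hP
  set f := L.memLp_S0.toLp _
  have ha : 0 < L.aa := by linarith [L.le_aa]
  have p := om_real_pos ha
  have hκ : 0 < L.kk.toReal := ENNReal.toReal_pos L.kk_ne_zero L.kk_ne_top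
  have s1 : ∀ g, ‖P g‖ ^ 2 ≤ (‖g‖ ^ 2 + (⟪nrm (WW m) L.aa g, g⟫_ℂ).re) / 2 := by
    intro g
    have h1 := pow_le_pow_left₀ (norm_nonneg _) (norm_nrm_le m ha g) 2
    rw [hP, norm_lazy_sq]
    linarith
  have s2 : ∀ k, ‖(P ^ k) f‖ ^ 2 ≤ 1 := by
    intro k
    induction k with
    | zero => exact L.norm_S0.le
    | succ k ih =>
      rw [pow_succ' P, mul_apply_eq_comp]
      linarith [s1 ((P ^ k) f), re_inner_nrm_le m ha ((P ^ k) f)]
  have s3 : ∀ k, ∫⁻ x, ‖(P ^ k) f x‖ₑ ∂m ≤ 1 := by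
    intro k
    induction k with
    | zero => simpa using (L.lint_S0 1 one_ne_zero).le
    | succ k ih =>
      rw [pow_succ', mul_apply_eq_comp]
      exact (lint_lazy_le m ha _).trans ih
  have h := decay_abs (fun k => ‖(P ^ k) f‖ ^ 2) (fun k => by positivity) s2
    (c := 12 * (om L.aa).real univ / L.kk.toReal) (by positivity) ?_
  · refine ⟨216 * (12 * (om L.aa).real univ / L.kk.toReal) + 1, by positivity, fun k => ?_⟩
    have h1 := h k
    have h2 := pow_le_one₀ (n := 2) (by positivity) (s2 k)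
    linarith
  intro k N hN
  set g := (P ^ k) f
  have hg : Measurable g := (Lp.stronglyMeasurable g).measurable
  have h1 := nash_abs L.mD (fun n d => g (Skew.mk 1 d n))
    (fun n => hg.comp (measurable_mk measurable_id measurable_const))
    (by rw [← lintegral_count, ← lint_ms' _ _ hg.enorm]; exact s3 k) N hN
  have h2 := Dir_ge' Measure.count hg
  rw [lintegral_count, Dir_eq m ha] at h2
  rw [← lintegral_count (f := fun n => ∫⁻ d, ‖g (Skew.mk 1 d n)‖ₑ ^ 2 ∂L.mD),
    ← lint_ms' _ _ (hg.enorm.pow_const 2), lint_sq] at h1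
  have h3 := re_inner_nrm_le m ha g
  have h4 : L.kk * (N * ENNReal.ofReal (‖g‖ ^ 2)) ≤ L.kk * 4 + 3 * N ^ 3 * ENNReal.ofReal
      (2 * (om L.aa).real univ * (‖g‖ ^ 2 - (⟪nrm (WW m) L.aa g, g⟫_ℂ).re)) := by
    refine (mul_le_mul_right h1 L.kk).trans ?_
    rw [mul_add, mul_left_comm]
    exact add_le_add_right (mul_le_mul_right h2 _) _
  have h5 := ENNReal.toReal_mono (ENNReal.add_ne_top.mpr
    ⟨ENNReal.mul_ne_top L.kk_ne_top (by simp),
      ENNReal.mul_ne_top (by finiteness) ENNReal.ofReal_ne_top⟩) h4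
  rw [ENNReal.toReal_add (ENNReal.mul_ne_top L.kk_ne_top (by simp))
    (ENNReal.mul_ne_top (by finiteness) ENNReal.ofReal_ne_top)] at h5
  simp only [ENNReal.toReal_mul, ENNReal.toReal_natCast, ENNReal.toReal_pow,
    ENNReal.toReal_ofNat] at h5
  rw [ENNReal.toReal_ofReal (by positivity),
    ENNReal.toReal_ofReal (mul_nonneg (by positivity) (by linarith))] at h5
  have h6 := s1 g
  rw [pow_succ' P, mul_apply_eq_comp]
  refine le_of_mul_le_mul_left (h5.trans ?_) hκ
  have h7 := mul_le_mul_of_nonneg_left h6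
    (by positivity : 0 ≤ 12 * (N : ℝ) ^ 3 * (om L.aa).real univ)
  field_simp
  linarith

theorem VV_le_exp {r : ℝ} (hr : 0 ≤ r) : VV r ≤ 2 * π * exp r := by
  have h1 : cosh r ≤ exp r := by
    rw [cosh_eq]
    linarith [exp_le_exp.mpr (by linarith : -r ≤ r)]
  unfold VV
  gcongr
  linarith

theorem LData.sum_sq_MM : ∃ C : ℝ≥0∞, C ≠ ∞ ∧ ∀ s, 0 < s →
    ENNReal.ofReal √s * ∑' n, L.MM s n ^ 2 ≤ C * ENNReal.ofReal (exp (2 * s)) := by
  obtain ⟨C, hC0, hC⟩ := L.decay
  have ha : 0 < L.aa := by linarith [L.le_aa]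
  have hΔ := L.Δ_nonneg
  refine ⟨(L.vol ^ 2)⁻¹ * ENNReal.ofReal ((8 * √(2 * L.aa * C) + 34) *
    (2 * π * exp (2 * L.Δ)) ^ 2), ENNReal.mul_ne_top
      (ENNReal.inv_ne_top.mpr (pow_ne_zero _ L.vol_ne_zero)) ENNReal.ofReal_ne_top,
      fun s hs => ?_⟩
  set r := s + 2 * L.Δ with hr
  have hr0 : 0 < r := by linarith
  have h1 := avg_sq_le (ms L (1 : ℤ) Measure.count) L.memLp_S0 L.le_aa hr0 ⌊r / (2 * L.aa)⌋₊ (by
    have := Nat.floor_le (by positivity : 0 ≤ r / (2 * L.aa))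
    rw [le_div_iff₀ (by positivity)] at this
    linarith)
  have h2 := hC ⌊r / (2 * L.aa)⌋₊
  have h3 := Nat.lt_floor_add_one (r / (2 * L.aa))
  rw [L.norm_S0] at h1
  have hx := sq_nonneg ‖((lazy (WW (ms L (1 : ℤ) Measure.count)) L.aa) ^ ⌊r / (2 * L.aa)⌋₊)
    (L.memLp_S0.toLp _)‖
  generalize ‖((lazy (WW (ms L (1 : ℤ) Measure.count)) L.aa) ^ ⌊r / (2 * L.aa)⌋₊)
    (L.memLp_S0.toLp _)‖ ^ 2 = x at h1 h2 hx
  rw [div_lt_iff₀ (by positivity)] at h3
  have h4 : √s * x ≤ √(2 * L.aa * C) := by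
    apply le_sqrt_of_sq_le
    rw [mul_pow, sq_sqrt hs.le]
    have h5 := mul_le_mul_of_nonneg_left h2 (by positivity : 0 ≤ 2 * L.aa)
    have h6 : s ≤ (⌊r / (2 * L.aa)⌋₊ + 1) * (2 * L.aa) := by linarith
    nlinarith [mul_le_mul_of_nonneg_right h6 (sq_nonneg x)]
  have h5 : √s * exp (-(r / 4)) ≤ 1 := by
    rw [exp_neg, ← div_eq_mul_inv, div_le_one (exp_pos _)]
    have h6 := add_one_le_exp (r / 4)
    nlinarith [sq_sqrt hs.le, sq_nonneg (√s / 2 - 1)]
  have h6 : ∀ n : ℤ, ∀ d : L.DD, L.vol * L.MM s (-n) ≤ ENNReal.ofReal (VV r) *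
      ‖avg r (L.S0.indicator fun _ => (1 : ℂ)) (Skew.mk 1 d n)‖ₑ := by
    intro n d
    rw [enorm_avg_indicator L.measurableSet_S0 hr0]
    refine le_trans (le_of_eq ?_) (unfold_ge _ (measurable_one.indicator (measurableSet_len r)) 1 s
      (fun g hg => by rw [indicator_of_mem (show g ∈ {g | len g ≤ r} from hg)]; rfl) _
      (measurable_one.indicator L.measurableSet_S0) d n)
    simp only [L.indicator_S0, lintegral_const, measure_univ, mul_one, LData.MM, smul_eq_mul]
    congr 2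
    funext γ
    congr 2
    exact propext ⟨fun h => by omega, fun h => by omega⟩
  have h7 : L.vol ^ 2 * ∑' n, L.MM s n ^ 2 ≤ ENNReal.ofReal (VV r) ^ 2 *
      ∫⁻ x, ‖avg r (L.S0.indicator fun _ => (1 : ℂ)) x‖ₑ ^ 2 ∂ms L (1 : ℤ) Measure.count := by
    rw [lint_ms' _ _ ((measurable_avg (measurable_const.indicator L.measurableSet_S0)
      r).enorm.pow_const 2), lintegral_count, ← ENNReal.tsum_mul_left, ← ENNReal.tsum_mul_left,
      ← (Equiv.neg ℤ).tsum_eq]
    refine ENNReal.tsum_le_tsum fun n => ?_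
    rw [← lintegral_const_mul' _ _ (by finiteness)]
    refine le_trans (le_of_eq ?_) (lintegral_mono fun d => ?_ :
      ∫⁻ _d, (L.vol * L.MM s (-n)) ^ 2 ∂L.mD ≤ _)
    · simp [mul_pow]
    · rw [← mul_pow]
      exact pow_le_pow_left' (h6 n d) 2
  rw [mul_assoc, ← ENNReal.mul_le_mul_iff_right (a := L.vol ^ 2) (pow_ne_zero _ L.vol_ne_zero)
    (ENNReal.pow_ne_top L.vol_ne_top), ← mul_assoc (L.vol ^ 2) _⁻¹,
    ENNReal.mul_inv_cancel (pow_ne_zero _ L.vol_ne_zero) (ENNReal.pow_ne_top L.vol_ne_top),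
    one_mul, mul_left_comm]
  refine (mul_le_mul_right (h7.trans (mul_le_mul_right h1 _)) _).trans ?_
  rw [← ENNReal.ofReal_pow (VV_nonneg r), mul_left_comm, ← ENNReal.ofReal_mul (sqrt_nonneg s),
    ← ENNReal.ofReal_mul (by positivity), ← ENNReal.ofReal_mul (by positivity)]
  apply ENNReal.ofReal_le_ofReal
  have h8 := pow_le_pow_left₀ (VV_nonneg r) (VV_le_exp hr0.le) 2
  have e : (2 * π * exp r) ^ 2 = (2 * π * exp (2 * L.Δ)) ^ 2 * exp (2 * s) := by
    rw [hr, exp_add, two_mul s, exp_add]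
    ring
  rw [mul_assoc (8 * _ + 34), ← e, mul_comm (8 * _ + 34)]
  exact mul_le_mul h8 (by linarith) (by positivity) (by positivity)

theorem LData.MM_le : ∃ C : ℝ≥0∞, C ≠ ∞ ∧ ∀ R, 0 < R → ∀ n,
    ENNReal.ofReal √R * L.MM R n ≤ C * ENNReal.ofReal (exp R) := by
  obtain ⟨C, hC0, hC⟩ := L.sum_sq_MM
  have hΔ := L.Δ_nonneg
  refine ⟨2 * C * ENNReal.ofReal (exp (2 * L.Δ)), by finiteness, fun R hR n => ?_⟩
  have h1 := hC (R / 2 + L.Δ) (by positivity)
  have h2 : ENNReal.ofReal √R ≤ 2 * ENNReal.ofReal √(R / 2 + L.Δ) := by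
    rw [← ENNReal.ofReal_ofNat, ← ENNReal.ofReal_mul (by norm_num)]
    apply ENNReal.ofReal_le_ofReal
    apply sqrt_le_iff.mpr ⟨by positivity, ?_⟩
    rw [mul_pow, sq_sqrt (by positivity)]
    linarith
  refine (mul_le_mul' h2 (L.MM_le_sq R n)).trans ?_
  rw [mul_assoc, mul_assoc, mul_assoc, ← ENNReal.ofReal_mul (exp_pos _).le, ← exp_add,
    show 2 * L.Δ + R = 2 * (R / 2 + L.Δ) by ring]
  exact mul_le_mul_right h1 _

end Pool.Agent.MP_f2742c_an.Pf

end

-- part MP_f2742c_an.Moment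
section

/-! Second moment of the homomorphism on balls, and the resulting local bounds. -/

open Real MeasureTheory Set Filter Topology
open scoped ENNReal NNReal MatrixGroups InnerProductSpace

namespace Pool.Agent.MP_f2742c_an.Pf

scoped instance probCircle : IsProbabilityMeasure (volume : Measure UnitAddCircle) :=
  ⟨UnitAddCircle.measure_univ⟩

/-- chord length -/
noncomputable def ee (x : ℝ) : ℝ := ‖Complex.exp (Complex.I * (2 * π * x : ℝ)) - 1‖

theorem ee_nonneg (x : ℝ) : 0 ≤ ee x := norm_nonneg _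

theorem ee_le (x : ℝ) : ee x ≤ 2 * π * |x| := by
  refine norm_exp_I_mul_ofReal_sub_one_le.trans (le_of_eq ?_)
  rw [Real.norm_eq_abs, abs_mul, abs_of_pos (by positivity)]

theorem le_ee {x : ℝ} (hx : |x| ≤ 1 / 2) : 4 * |x| ≤ ee x := by
  rw [ee, Complex.norm_exp_I_mul_ofReal_sub_one, Real.norm_eq_abs, abs_mul,
    show 2 * π * x / 2 = π * x by ring]
  have h1 : |π * x| = π * |x| := by rw [abs_mul, abs_of_pos pi_pos]
  have h2 := mul_abs_le_abs_sin (x := π * x) (by rw [h1]; nlinarith [pi_pos])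
  rw [h1, ← mul_assoc, div_mul_cancel₀ _ pi_pos.ne'] at h2
  rw [abs_two]
  linarith

theorem ee_add_int (x : ℝ) (n : ℤ) : ee (x + n) = ee x := by
  unfold ee
  rw [show Complex.I * (2 * π * (x + n) : ℝ) = Complex.I * (2 * π * x : ℝ) +
    n * (2 * π * Complex.I) by push_cast; ring, Complex.exp_add,
    Complex.exp_int_mul_two_pi_mul_I, mul_one]

theorem norm_fourier_sub (k n : ℤ) (θ : ℝ) (y : UnitAddCircle) :
    ‖fourier k (y + n • (θ : UnitAddCircle)) - fourier k y‖ = ee (n * (k * θ)) := by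
  have h1 : fourier k (y + n • (θ : UnitAddCircle)) =
      fourier k y * fourier k (n • (θ : UnitAddCircle)) := by
    simp only [fourier_apply, smul_add, AddCircle.toCircle_add, Circle.coe_mul]
  rw [h1, ← mul_sub_one, norm_mul, show ‖fourier k y‖ = 1 from Circle.norm_coe _, one_mul,
    ← AddCircle.coe_zsmul, fourier_coe_apply, ee]
  congr 3
  simp only [zsmul_eq_mul]
  push_cast
  ring

variable {Γ : Type} [Group Γ] (L : LData Γ)

open Skew

/-- characters of the circle factor -/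
noncomputable def LData.ch (θ : ℝ) (k : ℤ) (x : Skew L UnitAddCircle θ) : ℂ := fourier k (lev x)

theorem LData.measurable_ch (θ : ℝ) (k : ℤ) : Measurable (L.ch θ k) :=
  (fourier k).continuous.measurable.comp measurable_lev

theorem LData.norm_ch (θ : ℝ) (k : ℤ) (x : Skew L UnitAddCircle θ) : ‖L.ch θ k x‖ = 1 :=
  Circle.norm_coe _

theorem LData.memLp_ch (θ : ℝ) (k : ℤ) : MemLp (L.ch θ k) 2 (ms L (θ : UnitAddCircle) volume) :=
  MemLp.of_bound (L.measurable_ch θ k).aestronglyMeasurable 1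
    (ae_of_all _ fun x => (L.norm_ch θ k x).le)

theorem LData.norm_ch_sub (θ : ℝ) (k : ℤ) (g : G) (x : Skew L UnitAddCircle θ) :
    ‖L.ch θ k (g • x) - L.ch θ k x‖ = ee (L.β (g * x.1) * (k * θ)) :=
  norm_fourier_sub k _ θ _

theorem LData.Dir_ch_le {a : ℝ} (ha : 0 ≤ a) {K : ℕ}
    (hK : ∀ g, len g ≤ a → ∀ d : L.DD, |L.β (g * d)| ≤ K) (θ : ℝ) :
    Dir (ms L (θ : UnitAddCircle) volume) a (L.ch θ 1) ≤
      ENNReal.ofReal ((2 * π * K * θ) ^ 2) * om a univ := by
  rw [Dir, ← lintegral_const]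
  apply lintegral_mono_ae
  have hw : Measurable (wG a) := measurable_wG measurable_const measurable_id
  rw [om, ae_withDensity_iff hw]
  refine ae_of_all _ fun g hg => ?_
  have h1 : len g ≤ a := by
    by_contra h
    exact hg (wG_eq_zero ha (not_le.mp h).le)
  refine (lintegral_mono fun x => ?_).trans (le_of_eq (by simp) :
    ∫⁻ _x, ENNReal.ofReal ((2 * π * K * θ) ^ 2) ∂ms L (θ : UnitAddCircle) volume ≤ _)
  rw [← ofReal_norm, ← ENNReal.ofReal_pow (norm_nonneg _), L.norm_ch_sub]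
  apply ENNReal.ofReal_le_ofReal
  have h2 : |(L.β (g * x.1) : ℝ)| ≤ K := by exact_mod_cast hK g h1 x.1
  have h3 := ee_le (L.β (g * x.1) * ((1 : ℤ) * θ))
  rw [← sq_abs (2 * π * K * θ)]
  refine pow_le_pow_left₀ (norm_nonneg _) (h3.trans ?_) 2
  rw [Int.cast_one, one_mul, abs_mul, abs_mul, abs_of_nonneg (by positivity : 0 ≤ 2 * π * K),
    mul_assoc (2 * π)]
  gcongr

theorem LData.second_moment : ∃ C : ℝ≥0∞, C ≠ ∞ ∧ ∀ s, 1 ≤ s →
    ∑' γ, ind (len (L.ι γ) ≤ s) * ((L.φ γ).natAbs : ℝ≥0∞) ^ 2 ≤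
      C * ENNReal.ofReal s * ENNReal.ofReal (exp s) := by
  have ha : 0 < L.aa := by linarith [L.le_aa]
  have hΔ := L.Δ_nonneg
  obtain ⟨K, hK⟩ := L.exists_bound L.aa
  refine ⟨L.vol⁻¹ * ENNReal.ofReal ((6 + 2 * L.Δ) * (√2 * π) * exp (2 * L.Δ + 1) * (π * K) ^ 2),
    ENNReal.mul_ne_top (ENNReal.inv_ne_top.mpr L.vol_ne_zero) ENNReal.ofReal_ne_top,
    fun s hs => ?_⟩
  obtain ⟨M, hM⟩ := ((L.fin s).image fun γ => (L.φ γ).natAbs).bddAbove
  set θ : ℝ := 1 / (2 * (M + 1)) with hθ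
  have hθ0 : 0 < θ := by positivity
  set t := s + 2 * L.Δ + 1 with ht
  have ht0 : 0 < t := by linarith
  set S := ∑' γ, ind (len (L.ι γ) ≤ s) * ((L.φ γ).natAbs : ℝ≥0∞) ^ 2 with hS
  have h1 := Dir_ge (L := L) (ρ := s) (t := t) volume (by linarith) (L.measurable_ch θ 1)
  have h2 := Dir_le_Dir _ L.le_aa ht0 ((L.memLp_ch θ 1).toLp _)
  rw [Dir_congr _ _ (L.memLp_ch θ 1).coeFn_toLp, Dir_congr _ _ (L.memLp_ch θ 1).coeFn_toLp] at h2
  have h3 := h2.trans (mul_le_mul_right (L.Dir_ch_le ha.le hK θ) _)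
  rw [← mul_assoc, mul_comm (om L.aa univ), ENNReal.mul_le_mul_iff_left
    (ENNReal.toReal_pos_iff.mp (om_real_pos ha)).1.ne'
    (measure_ne_top _ _)] at h3
  have h4 : ENNReal.ofReal (16 * θ ^ 2) * S ≤ ∫⁻ y : UnitAddCircle, ∫⁻ d, ∑' γ,
      ind (len (L.ι γ) ≤ s) * ∫⁻ d', ‖L.ch θ 1 (Skew.mk (θ : UnitAddCircle) d'
        (y + L.φ γ • (θ : UnitAddCircle))) - L.ch θ 1 (Skew.mk (θ : UnitAddCircle) d y)‖ₑ ^ 2 ∂L.mD ∂L.mD := by
    have e : ∀ (y : UnitAddCircle) (d d' : L.DD) (γ : Γ),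
        ‖L.ch θ 1 (Skew.mk (θ : UnitAddCircle) d' (y + L.φ γ • (θ : UnitAddCircle))) -
          L.ch θ 1 (Skew.mk (θ : UnitAddCircle) d y)‖ₑ =
          ENNReal.ofReal (ee (L.φ γ * ((1 : ℤ) * θ))) := by
      intro y d d' γ
      rw [← ofReal_norm, ← norm_fourier_sub 1 (L.φ γ) θ y]
      rfl
    simp only [e, lintegral_const, measure_univ, mul_one]
    rw [hS, ← ENNReal.tsum_mul_left]
    refine ENNReal.tsum_le_tsum fun γ => ?_
    by_cases h : len (L.ι γ) ≤ s
    · have h5 : ((L.φ γ).natAbs : ℝ) ≤ M := by exact_mod_cast hM ⟨γ, h, rfl⟩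
      have h6 : |(L.φ γ : ℝ) * ((1 : ℤ) * θ)| = (L.φ γ).natAbs * θ := by
        rw [Int.cast_one, one_mul, abs_mul, abs_of_pos hθ0, Nat.cast_natAbs, Int.cast_abs]
      have h7 := le_ee (x := (L.φ γ : ℝ) * ((1 : ℤ) * θ)) (by
        rw [h6, hθ, mul_one_div, div_le_div_iff₀ (by positivity) (by norm_num)]
        linarith)
      rw [mul_left_comm, ← ENNReal.ofReal_natCast, ← ENNReal.ofReal_pow (by positivity),
        ← ENNReal.ofReal_mul (by positivity), ← ENNReal.ofReal_pow (ee_nonneg _)]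
      refine mul_le_mul_right (ENNReal.ofReal_le_ofReal ?_) _
      rw [h6] at h7
      refine le_trans (le_of_eq (by ring)) (pow_le_pow_left₀ (by positivity) h7 2)
    · simp [ind_neg h]
  have h5 := ((mul_le_mul_right h4 _).trans h1).trans h3
  have pc := sqrt_pos.mpr (cosh_pos t)
  rw [mul_assoc, mul_assoc, ← ENNReal.mul_le_mul_iff_right L.vol_ne_zero L.vol_ne_top,
    ← mul_assoc L.vol L.vol⁻¹, ENNReal.mul_inv_cancel L.vol_ne_zero L.vol_ne_top, one_mul,
    ← ENNReal.mul_le_mul_iff_right (a := ENNReal.ofReal ((√(cosh t))⁻¹ * (16 * θ ^ 2)))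
      (by simp only [ne_eq, ENNReal.ofReal_eq_zero, not_le]; positivity) ENNReal.ofReal_ne_top]
  refine le_trans (le_of_eq ?_) (h5.trans ?_)
  · rw [ENNReal.ofReal_mul (by positivity)]
    ring
  rw [om_univ ht0.le, ← ENNReal.ofReal_mul (by positivity), ← ENNReal.ofReal_mul
    (mul_nonneg (by positivity) (by have := sinh_pos_iff.mpr (half_pos ht0); positivity)),
    ← ENNReal.ofReal_mul (by positivity), ← ENNReal.ofReal_mul (by positivity),
    ← ENNReal.ofReal_mul (by positivity)]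
  apply ENNReal.ofReal_le_ofReal
  rw [mul_assoc (√(cosh t))⁻¹, le_inv_mul_iff₀ pc]
  have b1 : √(cosh t) ≤ exp (t / 2) := by
    apply sqrt_le_iff.mpr ⟨(exp_pos _).le, ?_⟩
    rw [sq, ← exp_add, add_halves, cosh_eq]
    linarith [exp_le_exp.mpr (by linarith : -t ≤ t)]
  have b2 : sinh (t / 2) ≤ exp (t / 2) := by
    rw [sinh_eq]
    linarith [exp_pos (t / 2), exp_pos (-(t / 2))]
  have b3 : 4 + t ≤ (6 + 2 * L.Δ) * s := by nlinarith
  have b4 : exp (t / 2) * exp (t / 2) = exp (2 * L.Δ + 1) * exp s := by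
    rw [← exp_add, ← exp_add, add_halves, ht]
    congr 1
    ring
  have b5 := (sinh_pos_iff.mpr (half_pos ht0)).le
  calc √(cosh t) * ((4 + t) * (√2 * π * (4 * sinh (t / 2))) * (2 * π * K * θ) ^ 2)
      ≤ exp (t / 2) * (((6 + 2 * L.Δ) * s) * (√2 * π * (4 * exp (t / 2))) *
        (2 * π * K * θ) ^ 2) := by gcongr
    _ = (exp (t / 2) * exp (t / 2)) * (((6 + 2 * L.Δ) * s) * (√2 * π * 4) *
        (2 * π * K * θ) ^ 2) := by ring
    _ = _ := by
      rw [b4]
      ring

theorem LData.sq_MM_le' : ∃ C : ℝ≥0∞, C ≠ ∞ ∧ ∀ R, 2 ≤ R → ∀ n : ℤ,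
    (n.natAbs : ℝ≥0∞) ^ 2 * L.MM R n ≤ C * ENNReal.ofReal √R * ENNReal.ofReal (exp R) := by
  obtain ⟨C1, hC1, h1⟩ := L.MM_le
  obtain ⟨C2, hC2, h2⟩ := L.second_moment
  have hΔ := L.Δ_nonneg
  refine ⟨4 * C1 * C2 * ENNReal.ofReal (√(1 + L.Δ) * exp (2 * L.Δ)), by finiteness,
    fun R hR n => ?_⟩
  set s := R / 2 + L.Δ with hs
  have hs1 : 1 ≤ s := by linarith
  have p : 0 < √s := sqrt_pos.mpr (by linarith)
  have h3 := L.sq_MM_le R n (ENNReal.ofReal (√s)⁻¹ * (C1 * ENNReal.ofReal (exp s))) fun j => by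
    refine le_trans (le_of_eq ?_) (mul_le_mul_right (h1 s (by linarith) j) _)
    rw [← mul_assoc, ← ENNReal.ofReal_mul (by positivity), inv_mul_cancel₀ p.ne',
      ENNReal.ofReal_one, one_mul]
  refine (h3.trans (mul_le_mul_right (h2 s hs1) _)).trans ?_
  have h4 : (√s)⁻¹ * exp s * s * exp s ≤ √(1 + L.Δ) * exp (2 * L.Δ) * √R * exp R := by
    have e1 : (√s)⁻¹ * s = √s := by
      rw [inv_mul_eq_div, div_sqrt]
    have e2 : exp s * exp s = exp (2 * L.Δ) * exp R := by
      rw [← exp_add, ← exp_add, hs]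
      congr 1
      ring
    have e3 : √s ≤ √(1 + L.Δ) * √R := by
      rw [← sqrt_mul (by positivity)]
      apply sqrt_le_sqrt
      nlinarith
    calc _ = (√s)⁻¹ * s * (exp s * exp s) := by ring
      _ ≤ √(1 + L.Δ) * √R * (exp (2 * L.Δ) * exp R) := by
        rw [e1, e2]
        gcongr
      _ = _ := by ring
  have h5 := mul_le_mul_right (ENNReal.ofReal_le_ofReal h4) (4 * C1 * C2)
  rw [ENNReal.ofReal_mul (by positivity), ENNReal.ofReal_mul (by positivity),
    ENNReal.ofReal_mul (by positivity), ENNReal.ofReal_mul (by positivity),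
    ENNReal.ofReal_mul (by positivity)] at h5
  refine le_trans (le_of_eq ?_) (h5.trans (le_of_eq ?_)) <;> ring

theorem weighted (m Φ : ℕ → ℝ≥0∞) (N : ℕ) (hN : 0 < N) (A l : ℝ≥0∞) (h1 : ∀ n, N * m n ≤ A)
    (h2 : ∀ n : ℕ, (n : ℝ≥0∞) ^ 2 * m n ≤ N * A)
    (h3 : ∀ k : ℕ, ∑ n ∈ Finset.range k, Φ n ≤ l * k) : ∑' n, m n * Φ n ≤ 8 * A * l := by
  have hN0 : (N : ℝ≥0∞) ≠ 0 := by simpa using hN.ne'
  have s1 : ∀ n, N * m n ≤ ∑' j : ℕ, 4 * A * (2⁻¹ ^ j) ^ 2 * ind (n < 2 ^ j * N) := by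
    intro n
    have hex : ∃ j, n < 2 ^ j * N :=
      ⟨n, n.lt_two_pow_self.trans_le (Nat.le_mul_of_pos_right _ hN)⟩
    refine le_trans ?_ (ENNReal.le_tsum (Nat.find hex))
    rw [ind_pos (Nat.find_spec hex), mul_one]
    cases h : Nat.find hex with
    | zero =>
      refine (h1 n).trans ?_
      simp only [pow_zero, one_pow, mul_one]
      exact le_mul_of_one_le_left zero_le (by norm_num)
    | succ j =>
      have h4 : 2 ^ j * N ≤ n := not_lt.mp (Nat.find_min hex (by omega))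
      have h5 : ((2 : ℝ≥0∞) ^ j * N) ^ 2 ≤ (n : ℝ≥0∞) ^ 2 :=
        pow_le_pow_left' (by exact_mod_cast h4) 2
      have h6 := (mul_le_mul_left h5 _).trans (h2 n)
      rw [← ENNReal.mul_le_mul_iff_right (a := (2 ^ j) ^ 2 * N) (by positivity) (by finiteness)]
      refine le_trans (le_of_eq (by ring)) (h6.trans (le_of_eq ?_))
      have e : (2 : ℝ≥0∞) ^ (j + 1) * 2⁻¹ ^ (j + 1) = 1 := by
        rw [← mul_pow, ENNReal.mul_inv_cancel (by simp) (by simp), one_pow]
      calc (N : ℝ≥0∞) * A = ((2 : ℝ≥0∞) ^ (j + 1) * 2⁻¹ ^ (j + 1)) ^ 2 * (N * A) := by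
            rw [e, one_pow, one_mul]
        _ = _ := by ring
  rw [← ENNReal.mul_le_mul_iff_right hN0 (by simp), ← ENNReal.tsum_mul_left]
  calc _ ≤ ∑' n, ∑' j : ℕ, 4 * A * (2⁻¹ ^ j) ^ 2 * (ind (n < 2 ^ j * N) * Φ n) := by
        refine ENNReal.tsum_le_tsum fun n => ?_
        rw [← mul_assoc]
        refine (mul_le_mul_left (s1 n) _).trans (le_of_eq ?_)
        simp only [← ENNReal.tsum_mul_right, mul_assoc]
    _ ≤ ∑' j : ℕ, 4 * A * l * N * 2⁻¹ ^ j := by
        rw [ENNReal.tsum_comm]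
        refine ENNReal.tsum_le_tsum fun j => ?_
        rw [ENNReal.tsum_mul_left, tsum_eq_sum (s := Finset.range (2 ^ j * N))
          fun n hn => by rw [ind_neg (by simpa using hn), zero_mul],
          Finset.sum_congr rfl fun n hn => by rw [ind_pos (Finset.mem_range.mp hn), one_mul]]
        refine (mul_le_mul_right (h3 _) _).trans (le_of_eq ?_)
        have e : (2 : ℝ≥0∞) ^ j * 2⁻¹ ^ j = 1 := by
          rw [← mul_pow, ENNReal.mul_inv_cancel (by simp) (by simp), one_pow]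
        push_cast
        calc _ = ((2 : ℝ≥0∞) ^ j * 2⁻¹ ^ j) * (4 * A * l * N * 2⁻¹ ^ j) := by ring
          _ = _ := by rw [e, one_mul]
    _ = _ := by
        rw [ENNReal.tsum_mul_left, ENNReal.tsum_geometric_two]
        ring

theorem LData.ball_sum : ∃ C : ℝ≥0∞, C ≠ ∞ ∧ ∀ R, 2 ≤ R → ∀ (Φ : ℤ → ℝ≥0∞) (l : ℝ≥0∞),
    (∀ k : ℕ, ∑ n ∈ Finset.range k, Φ n ≤ l * k) →
    (∀ k : ℕ, ∑ n ∈ Finset.range k, Φ (-n) ≤ l * k) →
    ∑' γ, ind (len (L.ι γ) ≤ R) * Φ (L.φ γ) ≤ C * ENNReal.ofReal (exp R) * l := by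
  obtain ⟨C1, hC1, h1⟩ := L.MM_le
  obtain ⟨C2, hC2, h2⟩ := L.sq_MM_le'
  refine ⟨16 * (2 * C1 + C2), by finiteness, fun R hR Φ l hp hm => ?_⟩
  have b0 : 1 ≤ √R := one_le_sqrt.mpr (by linarith)
  have b1 : ENNReal.ofReal √R ≤ ⌈√R⌉₊ := by
    rw [← ENNReal.ofReal_natCast]
    exact ENNReal.ofReal_le_ofReal (Nat.le_ceil _)
  have b2 : (⌈√R⌉₊ : ℝ≥0∞) ≤ 2 * ENNReal.ofReal √R := by
    rw [← ENNReal.ofReal_natCast, ← ENNReal.ofReal_ofNat, ← ENNReal.ofReal_mul (by norm_num)]
    apply ENNReal.ofReal_le_ofReal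
    linarith [Nat.ceil_lt_add_one (sqrt_nonneg R)]
  have hN : 0 < ⌈√R⌉₊ := Nat.ceil_pos.mpr (by linarith)
  have s1 : ∀ n, ⌈√R⌉₊ * L.MM R n ≤ (2 * C1 + C2) * ENNReal.ofReal (exp R) := by
    intro n
    refine (mul_le_mul_left b2 _).trans ?_
    rw [mul_assoc]
    refine (mul_le_mul_right (h1 R (by linarith) n) _).trans ?_
    rw [← mul_assoc]
    exact mul_le_mul_left le_self_add _
  have s2 : ∀ n : ℤ, (n.natAbs : ℝ≥0∞) ^ 2 * L.MM R n ≤
      ⌈√R⌉₊ * ((2 * C1 + C2) * ENNReal.ofReal (exp R)) := by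
    intro n
    refine (h2 R hR n).trans ?_
    rw [mul_comm C2, mul_assoc]
    exact mul_le_mul' b1 (mul_le_mul_left le_add_self _)
  have t1 := weighted (fun n => L.MM R n) (fun n => Φ n) _ hN _ l (fun n => s1 _)
    (fun n => by simpa using s2 n) hp
  have t2 := weighted (fun n => L.MM R (-n)) (fun n => Φ (-n)) _ hN _ l (fun n => s1 _)
    (fun n => by simpa using s2 (-n)) hm
  rw [L.tsum_MM]
  have t3 := tsum_nat_add_neg (f := fun n => L.MM R n * Φ n) ENNReal.summable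
  rw [ENNReal.tsum_add] at t3
  refine (le_self_add.trans t3.ge).trans ((add_le_add t1 t2).trans (le_of_eq ?_))
  ring

end Pool.Agent.MP_f2742c_an.Pf

end

-- part MP_f2742c_an.Main
section

/-! The skew product over an irrational rotation: pointwise theorem, ergodicity, no gap. -/

open Real MeasureTheory Set Filter Topology
open scoped ENNReal NNReal MatrixGroups InnerProductSpace

namespace Pool.Agent.MP_f2742c_an.Pf

theorem max_erg {Y : Type*} [MeasurableSpace Y] {ν : Measure Y} {T : Y → Y}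
    (hT : MeasurePreserving T ν ν) {Φ : Y → ℝ≥0∞} (hΦ : Measurable Φ) (l : ℝ≥0∞) :
    l * ν {y | ∃ k : ℕ, l * k < birkhoffSum T Φ k y} ≤ ∫⁻ y, Φ y ∂ν := by
  set E : ℕ → Set Y := fun K => {y | ∃ k : ℕ, k ≤ K ∧ l * k < birkhoffSum T Φ k y} with hE
  have mB : ∀ {F : Y → ℝ≥0∞}, Measurable F → ∀ k, Measurable (birkhoffSum T F k) :=
    fun hF k => Finset.measurable_sum _ fun i _ => hF.comp (hT.iterate i).measurable
  have iB : ∀ {F : Y → ℝ≥0∞}, Measurable F → ∀ k : ℕ,
      ∫⁻ y, birkhoffSum T F k y ∂ν = k * ∫⁻ y, F y ∂ν := by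
    intro F hF k
    unfold birkhoffSum
    rw [lintegral_finsetSum (f := fun i y => F (T^[i] y)) _
      fun i _ => hF.comp (hT.iterate i).measurable,
      Finset.sum_congr rfl fun i _ => (hT.iterate i).lintegral_comp hF]
    simp
  have mE : ∀ K, MeasurableSet (E K) := by
    intro K
    simp only [hE, Set.ofPred_exists]
    exact MeasurableSet.iUnion fun k => (MeasurableSet.const _).inter
      (measurableSet_lt measurable_const (mB hΦ k))
  have mono : ∀ a b y, birkhoffSum T Φ a y ≤ birkhoffSum T Φ (a + b) y := by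
    intro a b y
    rw [birkhoffSum_add]
    exact le_self_add
  have s0 : ∀ K (M : ℕ) y, birkhoffSum T ((E K).indicator (1 : Y → ℝ≥0∞)) M y ≤ M := by
    intro K M y
    refine (Finset.sum_le_card_nsmul _ _ 1 fun i _ => ?_).trans (by simp)
    exact indicator_apply_le fun _ => le_rfl
  have s1 : ∀ K M y, l * birkhoffSum T ((E K).indicator 1) M y ≤ birkhoffSum T Φ (M + K) y := by
    intro K M
    induction M using Nat.strong_induction_on with
    | _ M ih =>
      intro y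
      by_cases hy : y ∈ E K
      · obtain ⟨k, h1, h2⟩ := hy
        have hk : 0 < k := by
          rcases Nat.eq_zero_or_pos k with rfl | h
          · simp at h2
          · exact h
        rcases le_total M k with h3 | h3
        · have h4 : (M : ℝ≥0∞) ≤ k := by exact_mod_cast h3
          refine (mul_le_mul_right ((s0 K M y).trans h4) _).trans (h2.le.trans ?_)
          rw [show M + K = k + (M + K - k) by omega]
          exact mono _ _ _
        · obtain ⟨M', rfl⟩ := Nat.exists_eq_add_of_le h3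
          rw [add_assoc, birkhoffSum_add, birkhoffSum_add (m := k), mul_add]
          exact add_le_add ((mul_le_mul_right (s0 K k y) _).trans h2.le) (ih M' (by omega) _)
      · cases M with
        | zero => simp
        | succ M' =>
          rw [birkhoffSum_succ', indicator_of_notMem hy, zero_add, add_right_comm,
            birkhoffSum_succ']
          exact (ih M' (by omega) _).trans le_add_self
  have s2 : ∀ K, l * ν (E K) ≤ ∫⁻ y, Φ y ∂ν := by
    intro K
    refine ENNReal.le_of_forall_pos_le_add fun ε hε hI => ?_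
    obtain ⟨M, hM0, hM⟩ := ENNReal.exists_nat_pos_mul_gt (a := ε) (b := K * ∫⁻ y, Φ y ∂ν)
      (by simpa using hε.ne') (ENNReal.mul_ne_top (by simp) hI.ne)
    have h1 := lintegral_mono (μ := ν) (s1 K M)
    rw [lintegral_const_mul _ (mB (measurable_one.indicator (mE K)) M),
      iB (measurable_one.indicator (mE K)), iB hΦ, lintegral_indicator_one (mE K), mul_left_comm,
      Nat.cast_add, add_mul] at h1
    rw [← ENNReal.mul_le_mul_iff_right (a := M) (by simpa using hM0.ne') (by simp), mul_add]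
    exact h1.trans (add_le_add_right hM.le _)
  have e : {y | ∃ k : ℕ, l * k < birkhoffSum T Φ k y} = ⋃ K, E K := by
    ext y
    simp only [hE, mem_iUnion, mem_ofPred_eq]
    exact ⟨fun ⟨k, h⟩ => ⟨k, k, le_rfl, h⟩, fun ⟨_, k, _, h⟩ => ⟨k, h⟩⟩
  have hm : Monotone E := by
    rintro a b hab y ⟨k, h1, h2⟩
    exact ⟨k, h1.trans hab, h2⟩
  rw [e, hm.measure_iUnion, ENNReal.mul_iSup]
  exact iSup_le s2

variable {Γ : Type} [Group Γ] (L : LData Γ)

open Skew

theorem LData.maximal (α : UnitAddCircle) : ∃ C : ℝ≥0∞, C ≠ ∞ ∧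
    ∀ φ : Skew L UnitAddCircle α → ℝ≥0∞, Measurable φ → ∀ l : ℝ≥0∞,
      l * ms L α volume {x | ∃ r, 3 ≤ r ∧
        l * ENNReal.ofReal (VV r) < ∫⁻ g in {g | len g ≤ r}, φ (g • x) ∂lam} ≤
      C * ∫⁻ x, φ x ∂ms L α volume := by
  obtain ⟨C, hC, h⟩ := L.ball_sum
  have hΔ := L.Δ_nonneg
  have hv := L.vol_ne_top
  set C' := L.vol * C * ENNReal.ofReal (exp (2 * L.Δ)) + 1 with hC'
  have c0 : C' ≠ 0 := by simp [hC']
  have c1 : C' ≠ ∞ := by finiteness
  refine ⟨2 * C', by finiteness, fun φ hφ l => ?_⟩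
  set Φ : UnitAddCircle → ℝ≥0∞ := fun y => ∫⁻ d, φ (Skew.mk α d y) ∂L.mD with hΦ
  have mΦ : Measurable Φ :=
    (hφ.comp (measurable_mk measurable_snd measurable_fst)).lintegral_prod_right'
  set l' := C'⁻¹ * l with hl'
  have el : l = C' * l' := by
    rw [hl', ← mul_assoc, ENNReal.mul_inv_cancel c0 c1, one_mul]
  have h1 := max_erg (measurePreserving_add_right volume α) mΦ l'
  have h2 := max_erg (measurePreserving_add_right volume (-α)) mΦ l'
  set E1 := {y | ∃ k : ℕ, l' * k < birkhoffSum (fun y => y + α) Φ k y}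
  set E2 := {y | ∃ k : ℕ, l' * k < birkhoffSum (fun y => y + -α) Φ k y}
  have h3 : {x : Skew L UnitAddCircle α | ∃ r, 3 ≤ r ∧
      l * ENNReal.ofReal (VV r) < ∫⁻ g in {g | len g ≤ r}, φ (g • x) ∂lam} ⊆
      lev ⁻¹' (E1 ∪ E2) := by
    rintro ⟨d, y⟩ ⟨r, hr, hx⟩
    by_contra hcon
    have h4 : y ∉ E1 := fun h => hcon (Or.inl h)
    have h5 : y ∉ E2 := fun h => hcon (Or.inr h)
    have h6 := h (r + 2 * L.Δ) (by linarith) (fun n => Φ (y + n • α)) l'
      (fun k => by
        refine le_trans (le_of_eq ?_) (not_lt.mp fun h => h4 ⟨k, h⟩)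
        simp only [birkhoffSum, add_right_iterate_apply, natCast_zsmul])
      (fun k => by
        refine le_trans (le_of_eq ?_) (not_lt.mp fun h => h5 ⟨k, h⟩)
        simp only [birkhoffSum, add_right_iterate_apply, natCast_zsmul, neg_smul, smul_neg])
    refine absurd hx (not_lt.mpr ((unfold_le r φ hφ d y).trans
      ((mul_le_mul_right h6 _).trans ?_)))
    have h7 : exp r ≤ VV r := by
      have := two_le_cosh hr
      have h8 := cosh_eq r
      have h9 := exp_pos (-r)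
      unfold VV
      nlinarith [pi_gt_three]
    rw [exp_add, ENNReal.ofReal_mul (exp_pos _).le, el]
    calc _ = L.vol * C * ENNReal.ofReal (exp (2 * L.Δ)) * l' * ENNReal.ofReal (exp r) := by ring
      _ ≤ _ := by
        gcongr
        exact le_self_add
  have h4 : ms L α volume (lev ⁻¹' (E1 ∪ E2)) ≤ volume E1 + volume E2 := by
    refine (Measure.le_map_apply measurable_lev.aemeasurable _).trans ?_
    rw [show (ms L α volume).map lev = volume from measurePreserving_snd.map_eq]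
    exact measure_union_le _ _
  refine (mul_le_mul_right ((measure_mono h3).trans h4) _).trans ?_
  rw [lint_ms' _ _ hφ, el, mul_assoc, mul_add, mul_comm 2, mul_assoc C' 2, two_mul]
  exact mul_le_mul_right (add_le_add h1 h2) _

theorem LData.kernel {α : UnitAddCircle} (hα : addOrderOf α = 0) (f : Lp ℂ 2 (ms L α volume))
    (hf : nrm (WW (ms L α volume)) L.aa f = f) : ∃ c, f =ᵐ[ms L α volume] fun _ => c := by
  have ha : 0 < L.aa := by linarith [L.le_aa]
  have mf : Measurable f := (Lp.stronglyMeasurable f).measurable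
  have h1 := Dir_ge' volume mf
  rw [Dir_eq _ ha, hf, inner_self_eq_norm_sq_to_K] at h1
  have h2 : ‖f‖ ^ 2 - ((RCLike.ofReal ‖f‖ : ℂ) ^ 2).re = 0 := by
    show ‖f‖ ^ 2 - (((‖f‖ : ℝ) : ℂ) ^ 2).re = 0
    rw [← Complex.ofReal_pow, Complex.ofReal_re, sub_self]
  rw [h2, mul_zero, ENNReal.ofReal_zero, nonpos_iff_eq_zero, mul_eq_zero,
    or_iff_right L.kk_ne_zero] at h1
  have m0 : Measurable fun p : (UnitAddCircle × L.DD) × L.DD =>
      ‖f (Skew.mk α p.2 (p.1.1 + α)) - f (Skew.mk α p.1.2 p.1.1)‖ₑ ^ 2 :=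
    ((mf.comp (measurable_mk measurable_snd (measurable_fst.fst.add_const _))).sub
      (mf.comp (measurable_mk measurable_fst.snd measurable_fst.fst))).enorm.pow_const _
  have m1 := m0.lintegral_prod_right' (ν := L.mD)
  have m2 := m1.lintegral_prod_right' (ν := L.mD)
  set F : UnitAddCircle → ℂ := fun y => ∫ d, f (Skew.mk α d y) ∂L.mD with hF
  have mF : StronglyMeasurable F :=
    (mf.comp (measurable_mk measurable_snd measurable_fst)).stronglyMeasurable.integral_prod_right'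
  have h3 : ∀ᵐ y, ∀ᵐ d ∂L.mD, f (Skew.mk α d y) = F (y + α) := by
    filter_upwards [(lintegral_eq_zero_iff m2).mp h1] with y hy
    filter_upwards [(lintegral_eq_zero_iff (m1.comp measurable_prodMk_left)).mp hy] with d hd
    have h4 := (lintegral_eq_zero_iff (m0.comp measurable_prodMk_left)).mp hd
    have h5 : ∀ᵐ d' ∂L.mD, f (Skew.mk α d' (y + α)) = f (Skew.mk α d y) := by
      filter_upwards [h4] with d' hd'
      simpa [sub_eq_zero] using hd'
    rw [hF]
    simp only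
    rw [integral_congr_ae h5]
    simp
  have h4 : F ∘ (· + α) =ᵐ[volume] F := by
    filter_upwards [h3] with y hy
    rw [hF]
    simp only
    rw [integral_congr_ae hy]
    simp [hF]
  obtain ⟨c, hc⟩ := (AddCircle.ergodic_add_right.mpr hα).ae_eq_const_of_ae_eq_comp_ae
    mF.aestronglyMeasurable h4
  refine ⟨c, ?_⟩
  have h5 : ∫⁻ x, ‖f x - c‖ₑ ∂ms L α volume = 0 := by
    rw [lint_ms' _ _ (mf.sub_const c).enorm, ← lintegral_zero (μ := (volume : Measure UnitAddCircle))]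
    apply lintegral_congr_ae
    filter_upwards [h3, h4, hc] with y h6 h7 h8
    rw [← lintegral_zero (μ := L.mD)]
    apply lintegral_congr_ae
    filter_upwards [h6] with d hd
    rw [hd, show F (y + α) = F y from h7, h8]
    simp
  filter_upwards [(lintegral_eq_zero_iff (mf.sub_const c).enorm).mp h5] with x hx
  simpa [sub_eq_zero] using hx

theorem LData.pointwise {α : UnitAddCircle} (hα : addOrderOf α = 0)
    {f : Skew L UnitAddCircle α → ℂ} (hf : Integrable f (ms L α volume)) :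
    ∀ᵐ x ∂ms L α volume, (∀ r, IntegrableOn (fun g : G => f (g • x)) {g | len g ≤ r} lam) ∧
      Tendsto (fun r => avg r f x) atTop (𝓝 (∫ y, f y ∂ms L α volume)) := by
  obtain ⟨C, hC, h⟩ := L.maximal α
  exact pointwise_of_maximal _ L.le_aa (L.kernel hα) C hC h hf

theorem LData.ergodic {α : UnitAddCircle} (hα : addOrderOf α = 0)
    {s : Set (Skew L UnitAddCircle α)} (hs : MeasurableSet s)
    (h : ∀ g : G, (g • ·) ⁻¹' s =ᵐ[ms L α volume] s) : EventuallyConst s (ae (ms L α volume)) := by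
  have ha : 0 < L.aa := by linarith [L.le_aa]
  have h1 : MemLp (s.indicator fun _ => (1 : ℂ)) 2 (ms L α volume) :=
    memLp_indicator_const 2 hs 1 (Or.inr (measure_ne_top _ _))
  have h2 : ∀ g : G, koop _ g (h1.toLp _) = h1.toLp _ := by
    intro g
    apply Lp.ext
    filter_upwards [koop_coe g (h1.toLp _), h1.coeFn_toLp,
      (measurePreserving_smul g _).quasiMeasurePreserving.ae_eq_comp h1.coeFn_toLp,
      indicator_ae_eq_of_ae_eq_set (f := fun _ => (1 : ℂ)) (h g)] with x e1 e2 e3 e4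
    rw [e1, e2, ← e4]
    exact e3
  obtain ⟨c, hc⟩ := L.kernel hα (h1.toLp _) (by
    rw [nrm_eq _ ha, smul_apply, TT_apply]
    simp only [h2, integral_const]
    rw [RCLike.real_smul_eq_coe_smul (K := ℂ), smul_smul]
    have e : ((((om L.aa).real univ)⁻¹ : ℝ) : ℂ) *
        (RCLike.ofReal ((om L.aa).real univ) : ℂ) = 1 := by
      show ((((om L.aa).real univ)⁻¹ : ℝ) : ℂ) * (((om L.aa).real univ : ℝ) : ℂ) = 1
      rw [← Complex.ofReal_mul, inv_mul_cancel₀ (om_real_pos ha).ne']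
      simp
    rw [e, one_smul])
  have h3 := h1.coeFn_toLp.symm.trans hc
  rw [eventuallyConst_set]
  by_cases h0 : c = 0
  · right
    filter_upwards [h3] with x hx hxs
    simp [hxs, h0] at hx
  · left
    filter_upwards [h3] with x hx
    by_contra hxs
    simp [hxs, Ne.symm h0] at hx

theorem LData.no_gap (θ t : ℝ) {ε : ℝ} (hε : 0 < ε) :
    ∃ f : Skew L UnitAddCircle θ → ℂ, Measurable f ∧ (∀ x, ‖f x‖ = 1) ∧
      ∫ x, f x ∂ms L (θ : UnitAddCircle) volume = 0 ∧
      ∀ g, len g ≤ t → ∀ x, ‖f (g • x) - f x‖ ≤ ε := by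
  obtain ⟨K, hK⟩ := L.exists_bound t
  obtain ⟨n, hn⟩ := exists_nat_gt (2 * π * K / ε)
  have hn0 : 0 < n := by
    have : (0 : ℝ) < n := lt_of_le_of_lt (by positivity) hn
    exact_mod_cast this
  obtain ⟨j, k, hk0, -, hk⟩ := exists_int_int_abs_mul_sub_le θ hn0
  refine ⟨L.ch θ k, L.measurable_ch θ k, L.norm_ch θ k, ?_, fun g hg x => ?_⟩
  · have h1 := integral_fun_snd (μ := L.mD) (ν := (volume : Measure UnitAddCircle)) (fourier k)
    rw [integral_eq_zero_of_add_right_eq_neg (μ := (volume : Measure UnitAddCircle))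
      (fourier_add_half_inv_index hk0.ne' one_pos), smul_zero] at h1
    exact h1
  · have h2 : |(L.β (g * x.1) : ℝ)| ≤ K := by exact_mod_cast hK g hg x.1
    rw [L.norm_ch_sub, show (L.β (g * x.1) : ℝ) * (k * θ) = L.β (g * x.1) * (k * θ - j) +
      (L.β (g * x.1) * j : ℤ) by push_cast; ring, ee_add_int]
    refine (ee_le _).trans ?_
    rw [abs_mul]
    rw [div_lt_iff₀ hε] at hn
    calc _ ≤ 2 * π * (K * (1 / (n + 1))) := by gcongr
      _ ≤ ε := by
        rw [← mul_assoc, mul_one_div, div_le_iff₀ (by positivity)]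
        nlinarith

end Pool.Agent.MP_f2742c_an.Pf

end

-- part MP_f2742c_an.Lattice
section

/-! An arithmetic cocompact lattice with a homomorphism onto `ℤ`. -/

open Real MeasureTheory Set Filter Topology QuaternionAlgebra
open scoped ENNReal NNReal MatrixGroups

namespace Pool.Agent.MP_f2742c_an.Pf

/-- the order -/
abbrev O := QuaternionAlgebra ℤ 3 0 (-1)

/-- reduced norm -/
def nr (x : O) : ℤ := x.re ^ 2 - 3 * x.imI ^ 2 + x.imJ ^ 2 - 3 * x.imK ^ 2

theorem nr_mul (x y : O) : nr (x * y) = nr x * nr y := by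
  simp [nr]
  ring

theorem nr_star (x : O) : nr (star x) = nr x := by
  simp [nr]

theorem zs_re (n : ℤ) (x : O) : (n • x).re = n * x.re := rfl

theorem zs_imI (n : ℤ) (x : O) : (n • x).imI = n * x.imI := rfl

theorem zs_imJ (n : ℤ) (x : O) : (n • x).imJ = n * x.imJ := rfl

theorem zs_imK (n : ℤ) (x : O) : (n • x).imK = n * x.imK := rfl

theorem mul_star (x : O) : x * star x = nr x • (1 : O) := by
  ext <;> simp [nr, ↓zs_re, ↓zs_imI, ↓zs_imJ, ↓zs_imK] <;> ring

theorem star_mul' (x : O) : star x * x = nr x • (1 : O) := by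
  ext <;> simp [nr, ↓zs_re, ↓zs_imI, ↓zs_imJ, ↓zs_imK] <;> ring

theorem re_conj (x u : O) : (x * u * star x).re = nr x * u.re := by
  simp [nr]
  ring

theorem mem_unitary_of_nr {x : O} (h : nr x = 1) : x ∈ unitary O := by
  rw [Unitary.mem_iff, star_mul', mul_star, h, one_smul]
  exact ⟨rfl, rfl⟩

theorem nr_unitary (x : unitary O) : nr x = 1 := by
  have h := congrArg QuaternionAlgebra.re ((mul_star x).symm.trans (Unitary.coe_mul_star_self x))
  simpa using h

theorem aniso (n : ℕ) : ∀ a b c d : ℤ, a ^ 2 + b ^ 2 = 3 * (c ^ 2 + d ^ 2) → c ^ 2 + d ^ 2 ≤ n →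
    a = 0 ∧ b = 0 ∧ c = 0 ∧ d = 0 := by
  induction n with
  | zero =>
    intro a b c d h1 h2
    push_cast at h2
    have hc : c = 0 := by nlinarith [sq_nonneg c, sq_nonneg d]
    have hd : d = 0 := by nlinarith [sq_nonneg c, sq_nonneg d]
    subst hc hd
    exact ⟨by nlinarith [sq_nonneg a, sq_nonneg b], by nlinarith [sq_nonneg a, sq_nonneg b],
      rfl, rfl⟩
  | succ n ih =>
    intro a b c d h1 h2
    have h3 : (3 : ℤ) ∣ a ∧ (3 : ℤ) ∣ b := by
      have h4 : ∀ x y : ZMod 3, x ^ 2 + y ^ 2 = 0 → x = 0 ∧ y = 0 := by decide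
      have h5 := h4 a b (by
        have := congrArg (Int.cast : ℤ → ZMod 3) h1
        push_cast at this
        rw [this, show (3 : ZMod 3) = 0 from rfl, zero_mul])
      exact ⟨(ZMod.intCast_zmod_eq_zero_iff_dvd a 3).mp h5.1,
        (ZMod.intCast_zmod_eq_zero_iff_dvd b 3).mp h5.2⟩
    obtain ⟨⟨a, rfl⟩, ⟨b, rfl⟩⟩ := h3
    push_cast at h2
    have h4 := ih c d a b (by linarith) (by
      have := sq_nonneg a
      have := sq_nonneg b
      have h5 : (0 : ℤ) ≤ n := Nat.cast_nonneg n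
      have h6 : 3 * (a ^ 2 + b ^ 2) ≤ n + 1 := by linarith
      omega)
    simp [h4]

theorem nr_ne_zero {x : O} (hx : x ≠ 0) : nr x ≠ 0 := by
  intro h
  have h1 := aniso (x.imI ^ 2 + x.imK ^ 2).toNat x.re x.imJ x.imI x.imK
    (by unfold nr at h; linarith) (Int.self_le_toNat _)
  apply hx
  ext <;> simp [h1]

theorem fin_box (B : ℝ) :
    {x : O | |(x.re : ℝ)| ≤ B ∧ |(x.imI : ℝ)| ≤ B ∧ |(x.imJ : ℝ)| ≤ B ∧ |(x.imK : ℝ)| ≤ B}.Finite := by
  have h : {n : ℤ | |(n : ℝ)| ≤ B}.Finite := by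
    refine (finite_Icc (-⌈B⌉) ⌈B⌉).subset fun n (hn : |(n : ℝ)| ≤ B) => abs_le.mp ?_
    exact_mod_cast hn.trans (Int.le_ceil B)
  exact (h.prod (h.prod (h.prod h))).preimage (equivProd (3 : ℤ) 0 (-1)).injective.injOn

/-- the real matrix of a quaternion -/
noncomputable def rho (x : O) : Matrix (Fin 2) (Fin 2) ℝ :=
  !![x.re + x.imI * √3, x.imJ + x.imK * √3; -x.imJ + x.imK * √3, x.re - x.imI * √3]

theorem s3 : √3 * √3 = (3 : ℝ) := mul_self_sqrt (by norm_num)

theorem rho_mul (x y : O) : rho (x * y) = rho x * rho y := by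
  ext i j
  fin_cases i <;> fin_cases j <;> simp [rho, Matrix.mul_apply, Fin.sum_univ_two]
  · linear_combination (-(x.imI * y.imI) - x.imK * y.imK : ℝ) * s3
  · linear_combination (-(x.imI * y.imK) + x.imK * y.imI : ℝ) * s3
  · linear_combination (x.imI * y.imK - x.imK * y.imI : ℝ) * s3
  · linear_combination (-(x.imI * y.imI) - x.imK * y.imK : ℝ) * s3

theorem rho_smul (n : ℤ) (x : O) : rho (n • x) = (n : ℝ) • rho x := by
  ext i j
  fin_cases i <;> fin_cases j <;> simp [rho] <;> ring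

theorem rho_one : rho 1 = 1 := by
  ext i j
  fin_cases i <;> fin_cases j <;> simp [rho]

theorem det_rho (x : O) : (rho x).det = nr x := by
  simp only [rho, nr, Matrix.det_fin_two_of]
  push_cast
  linear_combination (-(x.imI ^ 2) - x.imK ^ 2 : ℝ) * s3

theorem box_of_rho {x : O} {B : ℝ} (h : ∀ i j, |rho x i j| ≤ B) :
    |(x.re : ℝ)| ≤ B ∧ |(x.imI : ℝ)| ≤ B ∧ |(x.imJ : ℝ)| ≤ B ∧ |(x.imK : ℝ)| ≤ B := by
  have h1 := abs_le.mp (h 0 0)
  have h2 := abs_le.mp (h 0 1)
  have h3 := abs_le.mp (h 1 0)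
  have h4 := abs_le.mp (h 1 1)
  simp only [rho, Matrix.of_apply, Matrix.cons_val', Matrix.cons_val_zero, Matrix.cons_val_one,
    Matrix.cons_val_fin_one] at h1 h2 h3 h4
  have h5 : ∀ y : ℝ, |y * √3| ≤ B → |y| ≤ B := by
    intro y hy
    rw [abs_mul, abs_of_nonneg (sqrt_nonneg 3)] at hy
    exact (le_mul_of_one_le_right (abs_nonneg _) (one_le_sqrt.mpr (by norm_num))).trans hy
  exact ⟨abs_le.mpr ⟨by linarith, by linarith⟩, h5 _ (abs_le.mpr ⟨by linarith, by linarith⟩),
    abs_le.mpr ⟨by linarith, by linarith⟩, h5 _ (abs_le.mpr ⟨by linarith, by linarith⟩)⟩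

theorem rho_inj : Function.Injective rho := by
  intro x y h
  have h1 : rho (x - y) = rho x - rho y := by
    ext i j
    fin_cases i <;> fin_cases j <;> simp [rho] <;> ring
  have h2 := box_of_rho (x := x - y) (B := 0) (by simp [h1, h])
  simp only [abs_nonpos_iff, Int.cast_eq_zero] at h2
  rw [← sub_eq_zero]
  ext <;> simp [h2]

/-- the element `j` -/
def qj : O := ⟨0, 0, 1, 0⟩

/-- the element `k` -/
def qk : O := ⟨0, 0, 0, 1⟩

/-- norm one units fixing `k` modulo 6 -/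
def Gam : Subgroup (unitary O) where
  carrier := {x | ∃ w : O, (x : O) * qk * star (x : O) = qk + (6 : ℤ) • w}
  one_mem' := ⟨0, by simp⟩
  mul_mem' := by
    rintro x y ⟨w, hw⟩ ⟨w', hw'⟩
    refine ⟨w + x * w' * star (x : O), ?_⟩
    rw [Submonoid.coe_mul, star_mul, show (x : O) * y * qk * (star (y : O) * star (x : O)) =
      x * (y * qk * star (y : O)) * star (x : O) by noncomm_ring, hw', mul_add, add_mul, hw,
      mul_smul_comm, smul_mul_assoc, smul_add, add_assoc]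
  inv_mem' := by
    rintro x ⟨w, hw⟩
    refine ⟨-(star (x : O) * w * x), ?_⟩
    have h1 := congrArg (fun u => star (x : O) * u * x) hw
    simp only [← mul_assoc, Unitary.coe_star_mul_self, one_mul] at h1
    rw [mul_assoc qk, Unitary.coe_star_mul_self, mul_one, mul_add, add_mul, mul_smul_comm,
      smul_mul_assoc] at h1
    rw [← Unitary.star_eq_inv, Unitary.coe_star, star_star, smul_neg]
    exact (sub_eq_of_eq_add h1).symm.trans (sub_eq_add_neg _ _)

/-- oriented geodesics -/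
abbrev VS : Type := {v : O // v.re = 0 ∧ nr v = -3 ∧ ∃ w : O, v = qk + (6 : ℤ) • w}

/-- conjugation action on the oriented geodesics -/
def act (x : Gam) (v : VS) : VS := ⟨(x : unitary O) * v.1 * star ((x : unitary O) : O), by
  obtain ⟨v, h1, h2, w, rfl⟩ := v
  obtain ⟨x, w', hw'⟩ := x
  refine ⟨by rw [re_conj, h1, mul_zero], by rw [nr_mul, nr_mul, nr_star, nr_unitary, h2]; simp,
    w' + x * w * star (x : O), ?_⟩
  simp only
  rw [mul_add, add_mul, hw', mul_smul_comm, smul_mul_assoc, smul_add, add_assoc]⟩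

theorem act_act (x y : Gam) (v : VS) : act x (act y v) = act (x * y) v := by
  apply Subtype.ext
  simp only [act, Subgroup.coe_mul, Submonoid.coe_mul, star_mul, mul_assoc]

theorem act_bij (x : Gam) : Function.Bijective (act x) := by
  have h : ∀ v, act 1 v = v := fun v => Subtype.ext (by simp [act])
  exact Function.bijective_iff_has_inverse.mpr ⟨act x⁻¹,
    fun v => by rw [act_act, inv_mul_cancel, h], fun v => by rw [act_act, mul_inv_cancel, h]⟩

/-- side of a geodesic -/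
def side (v p : O) : ℤ := if (v * p).re < 0 then 1 else 0

/-- orbit of the base point -/
def orb (x : unitary O) : O := x * qj * star (x : O)

theorem side_act (x : Gam) (v : VS) (p : O) :
    side (act x v).1 ((x : unitary O) * p * star ((x : unitary O) : O)) = side v.1 p := by
  have e : ((act x v).1 * ((x : unitary O) * p * star ((x : unitary O) : O))).re = (v.1 * p).re := by
    have : (act x v).1 * ((x : unitary O) * p * star ((x : unitary O) : O)) =
        (x : unitary O) * (v.1 * p) * star ((x : unitary O) : O) := by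
      simp only [act, mul_assoc]
      rw [← mul_assoc (star _), Unitary.coe_star_mul_self, one_mul]
    rw [this, re_conj, nr_unitary, one_mul]
  simp only [side, e]

theorem side_bound {v1 v2 v3 p1 p2 p3 : ℤ} (hv : v2 ^ 2 - 3 * v1 ^ 2 - 3 * v3 ^ 2 = -3)
    (hp : p2 ^ 2 - 3 * p1 ^ 2 - 3 * p3 ^ 2 = 1) (h2 : 0 < p2) (h3 : 0 < v2)
    (h : v2 * p2 ≤ 3 * v1 * p1 + 3 * v3 * p3) : v2 ^ 2 ≤ 3 * (p2 ^ 2 - 1) := by
  have h4 := pow_le_pow_left₀ (by positivity) h 2
  have h5 : (3 * v1 * p1 + 3 * v3 * p3) ^ 2 ≤ (3 * v1 ^ 2 + 3 * v3 ^ 2) * (3 * p1 ^ 2 + 3 * p3 ^ 2) := by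
    nlinarith [sq_nonneg (v1 * p3 - v3 * p1)]
  rw [show 3 * v1 ^ 2 + 3 * v3 ^ 2 = v2 ^ 2 + 3 by linarith,
    show 3 * p1 ^ 2 + 3 * p3 ^ 2 = p2 ^ 2 - 1 by linarith] at h5
  nlinarith

theorem side_ne {v p : O} (h1 : v.re = 0) (h2 : nr v = -3) (h3 : p.re = 0) (h4 : nr p = 1)
    (h5 : 0 < p.imJ) (h : side v p ≠ side v qj) : v.imJ ^ 2 ≤ 3 * (p.imJ ^ 2 - 1) := by
  simp only [nr, h1, h3] at h2 h4
  have e1 : (v * p).re = 3 * v.imI * p.imI + 3 * v.imK * p.imK - v.imJ * p.imJ := by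
    simp [h1]
    ring
  have e2 : (v * qj).re = -v.imJ := by simp [qj]
  simp only [side, e1, e2] at h
  rcases lt_trichotomy v.imJ 0 with h6 | h6 | h6
  · have h7 := side_bound (v1 := -v.imI) (v2 := -v.imJ) (v3 := -v.imK) (p1 := p.imI)
      (p3 := p.imK) (by linarith) (by linarith) h5 (by linarith) (by
        by_contra h8
        exact h (by rw [if_neg (by linarith), if_neg (by linarith)]))
    linarith
  · nlinarith
  · exact side_bound (v1 := v.imI) (v3 := v.imK) (p1 := p.imI)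
      (p3 := p.imK) (by linarith) (by linarith) h5 h6 (by
        by_contra h8
        exact h (by rw [if_pos (by linarith), if_pos (by linarith)]))

theorem orb_re (x : unitary O) : (orb x).re = 0 := by
  rw [orb, re_conj]
  simp [qj]

theorem nr_orb (x : unitary O) : nr (orb x) = 1 := by
  rw [orb, nr_mul, nr_mul, nr_star, nr_unitary]
  simp [nr, qj]

theorem orb_pos (x : unitary O) : 0 < (orb x).imJ := by
  have h := nr_unitary x
  simp only [nr] at h
  simp [orb, qj]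
  nlinarith [sq_nonneg (x : O).imI, sq_nonneg (x : O).imK]

theorem fin_side (x : unitary O) :
    Function.HasFiniteSupport fun v : VS => side v.1 (orb x) - side v.1 qj := by
  refine ((fin_box (3 * (orb x).imJ ^ 2 + 3)).preimage Subtype.val_injective.injOn).subset ?_
  rintro ⟨v, h1, h2, h3⟩ hv
  have h4 := side_ne h1 h2 (orb_re x) (nr_orb x) (orb_pos x) (sub_ne_zero.mp hv)
  simp only [nr, h1] at h2
  have h5 : ∀ n : ℤ, n ^ 2 ≤ 3 * (orb x).imJ ^ 2 + 3 → |(n : ℝ)| ≤ 3 * (orb x).imJ ^ 2 + 3 := by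
    intro n hn
    have : |n| ≤ 3 * (orb x).imJ ^ 2 + 3 := (Int.le_self_sq _).trans (by rwa [sq_abs])
    exact_mod_cast this
  have := sq_nonneg (orb x).imJ
  have := sq_nonneg v.imI
  have := sq_nonneg v.imK
  exact ⟨h5 _ (by simp only [h1]; linarith), h5 _ (by simp only; linarith),
    h5 _ (by simp only; linarith), h5 _ (by simp only; linarith)⟩

/-- signed number of geodesics separating the base point from its image -/
noncomputable def phi (x : Gam) : ℤ := ∑ᶠ v : VS, (side v.1 (orb x) - side v.1 qj)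

theorem phi_mul (x y : Gam) : phi (x * y) = phi x + phi y := by
  rw [← sub_eq_iff_eq_add', phi, phi, ← finsum_sub_distrib (fin_side _) (fin_side _)]
  refine (finsum_eq_of_bijective (act x) (act_bij x) fun v => ?_).symm
  rw [← side_act x v, ← side_act x v qj, sub_sub_sub_cancel_right]
  simp only [orb, Subgroup.coe_mul, Submonoid.coe_mul, star_mul, mul_assoc]

/-- the element `2 - i` -/
def gam0 : Gam := ⟨⟨⟨2, -1, 0, 0⟩, mem_unitary_of_nr (by decide)⟩, ⟨0, 0, -2, 1⟩, by ext <;> rfl⟩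

theorem phi_gam0 : phi gam0 = 1 := by
  have e : orb gam0 = ⟨0, 0, 7, -4⟩ := by ext <;> rfl
  rw [phi, e, finsum_eq_single _ (⟨qk, rfl, by decide, 0, by simp⟩ : VS)]
  · decide
  rintro ⟨v, h1, h2, ⟨w0, a, b, c⟩, rfl⟩ hv
  by_contra h
  have h3 := side_ne h1 h2 (p := ⟨0, 0, 7, -4⟩) rfl (by decide) (by decide) (sub_ne_zero.mp h)
  apply h
  have h0 : w0 = 0 := by simpa [qk] using h1
  subst h0
  simp [qk, nr] at h2 h3
  have b1 : -2 ≤ b := by nlinarith
  have b2 : b ≤ 2 := by nlinarith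
  have b3 : b ^ 2 ≤ 4 := by nlinarith
  have a1 : -1 ≤ a := by nlinarith [sq_nonneg (1 + 6 * c)]
  have a2 : a ≤ 1 := by nlinarith [sq_nonneg (1 + 6 * c)]
  have c1 : -1 ≤ c := by nlinarith [sq_nonneg a]
  have c2 : c ≤ 1 := by nlinarith [sq_nonneg a]
  interval_cases a <;> interval_cases b <;> interval_cases c <;>
    first | omega | rfl | exact absurd (Subtype.ext (by ext <;> rfl)) hv

/-- the embedding in `SL(2, ℝ)` -/
noncomputable def iota : Gam →* G where
  toFun x := ⟨rho (x : unitary O), by rw [det_rho, nr_unitary, Int.cast_one]⟩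
  map_one' := Subtype.ext rho_one
  map_mul' _ _ := Subtype.ext (rho_mul _ _)

theorem exists_entry_bound (R : ℝ) : ∃ B, ∀ g : G, len g ≤ R → ∀ i j, |g i j| ≤ B := by
  have h : Continuous fun g : G => ∑ i, ∑ j, |g i j| := by
    refine continuous_finsetSum _ fun i _ => continuous_finsetSum _ fun j _ => ?_
    exact (Matrix.SpecialLinearGroup.isClosedEmbedding_val.continuous.matrix_elem i j).abs
  obtain ⟨B, hB⟩ := (isCompact_len R).bddAbove_image h.continuousOn
  refine ⟨B, fun g hg i j => le_trans ?_ (hB ⟨g, hg, rfl⟩)⟩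
  exact (Finset.single_le_sum (f := fun j => |g i j|) (fun _ _ => abs_nonneg _)
    (Finset.mem_univ j)).trans (Finset.single_le_sum (f := fun i => ∑ j, |g i j|)
      (fun _ _ => by positivity) (Finset.mem_univ i))

theorem exists_len_bound (B : ℝ) : ∃ R, ∀ g : G, (∀ i j, |g i j| ≤ B) → len g ≤ R := by
  have h1 : IsCompact (Set.pi univ fun _ : Fin 2 => Set.pi univ fun _ : Fin 2 => Icc (-B) B) :=
    isCompact_univ_pi fun _ => isCompact_univ_pi fun _ => isCompact_Icc
  have h2 := (Matrix.SpecialLinearGroup.isClosedEmbedding_val (n := Fin 2) (R := ℝ)).isCompact_preimage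
    h1
  obtain ⟨R, hR⟩ := h2.bddAbove_image continuous_len.continuousOn
  exact ⟨R, fun g hg => hR ⟨g, fun i _ j _ => abs_le.mp (hg i j), rfl⟩⟩

theorem minkowski (g : G) : ∃ x : O, x ≠ 0 ∧ ∀ i j, |(g.1 * rho x) i j| ≤ 2 := by
  set A : Matrix (Fin 4) (Fin 4) ℝ := !![g 0 0, g 0 0 * √3, -g 0 1, g 0 1 * √3;
    g 0 1, -g 0 1 * √3, g 0 0, g 0 0 * √3; g 1 0, g 1 0 * √3, -g 1 1, g 1 1 * √3;
    g 1 1, -g 1 1 * √3, g 1 0, g 1 0 * √3] with hA
  have hg : g 0 0 * g 1 1 - g 0 1 * g 1 0 = 1 := by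
    have := g.2
    rwa [Matrix.det_fin_two] at this
  have hdet : A.det = -12 := by
    have : A.det = -4 * √3 ^ 2 * (g 0 0 * g 1 1 - g 0 1 * g 1 0) ^ 2 := by
      rw [hA]
      generalize √3 = s
      simp [Matrix.det_succ_row_zero, Fin.sum_univ_succ, Fin.succAbove]
      ring
    rw [this, hg, sq, s3]
    norm_num
  have : Countable (Submodule.span ℤ (range (Pi.basisFun ℝ (Fin 4)))).toAddSubgroup := by
    change Countable (Submodule.span ℤ (range (Pi.basisFun ℝ (Fin 4))))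
    infer_instance
  obtain ⟨⟨x, hx⟩, h1, h2⟩ := exists_ne_zero_mem_lattice_of_measure_mul_two_pow_lt_measure
    (ZSpan.isAddFundamentalDomain' (Pi.basisFun ℝ (Fin 4)) volume)
    (s := Matrix.toLin' A ⁻¹' Metric.closedBall 0 2) (fun x hx => by simpa [Matrix.mulVec_neg] using hx)
    ((convex_closedBall _ _).linear_preimage _) (by
      rw [Measure.addHaar_preimage_linearMap _ (by rw [LinearMap.det_toLin', hdet]; norm_num),
        LinearMap.det_toLin', hdet, Real.volume_pi_closedBall _ (by norm_num),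
        ZSpan.fundamentalDomain_pi_basisFun, volume_pi, Measure.pi_pi,
        ← ENNReal.ofReal_mul (abs_nonneg _)]
      simp only [Real.volume_Ico, sub_zero, ENNReal.ofReal_one, Finset.prod_const_one, one_mul,
        Module.finrank_pi, Fintype.card_fin]
      rw [← ENNReal.ofReal_ofNat, ← ENNReal.ofReal_pow (by norm_num),
        ENNReal.ofReal_lt_ofReal_iff (by norm_num)]
      norm_num)
  choose z hz using ((Pi.basisFun ℝ (Fin 4)).mem_span_iff_repr_mem ℤ x).mp hx
  simp only [Pi.basisFun_repr, eq_intCast] at hz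
  refine ⟨⟨z 0, z 1, z 2, z 3⟩, fun h => h1 ?_, ?_⟩
  · ext i
    have h3 := congrArg (equivTuple (3 : ℤ) 0 (-1)) h
    have h4 : z i = 0 := by
      have := congrFun h3 i
      fin_cases i <;> simpa using this
    simp [← hz, h4]
  · have h3 : ∀ i, |A.mulVec x i| ≤ 2 := by
      intro i
      have h4 : ‖A.mulVec x‖ ≤ 2 := by simpa using h2
      exact (norm_le_pi_norm _ i).trans h4
    have e0 := h3 0
    have e1 := h3 1
    have e2 := h3 2
    have e3 := h3 3
    simp [hA, Matrix.mulVec, dotProduct, Fin.sum_univ_four, ← hz] at e0 e1 e2 e3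
    intro i j
    fin_cases i <;> fin_cases j <;> simp [rho, Matrix.mul_apply, Fin.sum_univ_two]
    · refine le_of_eq_of_le (congrArg _ ?_) e0
      ring
    · refine le_of_eq_of_le (congrArg _ ?_) e1
      ring
    · refine le_of_eq_of_le (congrArg _ ?_) e2
      ring
    · refine le_of_eq_of_le (congrArg _ ?_) e3
      ring

theorem cocompact : ∃ Δ, ∀ g : G, ∃ γ : Gam, len (g * iota γ) ≤ Δ := by
  set key : O → ℤ × ZMod 5040 × ZMod 5040 × ZMod 5040 × ZMod 5040 :=
    fun x => (nr x, x.re, x.imI, x.imJ, x.imK) with hkey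
  have h1 : (Function.invFun key '' (Icc (-8) 8 ×ˢ univ)).Finite :=
    ((finite_Icc _ _).prod finite_univ).image _
  obtain ⟨B, hB⟩ := (h1.image fun y => ∑ i, ∑ j, |rho (star y) i j|).bddAbove
  obtain ⟨R, hR⟩ := exists_len_bound (2 * B)
  refine ⟨R, fun g => ?_⟩
  obtain ⟨x, hx0, hx⟩ := minkowski g
  have n0 := nr_ne_zero hx0
  have n1 : |nr x| ≤ 8 := by
    have h2 : (g.1 * rho x).det = nr x := by rw [Matrix.det_mul, g.2, one_mul, det_rho]
    rw [Matrix.det_fin_two] at h2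
    have h3 : |(nr x : ℝ)| ≤ 8 := by
      rw [← h2]
      refine (abs_sub _ _).trans ?_
      rw [abs_mul, abs_mul]
      have := mul_le_mul (hx 0 0) (hx 1 1) (abs_nonneg _) zero_le_two
      have := mul_le_mul (hx 0 1) (hx 1 0) (abs_nonneg _) zero_le_two
      linarith
    exact_mod_cast h3
  set y := Function.invFun key (key x) with hy
  have h2 : key y = key x := Function.invFun_eq ⟨x, rfl⟩
  have h3 := hB ⟨y, ⟨key x, ⟨abs_le.mp n1, trivial⟩, rfl⟩, rfl⟩
  simp only [hkey, Prod.mk.injEq, ZMod.intCast_eq_intCast_iff_dvd_sub] at h2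
  obtain ⟨e, ⟨t0, e0⟩, ⟨t1, e1⟩, ⟨t2, e2⟩, ⟨t3, e3⟩⟩ := h2
  obtain ⟨q, hq⟩ : nr x ∣ 840 := by
    obtain ⟨n2, n3⟩ := abs_le.mp n1
    generalize nr x = n at n0 n2 n3
    interval_cases n <;> first | decide | exact absurd rfl n0
  set u : O := (q • (⟨t0, t1, t2, t3⟩ : O)) * star y with hu
  have h4 : (1 + (6 : ℤ) • u) * y = x := by
    rw [add_mul, one_mul, smul_mul_assoc, hu, mul_assoc, star_mul', mul_smul_comm, mul_one, e,
      smul_smul, smul_smul, show 6 * nr x * q = 5040 by linarith]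
    push_cast at e0 e1 e2 e3
    ext <;> simp <;> linarith
  have h5 : nr (1 + (6 : ℤ) • u) = 1 := by
    have := congrArg nr h4
    rw [nr_mul, e] at this
    exact mul_right_cancel₀ n0 (this.trans (one_mul _).symm)
  refine ⟨⟨⟨1 + (6 : ℤ) • u, mem_unitary_of_nr h5⟩,
    u * qk + qk * star u + (6 : ℤ) • (u * qk * star u), ?_⟩, hR _ fun i j => ?_⟩
  · simp only [star_add, star_one, star_zsmul, add_mul, mul_add, one_mul, mul_one, smul_mul_assoc,
      mul_smul_comm, smul_add, add_assoc]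
  · have h6 : (nr x : ℝ) • (g.1 * rho (1 + (6 : ℤ) • u)) = g.1 * rho x * rho (star y) := by
      rw [← h4, rho_mul, mul_assoc, mul_assoc, ← rho_mul y, mul_star, rho_smul, rho_one,
        Matrix.mul_smul, mul_one, Matrix.mul_smul, h4, e]
    have h7 := congrFun (congrFun h6 i) j
    rw [Matrix.smul_apply, smul_eq_mul, Matrix.mul_apply (M := g.1 * rho x),
      Fin.sum_univ_two] at h7
    have h8 : (1 : ℝ) ≤ |(nr x : ℝ)| := by exact_mod_cast Int.one_le_abs n0
    show |(g.1 * rho (1 + (6 : ℤ) • u)) i j| ≤ 2 * B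
    refine (le_mul_of_one_le_left (abs_nonneg _) h8).trans ?_
    rw [← abs_mul, h7]
    refine (abs_add_le _ _).trans ?_
    rw [abs_mul, abs_mul]
    have b1 := mul_le_mul_of_nonneg_right (hx i 0) (abs_nonneg (rho (star y) 0 j))
    have b2 := mul_le_mul_of_nonneg_right (hx i 1) (abs_nonneg (rho (star y) 1 j))
    have b3 : ∀ i, |rho (star y) i j| ≤ ∑ j, |rho (star y) i j| := fun i =>
      Finset.single_le_sum (f := fun j => |rho (star y) i j|) (fun _ _ => abs_nonneg _)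
        (Finset.mem_univ j)
    simp only at h3
    rw [Fin.sum_univ_two] at h3
    linarith [b3 0, b3 1]

/-- the lattice -/
noncomputable def lattice : LData Gam where
  ι := iota
  inj := fun _ _ h => Subtype.ext (Subtype.ext (rho_inj (congrArg Subtype.val h)))
  φ := phi
  φ_mul := phi_mul
  γ₀ := gam0
  φ_γ₀ := phi_gam0
  fin := fun R => by
    obtain ⟨B, hB⟩ := exists_entry_bound R
    refine ((fin_box B).preimage (f := fun x : Gam => ((x : unitary O) : O))
      (Subtype.val_injective.comp Subtype.val_injective).injOn).subset fun x hx => ?_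
    exact box_of_rho (hB _ hx)
  Δ := cocompact.choose
  cocpt := cocompact.choose_spec
  neg := ⟨⟨⟨-1, mem_unitary_of_nr (by decide)⟩, 0, by simp⟩, Subtype.ext (by
    show rho (-1) = -1
    rw [← neg_one_zsmul, rho_smul, rho_one]
    simp)⟩

end Pool.Agent.MP_f2742c_an.Pf

end
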