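import Pool.Agent.MP_f2742c_an.Mg.Skew

/-! Dirichlet forms on skew products and a Nash inequality on `D × ℤ`. -/

open Real MeasureTheory Set Filter Topology
open scoped ENNReal NNReal MatrixGroups InnerProductSpace

namespace Pool.Agent.MP_f2742c_an.Pf

open Classical in
/-- indicator of a proposition -/
noncomputable def ind (p : Prop) : ℝ≥0∞ := if p then 1 else 0

theorem ind_pos {p : Prop} (h : p) : ind p = 1 := if_pos h

theorem ind_neg {p : Prop} (h : ¬p) : ind p = 0 := if_neg h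

theorem ind_le_one (p : Prop) : ind p ≤ 1 := by
  by_cases h : p <;> simp [ind, h]

theorem ind_mono {p q : Prop} (h : p → q) : ind p ≤ ind q := by
  by_cases hp : p
  · rw [ind_pos hp, ind_pos (h hp)]
  · rw [ind_neg hp]
    exact zero_le

theorem le_wG {t : ℝ} {g : G} (h : len g < t) : ENNReal.ofReal (√(cosh t))⁻¹ ≤ wG t g := by
  have h0 := len_nonneg g
  have h1 : cosh (len g) < cosh t := by
    rw [cosh_lt_cosh, abs_of_nonneg h0, abs_of_nonneg (by linarith)]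
    exact h
  have h2 := cosh_pos (len g)
  exact ENNReal.ofReal_le_ofReal
    (inv_anti₀ (sqrt_pos.mpr (by linarith)) (sqrt_le_sqrt (by linarith)))

theorem wG_eq_zero {t : ℝ} (ht : 0 ≤ t) {g : G} (h : t ≤ len g) : wG t g = 0 := by
  apply wk_eq_zero
  rw [cosh_le_cosh, abs_of_nonneg ht, abs_of_nonneg (len_nonneg g)]
  exact h

section

variable {Z : Type*} [MeasurableSpace Z] [MulAction G Z] [MeasurableSMul₂ G Z] (m : Measure Z)

/-- Dirichlet form -/
noncomputable def Dir (t : ℝ) (f : Z → ℂ) : ℝ≥0∞ :=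
  ∫⁻ g, ∫⁻ x, ‖f (g • x) - f x‖ₑ ^ 2 ∂m ∂om t

theorem Dir_swap [SFinite m] (t : ℝ) {f : Z → ℂ} (hf : Measurable f) :
    Dir m t f = ∫⁻ x, ∫⁻ g, wG t g * ‖f (g • x) - f x‖ₑ ^ 2 ∂lam ∂m := by
  have h1 : Measurable fun p : G × Z => ‖f (p.1 • p.2) - f p.2‖ₑ ^ 2 :=
    ((hf.comp measurable_smul).sub (hf.comp measurable_snd)).enorm.pow_const _
  rw [Dir, lintegral_lintegral_swap h1.aemeasurable]
  congr 1
  funext x
  exact lintegral_withDensity_eq_lintegral_mul _ (measurable_wG measurable_const measurable_id)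
    (h1.comp (measurable_id.prodMk measurable_const))

variable [SMulInvariantMeasure G Z m] [SigmaFinite m]

omit [SigmaFinite m] in
theorem Dir_congr (t : ℝ) {f f' : Z → ℂ} (h : f =ᵐ[m] f') : Dir m t f = Dir m t f' := by
  unfold Dir
  congr 1
  funext g
  apply lintegral_congr_ae
  filter_upwards [h, (measurePreserving_smul g m).quasiMeasurePreserving.ae_eq_comp h] with x h1 h2
  rw [h1, show f (g • x) = f' (g • x) from h2]

variable [MeasurableSpace.CountablyGenerated Z]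

theorem Dir_eq {t : ℝ} (ht : 0 < t) (f : Lp ℂ 2 m) :
    Dir m t f = ENNReal.ofReal (2 * (om t).real univ *
      (‖f‖ ^ 2 - (⟪nrm (WW m) t f, f⟫_ℂ).re)) := by
  rw [Dir, ← dirichlet, TT_om_eq m ht, smul_apply, inner_smul_left, Complex.conj_ofReal,
    Complex.re_ofReal_mul]
  congr 1
  ring

theorem re_inner_nrm_le {t : ℝ} (ht : 0 < t) (f : Lp ℂ 2 m) :
    (⟪nrm (WW m) t f, f⟫_ℂ).re ≤ ‖f‖ ^ 2 := by
  refine (Complex.re_le_norm _).trans ((norm_inner_le_norm _ _).trans ?_)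
  rw [sq]
  exact mul_le_mul_of_nonneg_right (norm_nrm_le m ht f) (norm_nonneg _)

theorem Dir_le_Dir {a : ℝ} (ha : 24 ≤ a) {t : ℝ} (ht : 0 < t) (f : Lp ℂ 2 m) :
    om a univ * Dir m t f ≤ ENNReal.ofReal (4 + t) * om t univ * Dir m a f := by
  have ha0 : 0 < a := by linarith
  have p1 := om_real_pos ha0
  have p2 := om_real_pos ht
  rw [Dir_eq m ht, Dir_eq m ha0, ← ofReal_measureReal (μ := om a), ← ofReal_measureReal (μ := om t),
    ← ENNReal.ofReal_mul p1.le, ← ENNReal.ofReal_mul (by linarith),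
    ← ENNReal.ofReal_mul (by positivity)]
  apply ENNReal.ofReal_le_ofReal
  have := mul_le_mul_of_nonneg_left (wave_ineq m a ha t ht f).2
    (by positivity : 0 ≤ 2 * (om t).real univ * (om a).real univ)
  linarith

theorem lint_lazy_le {a : ℝ} (ha : 0 < a) (f : Lp ℂ 2 m) :
    ∫⁻ x, ‖lazy (WW m) a f x‖ₑ ∂m ≤ ∫⁻ x, ‖f x‖ₑ ∂m := by
  have p := om_real_pos ha
  have h1 : ∫⁻ x, ‖nrm (WW m) a f x‖ₑ ∂m ≤ ∫⁻ x, ‖f x‖ₑ ∂m := by
    rw [nrm_eq m ha, smul_apply]
    calc _ = ∫⁻ x, ENNReal.ofReal ((om a).real univ)⁻¹ * ‖TT m (om a) f x‖ₑ ∂m := by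
          apply lintegral_congr_ae
          filter_upwards [Lp.coeFn_smul ((((om a).real univ)⁻¹ : ℝ) : ℂ) (TT m (om a) f)] with x hx
          rw [hx, Pi.smul_apply, enorm_smul, ← ofReal_norm, Complex.norm_real,
            Real.norm_of_nonneg (by positivity)]
      _ ≤ _ := by
          rw [lintegral_const_mul' _ _ ENNReal.ofReal_ne_top]
          refine (mul_le_mul_right (lint_TT_le _ f) _).trans (le_of_eq ?_)
          rw [← mul_assoc, ← ofReal_measureReal (μ := om a), ← ENNReal.ofReal_mul (by positivity),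
            inv_mul_cancel₀ p.ne', ENNReal.ofReal_one, one_mul]
  rw [lazy_apply]
  calc _ ≤ ∫⁻ x, 2⁻¹ * (‖f x‖ₑ + ‖nrm (WW m) a f x‖ₑ) ∂m := by
        apply lintegral_mono_ae
        filter_upwards [Lp.coeFn_smul (((2 : ℝ)⁻¹ : ℝ) : ℂ) (f + nrm (WW m) a f),
          Lp.coeFn_add f (nrm (WW m) a f)] with x h1 h2
        rw [h1, Pi.smul_apply, h2, Pi.add_apply, enorm_smul, ← ofReal_norm, Complex.norm_real,
          Real.norm_of_nonneg (by positivity), ENNReal.ofReal_inv_of_pos (by norm_num),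
          ENNReal.ofReal_ofNat]
        exact mul_le_mul_right (enorm_add_le _ _) _
    _ ≤ 2⁻¹ * (∫⁻ x, ‖f x‖ₑ ∂m + ∫⁻ x, ‖f x‖ₑ ∂m) := by
        rw [lintegral_const_mul' _ _ (by simp),
          lintegral_add_left (Lp.stronglyMeasurable f).measurable.enorm]
        gcongr
    _ = _ := by
        rw [← two_mul, ← mul_assoc, ENNReal.inv_mul_cancel (by simp) (by simp), one_mul]

end

variable {Γ : Type} [Group Γ] {L : LData Γ}

namespace Skew

variable {Y : Type} {α : Y} [AddCommGroup Y] [MeasurableSpace Y] [MeasurableAdd₂ Y]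

theorem unfold_ge (w : G → ℝ≥0∞) (hw : Measurable w) (k : ℝ≥0∞) (ρ : ℝ)
    (hk : ∀ g, len g ≤ ρ + 2 * L.Δ → k ≤ w g)
    (Ψ : Skew L Y α → ℝ≥0∞) (hΨ : Measurable Ψ) (d : L.DD) (y : Y) :
    L.vol * k * ∑' γ, ind (len (L.ι γ) ≤ ρ) * ∫⁻ d', Ψ (mk α d' (y + L.φ γ • α)) ∂L.mD ≤
      ∫⁻ g, w g * Ψ (g • mk α d y) ∂lam := by
  rw [unfold2 w hw Ψ hΨ, mul_assoc, ← ENNReal.tsum_mul_left]
  refine mul_le_mul_right (ENNReal.tsum_le_tsum fun γ => ?_) _
  by_cases h : len (L.ι γ) ≤ ρ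
  · rw [ind_pos h, one_mul]
    refine (lintegral_const_mul_le _ _).trans (lintegral_mono fun d' => ?_)
    refine mul_le_mul_left (hk _ ?_) _
    have h1 := len_mul_le (d' * L.ι γ) (d : G)⁻¹
    have h2 := len_mul_le d' (L.ι γ)
    have h3 := d.2.1
    have h4 := d'.2.1
    rw [len_inv] at h1
    linarith
  · simp [ind_neg h]

theorem unfold_le (ρ : ℝ) (Ψ : Skew L Y α → ℝ≥0∞) (hΨ : Measurable Ψ) (d : L.DD) (y : Y) :
    ∫⁻ g in {g | len g ≤ ρ}, Ψ (g • mk α d y) ∂lam ≤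
      L.vol * ∑' γ, ind (len (L.ι γ) ≤ ρ + 2 * L.Δ) *
        ∫⁻ d', Ψ (mk α d' (y + L.φ γ • α)) ∂L.mD := by
  have e : ∀ g : G, {g | len g ≤ ρ}.indicator (fun g => Ψ (g • mk α d y)) g =
      {g | len g ≤ ρ}.indicator 1 g * Ψ (g • mk α d y) := by
    intro g
    by_cases h : g ∈ {g | len g ≤ ρ} <;> simp [h]
  rw [← lintegral_indicator (measurableSet_len ρ), lintegral_congr e,
    unfold2 _ (measurable_one.indicator (measurableSet_len ρ)) Ψ hΨ]
  refine mul_le_mul_right (ENNReal.tsum_le_tsum fun γ => ?_) _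
  rw [← lintegral_const_mul' _ _ ((ind_le_one _).trans_lt ENNReal.one_lt_top).ne]
  refine lintegral_mono fun d' => mul_le_mul_left ?_ _
  by_cases h : d' * L.ι γ * (d : G)⁻¹ ∈ {g | len g ≤ ρ}
  · rw [indicator_of_mem h, ind_pos]
    · exact le_rfl
    have h1 := len_mul_le (d' : G)⁻¹ (d' * L.ι γ * (d : G)⁻¹ * d)
    have h2 := len_mul_le (d' * L.ι γ * (d : G)⁻¹) d
    have h3 := d.2.1
    have h4 := d'.2.1
    have h5 : len (d' * L.ι γ * (d : G)⁻¹) ≤ ρ := h
    rw [len_inv, inv_mul_cancel_right, inv_mul_cancel_left] at h1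
    rw [inv_mul_cancel_right] at h2
    linarith
  · rw [indicator_of_notMem h]
    exact zero_le

theorem Dir_ge (ν : Measure Y) [SigmaFinite ν] {t ρ : ℝ} (h : ρ + 2 * L.Δ < t)
    {f : Skew L Y α → ℂ} (hf : Measurable f) :
    L.vol * ENNReal.ofReal (√(cosh t))⁻¹ * ∫⁻ y, ∫⁻ d, ∑' γ, ind (len (L.ι γ) ≤ ρ) *
      ∫⁻ d', ‖f (mk α d' (y + L.φ γ • α)) - f (mk α d y)‖ₑ ^ 2 ∂L.mD ∂L.mD ∂ν ≤
      Dir (ms L α ν) t f := by
  have hne : L.vol * ENNReal.ofReal (√(cosh t))⁻¹ ≠ ∞ :=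
    ENNReal.mul_ne_top L.vol_ne_top ENNReal.ofReal_ne_top
  have hw : Measurable (wG t) := measurable_wG measurable_const measurable_id
  rw [Dir_swap _ _ hf, lint_ms', ← lintegral_const_mul' _ _ hne]
  · refine lintegral_mono fun y => ?_
    rw [← lintegral_const_mul' _ _ hne]
    refine lintegral_mono fun d => ?_
    exact unfold_ge (wG t) hw _ ρ (fun g hg => le_wG (hg.trans_lt h))
      (fun z => ‖f z - f (mk α d y)‖ₑ ^ 2) ((hf.sub_const _).enorm.pow_const _) d y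
  · exact ((hw.comp measurable_snd).mul (((hf.comp (measurable_snd.smul measurable_fst)).sub
      (hf.comp measurable_fst)).enorm.pow_const _)).lintegral_prod_right'

end Skew

/-- the time step -/
noncomputable def LData.aa (L : LData Γ) : ℝ := 24 + (len (L.ι L.γ₀) + 2 * L.Δ)

theorem LData.le_aa (L : LData Γ) : 24 ≤ L.aa := by
  have := L.Δ_nonneg
  have := len_nonneg (L.ι L.γ₀)
  unfold LData.aa
  linarith

/-- a positive constant -/
noncomputable def LData.kk (L : LData Γ) : ℝ≥0∞ := L.vol * ENNReal.ofReal (√(cosh L.aa))⁻¹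

theorem LData.kk_ne_zero (L : LData Γ) : L.kk ≠ 0 := by
  have := cosh_pos L.aa
  exact mul_ne_zero L.vol_ne_zero (by simpa using this)

theorem LData.kk_ne_top (L : LData Γ) : L.kk ≠ ∞ :=
  ENNReal.mul_ne_top L.vol_ne_top ENNReal.ofReal_ne_top

theorem Skew.Dir_ge' {Y : Type} {α : Y} [AddCommGroup Y] [MeasurableSpace Y] [MeasurableAdd₂ Y]
    (ν : Measure Y) [SigmaFinite ν] {f : Skew L Y α → ℂ} (hf : Measurable f) :
    L.kk * ∫⁻ y, ∫⁻ d, ∫⁻ d', ‖f (mk α d' (y + α)) - f (mk α d y)‖ₑ ^ 2 ∂L.mD ∂L.mD ∂ν ≤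
      Dir (ms L α ν) L.aa f := by
  refine le_trans (mul_le_mul_right (lintegral_mono fun y => lintegral_mono fun d => ?_) _)
    (Dir_ge ν (ρ := len (L.ι L.γ₀)) (by unfold LData.aa; linarith) hf)
  refine le_trans (le_of_eq ?_) (ENNReal.le_tsum L.γ₀)
  rw [ind_pos le_rfl, one_mul, L.φ_γ₀, one_smul]

theorem enn_le_one_add_sq (x : ℝ≥0∞) : x ≤ 1 + x ^ 2 := by
  rcases le_total x 1 with h | h
  · exact h.trans le_self_add
  · exact (le_self_pow h two_ne_zero).trans le_add_self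

theorem enorm_sq_le (u v : ℂ) : ‖u‖ₑ ^ 2 ≤ 2 * ‖u‖ₑ * ‖v‖ₑ + ‖v - u‖ₑ ^ 2 := by
  have h1 := abs_norm_sub_norm_le v u
  have h2 := sq_le_sq' (abs_le.mp h1).1 (abs_le.mp h1).2
  have h3 : ‖u‖ ^ 2 ≤ 2 * ‖u‖ * ‖v‖ + ‖v - u‖ ^ 2 := by nlinarith [sq_nonneg ‖v‖]
  have h4 : ‖u‖₊ ^ 2 ≤ 2 * ‖u‖₊ * ‖v‖₊ + ‖v - u‖₊ ^ 2 := by exact_mod_cast h3
  simp only [enorm_eq_nnnorm]
  exact_mod_cast h4

theorem nash_abs {D : Type*} [MeasurableSpace D] (ν : Measure D) [IsProbabilityMeasure ν]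
    (F : ℤ → D → ℂ) (hF : ∀ n, Measurable (F n)) (h1 : ∑' n, ∫⁻ d, ‖F n d‖ₑ ∂ν ≤ 1)
    (N : ℕ) (hN : 0 < N) :
    N * ∑' n, ∫⁻ d, ‖F n d‖ₑ ^ 2 ∂ν ≤
      4 + 3 * N ^ 3 * ∑' n, ∫⁻ d, ∫⁻ d', ‖F (n + 1) d' - F n d‖ₑ ^ 2 ∂ν ∂ν := by
  set e : ℤ → ℝ≥0∞ := fun n => ∫⁻ d, ∫⁻ d', ‖F (n + 1) d' - F n d‖ₑ ^ 2 ∂ν ∂ν with he
  set b : ℤ → ℝ≥0∞ := fun n => ∫⁻ d, ‖F n d‖ₑ ∂ν with hb
  set E := ∑' n, e n with hE
  have hN0 : (N : ℝ≥0∞) ≠ 0 := by simpa using hN.ne'
  have hN1 : (1 : ℝ≥0∞) ≤ N := by exact_mod_cast hN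
  have s1 : ∀ n, (N : ℝ≥0∞) ^ 2 * b n ≤ N ^ 2 * b (n + 1) + 1 + N ^ 4 * e n := by
    intro n
    calc (N : ℝ≥0∞) ^ 2 * b n = ∫⁻ d, ∫⁻ _d', N ^ 2 * ‖F n d‖ₑ ∂ν ∂ν := by
          simp only [lintegral_const, measure_univ, mul_one]
          rw [lintegral_const_mul' _ _ (by simp)]
      _ ≤ ∫⁻ d, ∫⁻ d', (N ^ 2 * ‖F (n + 1) d'‖ₑ + 1 +
            N ^ 4 * ‖F (n + 1) d' - F n d‖ₑ ^ 2) ∂ν ∂ν := by
          refine lintegral_mono fun d => lintegral_mono fun d' => ?_
          have t1 : ‖F n d‖ₑ ≤ ‖F (n + 1) d'‖ₑ + ‖F (n + 1) d' - F n d‖ₑ := by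
            conv_lhs => rw [show F n d = F (n + 1) d' - (F (n + 1) d' - F n d) by ring]
            exact enorm_sub_le
          refine (mul_le_mul_right t1 _).trans ?_
          rw [mul_add, add_assoc]
          refine add_le_add_right ((enn_le_one_add_sq _).trans (le_of_eq ?_)) _
          ring
      _ = _ := by
          have m1 : Measurable fun d' => (N : ℝ≥0∞) ^ 2 * ‖F (n + 1) d'‖ₑ + 1 :=
            ((hF _).enorm.const_mul _).add_const _
          simp only [lintegral_add_left m1]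
          rw [lintegral_add_left measurable_const, lintegral_add_right _ measurable_const,
            lintegral_const_mul' _ _ (by simp)]
          simp only [lintegral_const, measure_univ, mul_one]
          congr 1
          rw [he, ← lintegral_const_mul' _ _ (by simp)]
          congr 1
          funext d
          rw [lintegral_const_mul' _ _ (by simp)]
  have s2 : ∀ n (k : ℕ), (N : ℝ≥0∞) ^ 2 * b n ≤
      N ^ 2 * b (n + k) + k + N ^ 4 * ∑ i ∈ Finset.range k, e (n + i) := by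
    intro n k
    induction k with
    | zero => simp
    | succ k ih =>
      refine ih.trans ?_
      refine (add_le_add_left (add_le_add_left (s1 (n + k)) _) _).trans (le_of_eq ?_)
      rw [Finset.sum_range_succ]
      push_cast
      rw [add_assoc n]
      ring
  have s3 : ∀ (u : ℤ → ℝ≥0∞) (n : ℤ) (k : ℕ), ∑ i ∈ Finset.range k, u (n + i) ≤ ∑' j, u j :=
    fun u n k => (ENNReal.sum_le_tsum _).trans
      (ENNReal.tsum_comp_le_tsum_of_injective (f := fun i : ℕ => n + (i : ℤ))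
        (fun i j h => by simpa using h) u)
  have s4 : ∀ n, (N : ℝ≥0∞) * b n ≤ 2 + N ^ 3 * E := by
    intro n
    have t1 : ∑ _k ∈ Finset.range N, (N : ℝ≥0∞) ^ 2 * b n ≤
        ∑ k ∈ Finset.range N, (N ^ 2 * b (n + k) + (N + N ^ 4 * E)) := by
      refine Finset.sum_le_sum fun k hk => (s2 n k).trans ?_
      rw [add_assoc]
      have : (k : ℝ≥0∞) ≤ N := by exact_mod_cast (Finset.mem_range.mp hk).le
      gcongr
      exact s3 e n k
    rw [Finset.sum_add_distrib, ← Finset.mul_sum (f := fun k : ℕ => b (n + k))] at t1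
    simp only [Finset.sum_const, Finset.card_range, nsmul_eq_mul] at t1
    have t2 := t1.trans (add_le_add_left (mul_le_mul_right ((s3 b n N).trans h1) _) _)
    rw [← ENNReal.mul_le_mul_iff_right (a := (N : ℝ≥0∞) ^ 2) (pow_ne_zero _ hN0) (by simp)]
    refine le_trans (le_of_eq ?_) (t2.trans (le_of_eq ?_)) <;> ring
  have s5 : ∀ n, ∫⁻ d, ‖F n d‖ₑ ^ 2 ∂ν ≤ 2 * b n * b (n + 1) + e n := by
    intro n
    calc ∫⁻ d, ‖F n d‖ₑ ^ 2 ∂ν = ∫⁻ d, ∫⁻ _d', ‖F n d‖ₑ ^ 2 ∂ν ∂ν := by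
          simp only [lintegral_const, measure_univ, mul_one]
      _ ≤ ∫⁻ d, ∫⁻ d', (2 * ‖F n d‖ₑ * ‖F (n + 1) d'‖ₑ +
            ‖F (n + 1) d' - F n d‖ₑ ^ 2) ∂ν ∂ν :=
          lintegral_mono fun d => lintegral_mono fun d' => enorm_sq_le _ _
      _ = _ := by
          have m1 : ∀ d, Measurable fun d' => 2 * ‖F n d‖ₑ * ‖F (n + 1) d'‖ₑ :=
            fun d => (hF _).enorm.const_mul _
          simp only [lintegral_add_left (m1 _), lintegral_const_mul _ (hF _).enorm]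
          have m2 : Measurable fun d => 2 * ‖F n d‖ₑ := (hF _).enorm.const_mul _
          rw [lintegral_add_left (m2.mul_const _), lintegral_mul_const _ m2,
            lintegral_const_mul _ (hF _).enorm]
  calc N * ∑' n, ∫⁻ d, ‖F n d‖ₑ ^ 2 ∂ν ≤ N * ∑' n, (2 * b n * b (n + 1) + e n) :=
        mul_le_mul_right (ENNReal.tsum_le_tsum s5) _
    _ = ∑' n, 2 * (N * b (n + 1)) * b n + N * E := by
        rw [ENNReal.tsum_add, mul_add, ← ENNReal.tsum_mul_left]
        congr 2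
        funext n
        ring
    _ ≤ ∑' n, 2 * (2 + N ^ 3 * E) * b n + N ^ 3 * E := by
        gcongr
        · exact s4 _
        · exact le_self_pow hN1 three_ne_zero
    _ ≤ 2 * (2 + N ^ 3 * E) * 1 + N ^ 3 * E := by
        rw [ENNReal.tsum_mul_left]
        gcongr
    _ = _ := by ring

theorem decay_abs (x : ℕ → ℝ) (h0 : ∀ k, 0 ≤ x k) (h1 : ∀ k, x k ≤ 1) {c : ℝ} (hc : 0 < c)
    (h : ∀ k, ∀ N : ℕ, 0 < N → N * x k ≤ 4 + c * N ^ 3 * (x k - x (k + 1))) (k : ℕ) :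
    k * x k ^ 2 ≤ 216 * c := by
  have s1 : ∀ k, x k ^ 3 ≤ 216 * c * (x k - x (k + 1)) := by
    intro k
    rcases (h0 k).eq_or_lt with h2 | h2
    · have h3 : x (k + 1) ≤ 0 := by
        by_contra h4
        push Not at h4
        obtain ⟨N, hN⟩ := exists_nat_gt (4 / (c * x (k + 1)))
        have hN0 : (0 : ℝ) < N := lt_trans (by positivity) hN
        have hN1 : (1 : ℝ) ≤ N := by
          have : 0 < N := by exact_mod_cast hN0
          exact_mod_cast this
        have h5 := h k N (by exact_mod_cast hN0)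
        rw [div_lt_iff₀ (by positivity)] at hN
        rw [← h2] at h5
        have h6 : (N : ℝ) ≤ N ^ 3 := le_self_pow₀ hN1 three_ne_zero
        have h7 := mul_le_mul_of_nonneg_left h6 (by positivity : 0 ≤ c * x (k + 1))
        nlinarith
      rw [← h2, le_antisymm h3 (h0 _)]
      simp
    · have h3 : 5 / x k ≤ ⌈5 / x k⌉₊ := Nat.le_ceil _
      have h4 : (⌈5 / x k⌉₊ : ℝ) < 5 / x k + 1 := Nat.ceil_lt_add_one (by positivity)
      have h5 := h k ⌈5 / x k⌉₊ (Nat.ceil_pos.mpr (by positivity))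
      have hN : (0 : ℝ) ≤ ⌈5 / x k⌉₊ := Nat.cast_nonneg _
      generalize (⌈5 / x k⌉₊ : ℝ) = N at h3 h4 h5 hN
      rw [div_le_iff₀ h2] at h3
      have h6 : N * x k ≤ 6 := by
        have := mul_lt_mul_of_pos_right h4 h2
        rw [add_mul, div_mul_cancel₀ _ h2.ne'] at this
        linarith [h1 k]
      have h7 : 1 ≤ c * N ^ 3 * (x k - x (k + 1)) := by linarith
      have h8 : 0 ≤ c * (x k - x (k + 1)) := by
        by_contra h9
        push Not at h9
        nlinarith [pow_nonneg hN 3]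
      have h9 : (N * x k) ^ 3 ≤ 6 ^ 3 := pow_le_pow_left₀ (by positivity) h6 3
      have h10 := mul_le_mul_of_nonneg_left h7 (pow_pos h2 3).le
      have h11 := mul_le_mul_of_nonneg_left h9 h8
      nlinarith
  set C := 216 * c with hC
  have hC0 : 0 < C := by positivity
  induction k with
  | zero => simpa using hC0.le
  | succ k ih =>
    have h2 := s1 k
    set u := x k ^ 2 / C with hu
    have hu0 : 0 ≤ u := by positivity
    have e1 : x k ^ 2 = u * C := by rw [hu, div_mul_cancel₀ _ hC0.ne']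
    have h3 : x (k + 1) ≤ x k * (1 - u) := by
      rw [pow_succ, e1] at h2
      have : C * (x (k + 1)) ≤ C * (x k * (1 - u)) := by nlinarith
      exact le_of_mul_le_mul_left this hC0
    have h4 := pow_le_pow_left₀ (h0 _) h3 2
    rw [mul_pow, e1] at h4
    rw [e1] at ih
    have h5 : (k : ℝ) * u ≤ 1 := by
      have : (k * u) * C ≤ 1 * C := by linarith
      exact le_of_mul_le_mul_right this hC0
    rcases (h0 k).eq_or_lt with h6 | h6
    · have : u = 0 := by simp [hu, ← h6]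
      rw [this] at h4
      push_cast
      nlinarith [Nat.cast_nonneg (α := ℝ) k]
    · have h7 : 0 ≤ 1 - u := by
        by_contra h8
        push Not at h8
        nlinarith [h0 (k + 1)]
      have h8 : ((k : ℝ) + 1) * (u * (1 - u) ^ 2) ≤ 1 := by
        have h9 := mul_le_mul_of_nonneg_right h5 (sq_nonneg (1 - u))
        nlinarith [mul_nonneg hu0 h7, mul_nonneg hu0 hu0, mul_nonneg (mul_nonneg hu0 hu0) h7]
      push_cast
      have h9 := mul_le_mul_of_nonneg_left h4 (by positivity : (0 : ℝ) ≤ k + 1)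
      have h10 := mul_le_mul_of_nonneg_left h8 hC0.le
      nlinarith

end Pool.Agent.MP_f2742c_an.Pf
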