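import Pool.Agent.MP_f2742c_an.Mg.Lattice
import Pool.Agent.MP_f2742c_an.Defs

/-! Transfer from `SL(2, ℝ)` to `PSL(2, ℝ)`. -/

open Real MeasureTheory Set Filter Topology UpperHalfPlane
open scoped ENNReal NNReal MatrixGroups

namespace Pool.Agent.MP_f2742c_an.Pf

theorem center_cases {z : G} (hz : z ∈ Subgroup.center G) : z = 1 ∨ z = -1 := by
  obtain ⟨r, h1, h2⟩ := Matrix.SpecialLinearGroup.mem_center_iff.mp hz
  rw [Fintype.card_fin, sq_eq_one_iff] at h1
  rcases h1 with rfl | rfl
  · left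
    apply Subtype.ext
    rw [map_one] at h2
    exact h2.symm
  · right
    apply Subtype.ext
    rw [map_neg, map_one] at h2
    exact h2.symm

scoped instance closedCenter : IsClosed (Subgroup.center G : Set G) :=
  ((toFinite ({1, -1} : Set G)).subset fun _ hz => center_cases hz).isClosed

theorem toPGL_smul (g : G) (z : ℍ) :
    Matrix.ProjectiveSpecialLinearGroup.toPGL (g : PSL(2, ℝ)) • z = g • z := by
  rw [Matrix.ProjectiveSpecialLinearGroup.toPGL_mk, pglMk_smul]
  rfl

theorem continuous_lenP (p : ℍ) : Continuous fun q : PSL(2, ℝ) =>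
    dist p (Matrix.ProjectiveSpecialLinearGroup.toPGL q • p) := by
  rw [← QuotientGroup.isOpenQuotientMap_mk.continuous_comp_iff]
  have : Continuous fun g : G => dist p (g • p) := by fun_prop
  refine this.congr fun g => ?_
  simp only [Function.comp, toPGL_smul]

theorem exists_pslAction (X : Type) [MulAction G X] (hneg : ∀ x : X, (-1 : G) • x = x) :
    ∃ _ : MulAction PSL(2, ℝ) X, ∀ (g : G) (x : X), (g : PSL(2, ℝ)) • x = g • x := by
  refine ⟨MulAction.compHom X (QuotientGroup.lift (Subgroup.center G) (MulAction.toPermHom G X)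
    fun z hz => ?_), fun _ _ => rfl⟩
  ext x
  rcases center_cases hz with rfl | rfl
  · exact one_smul _ x
  · exact hneg x

theorem Skew.neg_smul {Γ : Type} [Group Γ] {L : LData Γ} {Y : Type} {α : Y} [AddCommGroup Y]
    (x : Skew L Y α) : (-1 : G) • x = x := by
  obtain ⟨γ, hγ⟩ := L.neg
  obtain ⟨d, y⟩ := x
  have h1 : γ * γ = 1 := L.inj (by rw [map_mul, hγ, map_one, neg_mul_neg, one_mul])
  have h2 := L.φ_mul γ γ
  rw [h1, L.φ_one] at h2
  have h3 : L.φ γ = 0 := by omega
  have h4 : (-1 : G) * d = d * L.ι γ := by rw [hγ, neg_mul, mul_neg, one_mul, mul_one]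
  show Skew.mk α (L.r (-1 * d)) (y + L.φ (L.c (-1 * d)) • α) = _
  rw [h4, L.r_mul, L.c_mul, h3, zero_smul, add_zero]
  rfl

variable {X : Type} [MeasurableSpace X] [MulAction G X] [MulAction PSL(2, ℝ) X]
  (hc : ∀ (g : G) (x : X), (g : PSL(2, ℝ)) • x = g • x) (μ : Measure X)

include hc

theorem not_gap [IsProbabilityMeasure μ]
    (h : ∀ t ε : ℝ, 0 < ε → ∃ f : X → ℂ, Measurable f ∧ (∀ x, ‖f x‖ = 1) ∧ ∫ x, f x ∂μ = 0 ∧
      ∀ g : G, len g ≤ t → ∀ x, ‖f (g • x) - f x‖ ≤ ε) : ¬ HasSpectralGap X μ := by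
  rintro ⟨Q, hQ, ε, hε, hgap⟩
  obtain ⟨t, ht⟩ := hQ.bddAbove_image (continuous_lenP I).continuousOn
  obtain ⟨f, h1, h2, h3, h4⟩ := h t (ε / 2) (half_pos hε)
  have h5 := hgap f (MemLp.of_bound h1.aestronglyMeasurable 1 (ae_of_all _ fun x => (h2 x).le)) h3
  rw [eLpNorm_congr_norm_ae (g := fun _ => (1 : ℂ)) (ae_of_all _ fun x => by simp [h2]),
    eLpNorm_const _ two_ne_zero (IsProbabilityMeasure.ne_zero μ)] at h5
  simp only [enorm_one, measure_univ, ENNReal.one_rpow, mul_one] at h5
  have h6 : ENNReal.ofReal ε ≤ ENNReal.ofReal (ε / 2) := by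
    refine h5.trans (iSup₂_le fun q hq => ?_)
    obtain ⟨g, rfl⟩ := QuotientGroup.mk_surjective q
    have h7 := ht ⟨g, hq, rfl⟩
    simp only [toPGL_smul] at h7
    refine (eLpNorm_le_of_ae_bound (C := ε / 2) (ae_of_all _ fun x => ?_)).trans (by simp)
    rw [← QuotientGroup.mk_inv, hc]
    exact h4 _ (by rw [len_inv]; exact h7) x
  rw [ENNReal.ofReal_le_ofReal_iff (half_pos hε).le] at h6
  linarith

theorem ergodic_psl [SMulInvariantMeasure G X μ]
    (h : ∀ s : Set X, MeasurableSet s → (∀ g : G, (g • ·) ⁻¹' s =ᵐ[μ] s) →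
      EventuallyConst s (ae μ)) : ErgodicSMul PSL(2, ℝ) X μ where
  measure_preimage_smul q s hs := by
    obtain ⟨g, rfl⟩ := QuotientGroup.mk_surjective q
    simp only [hc]
    exact SMulInvariantMeasure.measure_preimage_smul g hs
  aeconst_of_forall_preimage_smul_ae_eq hs h' := h _ hs fun g => by simpa only [hc] using h' g

variable [mP : MeasurableSpace PSL(2, ℝ)] [BorelSpace PSL(2, ℝ)] [MeasurableSMul₂ G X]

theorem measurableSMul_psl [StandardBorelSpace X] : MeasurableSMul₂ PSL(2, ℝ) X := ⟨by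
  have h1 : Measurable (Prod.map (QuotientGroup.mk : G → PSL(2, ℝ)) (id : X → X)) :=
    QuotientGroup.continuous_mk.measurable.prodMap measurable_id
  rw [← h1.measurable_comp_iff_of_surjective
    (QuotientGroup.mk_surjective.prodMap Function.surjective_id)]
  have e : ((fun p : PSL(2, ℝ) × X => p.1 • p.2) ∘
      Prod.map (QuotientGroup.mk : G → PSL(2, ℝ)) (id : X → X)) = fun p => p.1 • p.2 :=
    funext fun p => hc p.1 p.2
  exact e ▸ measurable_smul⟩

theorem pointwise_psl [StandardBorelSpace X] [IsProbabilityMeasure μ] [SMulInvariantMeasure G X μ]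
    (h : ∀ f : X → ℂ, Integrable f μ → ∀ᵐ x ∂μ,
      (∀ r, IntegrableOn (fun g : G => f (g • x)) {g | len g ≤ r} lam) ∧
        Tendsto (fun r => avg r f x) atTop (𝓝 (∫ y, f y ∂μ)))
    (ν : Measure PSL(2, ℝ)) [ν.IsHaarMeasure] (p : ℍ) : PointwiseL1 ν p X μ := by
  have := measurableSMul_psl hc
  set a : G := p.toSL2R with ha
  set ψ : G →* PSL(2, ℝ) := (QuotientGroup.mk' _).comp (MulAut.conj a).toMonoidHom with hψ
  have eψ : ∀ g, ψ g = ((a * g * a⁻¹ : G) : PSL(2, ℝ)) := fun g => rfl
  have cψ : Continuous ψ := QuotientGroup.continuous_mk.comp (by fun_prop :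
    Continuous fun g : G => a * g * a⁻¹)
  have mψ := cψ.measurable
  have sψ : Function.Surjective ψ := QuotientGroup.mk_surjective.comp (MulAut.conj a).surjective
  have pψ : ∀ r, ψ ⁻¹' hypBall p r = {g | len g ≤ r} := by
    intro r
    ext g
    simp only [hypBall, mem_preimage, mem_ofPred_eq, eψ, toPGL_smul]
    rw [← toSL2R_smul_I p, ← ha, mul_smul, inv_smul_smul, mul_smul, dist_smul, len]
  have mB : ∀ r, MeasurableSet (hypBall p r) := fun r =>
    measurableSet_le (continuous_lenP p).measurable measurable_const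
  have i1 : (lam.map ψ).IsMulLeftInvariant := isMulLeftInvariant_map ψ.toMulHom mψ sψ
  have i2 : IsFiniteMeasureOnCompacts (lam.map ψ) := ⟨fun K hK => by
    obtain ⟨t, ht⟩ := hK.bddAbove_image (continuous_lenP p).continuousOn
    refine (measure_mono (t := hypBall p t) fun q hq => ht ⟨q, hq, rfl⟩).trans_lt ?_
    rw [Measure.map_apply mψ (mB t), pψ]
    exact (isCompact_len t).measure_lt_top⟩
  obtain ⟨c, hν⟩ : ∃ c : ℝ≥0, lam.map ψ = c • ν := ⟨_, Measure.isMulLeftInvariant_eq_smul _ ν⟩
  have c0 : c ≠ 0 := by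
    rintro rfl
    rw [zero_smul, Measure.map_eq_zero_iff mψ.aemeasurable] at hν
    exact lam_ne_zero hν
  have hres : ∀ r, (c : ℝ≥0∞) • ν.restrict (hypBall p r) = (lam.restrict {g | len g ≤ r}).map ψ := by
    intro r
    rw [← pψ, ← Measure.restrict_map mψ (mB r), hν, Measure.restrict_smul]
    rfl
  refine ⟨fun f hf => ?_⟩
  wlog hfm : Measurable f generalizing f
  · have h1 := hf.1.ae_eq_mk
    have h2 := this _ (hf.congr h1) hf.1.measurable_mk
    obtain ⟨N, hN, hNm, hN0⟩ := exists_measurable_superset_of_null h1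
    have h3 : ∀ᵐ q ∂ν, ∀ᵐ x ∂μ, q • x ∉ N := ae_of_all _ fun q => by
      obtain ⟨g, rfl⟩ := QuotientGroup.mk_surjective q
      simp only [hc]
      exact (measurePreserving_smul g μ).quasiMeasurePreserving.ae
        (measure_eq_zero_iff_ae_notMem.mp hN0)
    rw [← Measure.ae_ae_comm (p := fun (x : X) (q : PSL(2, ℝ)) => q • x ∉ N)
      ((measurable_snd.smul measurable_fst) hNm.compl)] at h3
    filter_upwards [h2, h3] with x hx h4
    have h5 : ∀ᵐ q ∂ν, f (q • x) = hf.1.mk f (q • x) := by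
      filter_upwards [h4] with q hq
      by_contra hcon
      exact hq (hN hcon)
    refine ⟨fun r => (hx.1 r).congr (ae_restrict_of_ae (h5.mono fun _ h => h.symm)), ?_⟩
    rw [integral_congr_ae h1]
    exact hx.2.congr fun r => (average_congr (ae_restrict_of_ae h5)).symm
  have h1 := h (fun x => f (a • x)) ((measurePreserving_smul a μ).integrable_comp_of_integrable hf)
  filter_upwards [(measurePreserving_smul a⁻¹ μ).quasiMeasurePreserving.ae h1] with x hx
  have m1 : Measurable fun q : PSL(2, ℝ) => f (q • x) := hfm.comp (measurable_id.smul_const x)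
  have e1 : ∀ g : G, f (ψ g • x) = f (a • g • a⁻¹ • x) := by
    intro g
    rw [eψ, hc, mul_smul, mul_smul]
  constructor
  · intro r
    rw [IntegrableOn, ← integrable_smul_measure (c := c) (by simpa using c0) ENNReal.coe_ne_top,
      hres, integrable_map_measure m1.aestronglyMeasurable mψ.aemeasurable]
    exact (hx.1 r).congr (ae_of_all _ fun g => (e1 g).symm)
  · rw [integral_smul_eq_self] at hx
    refine hx.2.congr' ?_
    filter_upwards [eventually_ge_atTop 0] with r hr
    have h2 := congrArg (fun m => ∫ q, f (q • x) ∂m) (hres r)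
    have h3 := congrArg (fun m => m.real univ) (hres r)
    simp only [integral_smul_measure, ENNReal.coe_toReal] at h2
    rw [integral_map mψ.aemeasurable m1.aestronglyMeasurable] at h2
    simp only [measureReal_ennreal_smul_apply, ENNReal.coe_toReal, measureReal_restrict_apply_univ,
      map_measureReal_apply mψ MeasurableSet.univ, preimage_univ, lam_real_ball hr] at h3
    have c1 : (c : ℝ) ≠ 0 := by simpa using c0
    simp only [e1] at h2
    rw [avg, setAverage_eq, ← h2, ← h3, smul_smul, mul_inv, mul_right_comm,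
      inv_mul_cancel₀ c1, one_mul]

omit hc in
theorem main_result :
    ∃ (X : Type) (_ : MeasurableSpace X) (_ : StandardBorelSpace X) (μ : Measure X)
      (_ : IsProbabilityMeasure μ) (_ : MulAction PSL(2, ℝ) X),
      MeasurableSMul₂ PSL(2, ℝ) X ∧ ErgodicSMul PSL(2, ℝ) X μ ∧ ¬ HasSpectralGap X μ ∧
        ∀ (ν : Measure PSL(2, ℝ)) [ν.IsHaarMeasure] (p₀ : ℍ), PointwiseL1 ν p₀ X μ := by
  have hα : addOrderOf ((√2 : ℝ) : UnitAddCircle) = 0 :=
    AddCircle.denseRange_zsmul_iff.mp (AddCircle.denseRange_zsmul_coe_iff.mpr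
      (by simpa using irrational_sqrt_two))
  obtain ⟨i, hc⟩ := exists_pslAction (Skew lattice UnitAddCircle (√2 : ℝ)) Skew.neg_smul
  exact ⟨Skew lattice UnitAddCircle (√2 : ℝ), inferInstance, inferInstance,
    Skew.ms lattice _ volume, inferInstance, i, measurableSMul_psl hc,
    ergodic_psl hc _ fun _ hs h => lattice.ergodic hα hs h,
    not_gap hc _ fun t _ hε => lattice.no_gap _ t hε,
    fun ν _ p => pointwise_psl hc _ (fun _ hf => lattice.pointwise hα hf) ν p⟩

end Pool.Agent.MP_f2742c_an.Pf
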